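import Mathlib

/-!
# Order of vanishing along a derivation
-/

set_option autoImplicit false
set_option linter.unusedSectionVars false

namespace Pool.Agent.Helper4.AR

variable {k R S : Type*} [CommRing k] [CommRing R] [Algebra k R] [CommRing S] [IsDomain S]

/-- the first `J` derivatives of `a` along `D` vanish at the point `ev` -/
def Van (D : Derivation k R R) (ev : R →+* S) : ℕ → R → Prop
  | 0, _ => True
  | (J + 1), a => ev a = 0 ∧ Van D ev J (D a)

variable {D : Derivation k R R} {ev : R →+* S}

theorem van_zero (a : R) : Van D ev 0 a := trivial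

theorem van_succ {J : ℕ} {a : R} : Van D ev (J + 1) a ↔ ev a = 0 ∧ Van D ev J (D a) := Iff.rfl

theorem Van.mono_succ {J : ℕ} : ∀ {a : R}, Van D ev (J + 1) a → Van D ev J a := by
  induction J with
  | zero => intro a _; trivial
  | succ J ih => intro a h; exact ⟨h.1, ih h.2⟩

theorem Van.mono {J K : ℕ} (hJK : J ≤ K) {a : R} (h : Van D ev K a) : Van D ev J a := by
  induction K, hJK using Nat.le_induction with
  | base => exact h
  | succ K _ ih => exact ih h.mono_succ

theorem Van.zero_elt (J : ℕ) : Van D ev J 0 := by
  induction J with
  | zero => trivial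
  | succ J ih => exact ⟨map_zero _, by rw [map_zero]; exact ih⟩

theorem Van.add {J : ℕ} : ∀ {a b : R}, Van D ev J a → Van D ev J b → Van D ev J (a + b) := by
  induction J with
  | zero => intro a b _ _; trivial
  | succ J ih =>
    intro a b ha hb
    refine ⟨by rw [map_add, ha.1, hb.1, add_zero], ?_⟩
    rw [map_add]
    exact ih ha.2 hb.2

theorem Van.mul {J : ℕ} : ∀ {a : R} (b : R), Van D ev J a → Van D ev J (b * a) := by
  induction J with
  | zero => intro a b _; trivial
  | succ J ih =>
    intro a b ha
    refine ⟨by rw [map_mul, ha.1, mul_zero], ?_⟩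
    rw [Derivation.leibniz, smul_eq_mul, smul_eq_mul]
    refine Van.add (ih b ha.2) ?_
    rw [mul_comm]
    exact ih (D b) ha.mono_succ

theorem Van.mul_right {J : ℕ} {a : R} (b : R) (h : Van D ev J a) : Van D ev J (a * b) := by
  rw [mul_comm]; exact h.mul b

theorem Van.neg {J : ℕ} {a : R} (h : Van D ev J a) : Van D ev J (-a) := by
  have := h.mul (-1)
  rwa [neg_one_mul] at this

theorem Van.sub {J : ℕ} {a b : R} (ha : Van D ev J a) (hb : Van D ev J b) : Van D ev J (a - b) := by
  rw [sub_eq_add_neg]; exact ha.add hb.neg

theorem Van.of_mul {J : ℕ} : ∀ {a b : R}, ev b ≠ 0 → Van D ev J (b * a) → Van D ev J a := by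
  induction J with
  | zero => intro a b _ _; trivial
  | succ J ih =>
    intro a b hb h
    have h1 : ev a = 0 := by
      have := h.1
      rw [map_mul] at this
      exact (mul_eq_zero.mp this).resolve_left hb
    refine ⟨h1, ?_⟩
    have h2 : Van D ev J a := ih hb h.mono_succ
    have h3 := h.2
    rw [Derivation.leibniz, smul_eq_mul, smul_eq_mul] at h3
    have h4 : Van D ev J (b * D a) := by
      have h5 := h3.sub (h2.mul_right (D b))
      rwa [add_sub_cancel_right] at h5
    exact ih hb h4

theorem van_iff {J : ℕ} : ∀ {a : R}, Van D ev J a ↔ ∀ n < J, ev (D^[n] a) = 0 := by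
  induction J with
  | zero => intro a; exact ⟨fun _ n hn => absurd hn (Nat.not_lt_zero n), fun _ => trivial⟩
  | succ J ih =>
    intro a
    rw [van_succ, ih]
    constructor
    · rintro ⟨h1, h2⟩ n hn
      rcases n with _ | n
      · exact h1
      · exact h2 n (by omega)
    · intro h
      exact ⟨h 0 (by omega), fun n hn => h (n + 1) (by omega)⟩

/-- elements of an ideal generated by a constant of the derivation that vanishes at the point -/
theorem Van.const {P : R} (hD : D P = 0) (hP : ev P = 0) (J : ℕ) : ∀ c : R, Van D ev J (P * c) := by
  induction J with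
  | zero => intro c; trivial
  | succ J ih =>
    intro c
    refine ⟨by rw [map_mul, hP, zero_mul], ?_⟩
    rw [Derivation.leibniz, smul_eq_mul, smul_eq_mul, hD, mul_zero, add_zero]
    exact ih _

/-- the lowest term of a product -/
theorem lowest_mul : ∀ (n e f : ℕ), e + f = n → ∀ a b : R, Van D ev e a → Van D ev f b →
    ev (D^[n] (a * b)) = (n.choose e : ℕ) * (ev (D^[e] a) * ev (D^[f] b)) := by
  intro n
  induction n with
  | zero =>
    intro e f hef a b ha hb
    have he : e = 0 := by omega
    have hf : f = 0 := by omega
    subst he hf
    simp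
  | succ n ih =>
    intro e f hef a b ha hb
    rw [Function.iterate_succ_apply, Derivation.leibniz, smul_eq_mul, smul_eq_mul]
    have hadd : ∀ (m : ℕ) (u v : R), D^[m] (u + v) = D^[m] u + D^[m] v := by
      intro m
      induction m with
      | zero => intro u v; rfl
      | succ m ihm => intro u v; rw [Function.iterate_succ_apply, map_add, ihm]; rfl
    rw [hadd, map_add]
    rcases e with _ | e
    · -- e = 0
      rcases f with _ | f
      · omega
      have h1 := ih 0 f (by omega) a (D b) (van_zero _) hb.2
      have h2 : ev (D^[n] (b * D a)) = 0 := by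
        have hv : Van D ev (n + 1) (b * D a) := by
          have : f + 1 = n + 1 := by omega
          rw [← this]
          exact hb.mul_right _
        exact (van_iff.mp hv) n (by omega)
      rw [h1, h2]
      simp
    · rcases f with _ | f
      · have h1 : ev (D^[n] (a * D b)) = 0 := by
          have hv : Van D ev (n + 1) (a * D b) := by
            have : e + 1 = n + 1 := by omega
            rw [← this]
            exact ha.mul_right _
          exact (van_iff.mp hv) n (by omega)
        have h2 := ih 0 e (by omega) b (D a) (van_zero _) ha.2
        have hen : e = n := by omega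
        subst hen
        rw [h1, h2]
        simp [mul_comm]
      · have h1 := ih (e + 1) f (by omega) a (D b) ha hb.2
        have h2 := ih (f + 1) e (by omega) b (D a) hb ha.2
        rw [h1, h2]
        have h3 : n.choose (f + 1) = n.choose e := by
          have h4 : f + 1 = n - e := by omega
          rw [h4]
          exact Nat.choose_symm (by omega)
        rw [h3, Nat.choose_succ_succ]
        push_cast
        simp only [Function.iterate_succ_apply]
        ring

end Pool.Agent.Helper4.AR
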