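import Mathlib
import Pool.Agent.Helper4.AR.Van

/-!
# Divisibility by variables modulo a form
-/

set_option autoImplicit false
set_option linter.unusedSectionVars false

namespace Pool.Agent.Helper4.AR

open MvPolynomial

/-- forms in three variables -/
abbrev A := MvPolynomial (Fin 3) ℤ

/-- put the variable `i` equal to `0` -/
noncomputable def sg (i : Fin 3) : A →ₐ[ℤ] A := aeval (fun k => if k = i then 0 else X k)

theorem sg_X (i k : Fin 3) : sg i (X k) = if k = i then 0 else X k := by
  rw [sg, aeval_X]

theorem sg_sub (i : Fin 3) (F : A) : (X i : A) ∣ F - sg i F := by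
  induction F using MvPolynomial.induction_on with
  | C a => simp [sg]
  | add p q hp hq =>
    rw [map_add]
    have : p + q - (sg i p + sg i q) = (p - sg i p) + (q - sg i q) := by ring
    rw [this]
    exact dvd_add hp hq
  | mul_X p k hp =>
    rw [map_mul, sg_X]
    split_ifs with h
    · subst h
      rw [mul_zero, sub_zero]
      exact dvd_mul_left _ _
    · have : p * X k - sg i p * X k = (p - sg i p) * X k := by ring
      rw [this]
      exact hp.mul_right _

theorem eval_sg {i k : Fin 3} (h : i ≠ k) (F : A) :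
    eval (Pi.single k 1) (sg i F) = eval (Pi.single k (1 : ℤ)) F := by
  induction F using MvPolynomial.induction_on with
  | C a => simp [sg]
  | add p q hp hq => rw [map_add, map_add, map_add, hp, hq]
  | mul_X p l hp =>
    rw [map_mul, map_mul, map_mul, hp, sg_X]
    split_ifs with h'
    · subst h'
      rw [map_zero, eval_X, Pi.single_eq_of_ne h]
    · rfl

/-- the form does not vanish at the coordinate points -/
def NV (P : A) : Prop := ∀ k : Fin 3, eval (Pi.single k (1 : ℤ)) P ≠ 0

theorem exists_third (i j : Fin 3) : ∃ k : Fin 3, i ≠ k ∧ j ≠ k := by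
  revert i j; decide

theorem NV.not_dvd {P : A} (h : NV P) (i : Fin 3) : ¬ (X i : A) ∣ P := by
  rintro ⟨Q, rfl⟩
  obtain ⟨k, hk, -⟩ := exists_third i i
  apply h k
  rw [map_mul, eval_X, Pi.single_eq_of_ne hk, zero_mul]

/-- `X j` is not a zero divisor modulo `P` and `X i` -/
theorem cop_one {P : A} (h : NV P) {i j : Fin 3} (hij : i ≠ j) {a b c : A}
    (he : X j * a = P * b + X i * c) : ∃ b' c' : A, a = P * b' + X i * c' := by
  have h1 : X j * sg i a = sg i P * sg i b := by
    have := congrArg (sg i) he
    rw [map_mul, map_add, map_mul, map_mul, sg_X, sg_X, if_pos rfl, if_neg hij.symm, zero_mul,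
      add_zero] at this
    exact this
  have h2 : ¬ (X j : A) ∣ sg i P := by
    rintro ⟨Q, hQ⟩
    obtain ⟨k, hk1, hk2⟩ := exists_third i j
    apply h k
    rw [← eval_sg hk1, hQ, map_mul, eval_X, Pi.single_eq_of_ne hk2, zero_mul]
  have h3 : (X j : A) ∣ sg i b := by
    have h4 : (X j : A) ∣ sg i P * sg i b := ⟨_, h1.symm⟩
    exact (MvPolynomial.X_prime.dvd_or_dvd h4).resolve_left h2
  obtain ⟨b', hb'⟩ := h3
  have h5 : sg i a = sg i P * b' := by
    rw [hb'] at h1
    have h6 : X j * sg i a = X j * (sg i P * b') := by rw [h1]; ring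
    exact mul_left_cancel₀ (MvPolynomial.X_ne_zero j) h6
  obtain ⟨u, hu⟩ := sg_sub i a
  obtain ⟨v, hv⟩ := sg_sub i P
  refine ⟨b', u - v * b', ?_⟩
  linear_combination hu - b' * hv + h5

theorem cop_pow {P : A} (h : NV P) {i j : Fin 3} (hij : i ≠ j) (r : ℕ) :
    ∀ {a b c : A}, X j * a = P * b + X i ^ r * c → ∃ b' c' : A, a = P * b' + X i ^ r * c' := by
  induction r with
  | zero => intro a b c _; exact ⟨0, a, by ring⟩
  | succ r ih =>
    intro a b c he
    have he' : X j * a = P * b + X i * (X i ^ r * c) := by rw [he]; ring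
    obtain ⟨b', c', h1⟩ := cop_one h hij he'
    have h2 : (X i : A) ∣ P * (b - X j * b') := by
      refine ⟨X j * c' - X i ^ r * c, ?_⟩
      rw [h1] at he
      linear_combination -he
    have h3 : (X i : A) ∣ b - X j * b' :=
      (MvPolynomial.X_prime.dvd_or_dvd h2).resolve_left (h.not_dvd i)
    obtain ⟨b'', h4⟩ := h3
    have h5 : X j * c' = P * b'' + X i ^ r * c := by
      have h6 : X i * (X j * c') = X i * (P * b'' + X i ^ r * c) := by
        rw [h1] at he
        linear_combination he + P * h4
      exact mul_left_cancel₀ (MvPolynomial.X_ne_zero i) h6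
    obtain ⟨b3, c3, h7⟩ := ih h5
    exact ⟨b' + X i * b3, c3, by rw [h1, h7]; ring⟩

theorem cop_pow_pow {P : A} (h : NV P) {i j : Fin 3} (hij : i ≠ j) (r q : ℕ) :
    ∀ {a b c : A}, X j ^ q * a = P * b + X i ^ r * c → ∃ b' c' : A, a = P * b' + X i ^ r * c' := by
  induction q with
  | zero => intro a b c he; exact ⟨b, c, by rw [← he]; ring⟩
  | succ q ih =>
    intro a b c he
    have he' : X j * (X j ^ q * a) = P * b + X i ^ r * c := by rw [← he]; ring
    obtain ⟨b', c', h1⟩ := cop_pow h hij r he'
    exact ih h1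

/-! ### homogeneous components -/

theorem comp_mul {P : A} {d : ℕ} (hP : P.IsHomogeneous d) (b : A) (n : ℕ) :
    homogeneousComponent (n + d) (P * b) = P * homogeneousComponent n b := by
  conv_lhs => rw [← sum_homogeneousComponent b, Finset.mul_sum, map_sum]
  have h1 : ∀ i ∈ Finset.range (b.totalDegree + 1),
      homogeneousComponent (n + d) (P * homogeneousComponent i b) =
        if i = n then P * homogeneousComponent n b else 0 := by
    intro i _
    rw [homogeneousComponent_of_mem ((mem_homogeneousSubmodule _ _).mpr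
      (hP.mul (homogeneousComponent_isHomogeneous i b)))]
    by_cases hi : i = n
    · subst hi
      rw [if_pos (by omega), if_pos rfl]
    · rw [if_neg (by omega), if_neg hi]
  rw [Finset.sum_congr rfl h1, Finset.sum_ite_eq']
  split_ifs with h2
  · rfl
  · rw [homogeneousComponent_eq_zero _ _ (by
      rw [Finset.mem_range] at h2
      omega), mul_zero]

theorem comp_mul_lt {P : A} {d : ℕ} (hP : P.IsHomogeneous d) (b : A) (n : ℕ) (h : n < d) :
    homogeneousComponent n (P * b) = 0 := by
  rw [← sum_homogeneousComponent b, Finset.mul_sum, map_sum]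
  refine Finset.sum_eq_zero fun i _ => ?_
  rw [homogeneousComponent_of_mem ((mem_homogeneousSubmodule _ _).mpr
      (hP.mul (homogeneousComponent_isHomogeneous i b)))]
  rw [if_neg (by omega)]

/-- make the coefficient of a representation homogeneous -/
theorem hom_rep {P M F : A} {d r n : ℕ} (hP : P.IsHomogeneous d) (hM : M.IsHomogeneous r)
    (hF : F.IsHomogeneous (n + r)) {b c : A} (he : F = P * b + M * c) :
    ∃ b' c' : A, F = P * b' + M * c' ∧ c'.IsHomogeneous n := by
  have h1 : homogeneousComponent (n + r) (M * c) = M * homogeneousComponent n c := comp_mul hM c n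
  have h2 : ∃ b' : A, homogeneousComponent (n + r) (P * b) = P * b' := by
    by_cases h : d ≤ n + r
    · obtain ⟨m, hm⟩ := Nat.exists_eq_add_of_le' h
      rw [hm]
      exact ⟨_, comp_mul hP b m⟩
    · exact ⟨0, by rw [comp_mul_lt hP b _ (by omega), mul_zero]⟩
  obtain ⟨b', hb'⟩ := h2
  refine ⟨b', homogeneousComponent n c, ?_, homogeneousComponent_isHomogeneous _ _⟩
  rw [← hb', ← h1, ← map_add, ← he, homogeneousComponent_eq_self hF]

theorem hom_rep_lt {P M F : A} {d r n : ℕ} (hP : P.IsHomogeneous d) (hM : M.IsHomogeneous r)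
    (hF : F.IsHomogeneous n) (hn : n < r) {b c : A} (he : F = P * b + M * c) : P ∣ F := by
  have h1 : homogeneousComponent n (M * c) = 0 := comp_mul_lt hM c n hn
  have h2 : ∃ b' : A, homogeneousComponent n (P * b) = P * b' := by
    by_cases h : d ≤ n
    · obtain ⟨m, hm⟩ := Nat.exists_eq_add_of_le' h
      rw [hm]
      exact ⟨_, comp_mul hP b m⟩
    · exact ⟨0, by rw [comp_mul_lt hP b _ (by omega), mul_zero]⟩
  obtain ⟨b', hb'⟩ := h2
  refine ⟨b', ?_⟩
  rw [← hb']
  have h3 := congrArg (homogeneousComponent n) he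
  rw [map_add, h1, add_zero, homogeneousComponent_eq_self hF] at h3
  exact h3

end Pool.Agent.Helper4.AR
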