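import Mathlib
import Pool.Agent.Helper4.AR.Alg

/-!
# Siegel's lemma for forms modulo a form
-/

set_option autoImplicit false
set_option linter.unusedSectionVars false

namespace Pool.Agent.Helper4.AR

open MvPolynomial Matrix

attribute [local instance] Matrix.seminormedAddCommGroup

/-- Siegel's lemma with a bound in natural numbers -/
theorem siegel_nat {α β : Type} [Fintype α] [Fintype β] (M : Matrix α β ℤ) {S e : ℕ} (hS : 1 ≤ S)
    (h0 : 0 < Fintype.card α) (h1 : Fintype.card α < Fintype.card β)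
    (he : Fintype.card α ≤ e * (Fintype.card β - Fintype.card α)) (hM : ∀ i j, (M i j).natAbs ≤ S) :
    ∃ t : β → ℤ, t ≠ 0 ∧ M *ᵥ t = 0 ∧ ∀ i, (t i).natAbs ≤ (Fintype.card β * S) ^ e := by
  obtain ⟨t, ht0, htM, htn⟩ := Int.Matrix.exists_ne_zero_int_vec_norm_le M h1 h0
  refine ⟨t, ht0, htM, fun i => ?_⟩
  have hMn : ‖M‖ ≤ S := by
    rw [Matrix.norm_le_iff (by positivity)]
    intro i j
    rw [Int.norm_eq_abs]
    have := hM i j
    have h2 : ((M i j).natAbs : ℝ) ≤ S := by exact_mod_cast this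
    rwa [Nat.cast_natAbs, Int.cast_abs] at h2
  have h3 : (0 : ℝ) < ((Fintype.card β : ℕ) : ℝ) - (Fintype.card α : ℕ) := by
    have : ((Fintype.card α : ℕ) : ℝ) < (Fintype.card β : ℕ) := by exact_mod_cast h1
    linarith
  have hexp : ((Fintype.card α : ℕ) : ℝ) / ((Fintype.card β : ℕ) - (Fintype.card α : ℕ)) ≤ (e : ℕ) := by
    have h2 : ((Fintype.card α : ℕ) : ℝ) ≤ e * ((Fintype.card β : ℕ) - (Fintype.card α : ℕ)) := by
      rw [← Nat.cast_sub h1.le]
      exact_mod_cast he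
    rw [div_le_iff₀ h3]
    exact h2
  have h5 : max 1 ‖M‖ ≤ S := max_le (by exact_mod_cast hS) hMn
  have hb1 : (1 : ℝ) ≤ Fintype.card β * max 1 ‖M‖ := by
    have : (1 : ℝ) ≤ (Fintype.card β : ℕ) := by
      have : 1 ≤ Fintype.card β := by omega
      exact_mod_cast this
    have h6 : (1 : ℝ) ≤ max 1 ‖M‖ := le_max_left _ _
    nlinarith
  have h4 : ‖t i‖ ≤ (Fintype.card β * max 1 ‖M‖) ^ e := by
    refine (norm_le_pi_norm t i).trans (htn.trans ?_)
    rw [← Real.rpow_natCast]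
    exact Real.rpow_le_rpow_of_exponent_le hb1 hexp
  have h6 : (Fintype.card β * max 1 ‖M‖) ^ e ≤ (Fintype.card β * (S : ℝ)) ^ e :=
    pow_le_pow_left₀ (by positivity) (mul_le_mul_of_nonneg_left h5 (by positivity)) e
  have h7 := h4.trans h6
  rw [Int.norm_eq_abs] at h7
  have h8 : ((t i).natAbs : ℝ) ≤ (Fintype.card β * (S : ℝ)) ^ e := by
    rw [Nat.cast_natAbs, Int.cast_abs]
    exact h7
  exact_mod_cast h8

/-- the monomials `X ^ a Y ^ c Z ^ (k - a - c)` with `c < b` -/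
def II (k b : ℕ) : Finset ((_ : ℕ) × ℕ) := (Finset.range b).sigma fun c => Finset.range (k + 1 - c)

theorem mem_II {k b : ℕ} {u : (_ : ℕ) × ℕ} : u ∈ II k b ↔ u.1 < b ∧ u.1 + u.2 ≤ k := by
  rw [II, Finset.mem_sigma, Finset.mem_range, Finset.mem_range]
  omega

theorem card_II (k b : ℕ) : (II k b).card = ∑ c ∈ Finset.range b, (k + 1 - c) := by
  rw [II, Finset.card_sigma]
  simp

/-- the exponent vector -/
noncomputable def ex (k : ℕ) (u : (_ : ℕ) × ℕ) : Fin 3 →₀ ℕ :=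
  Finsupp.single 0 u.2 + Finsupp.single 1 u.1 + Finsupp.single 2 (k - u.1 - u.2)

theorem ex_zero (k : ℕ) (u : (_ : ℕ) × ℕ) : ex k u 0 = u.2 := by
  simp [ex]

theorem ex_one (k : ℕ) (u : (_ : ℕ) × ℕ) : ex k u 1 = u.1 := by
  simp [ex]

theorem ex_two (k : ℕ) (u : (_ : ℕ) × ℕ) : ex k u 2 = k - u.1 - u.2 := by
  simp [ex]

theorem ex_inj {k : ℕ} {u v : (_ : ℕ) × ℕ} (h : ex k u = ex k v) : u = v := by
  have h0 := DFunLike.congr_fun h 0
  have h1 := DFunLike.congr_fun h 1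
  rw [ex_zero, ex_zero] at h0
  rw [ex_one, ex_one] at h1
  cases u; cases v
  simp only at h0 h1
  rw [h0, h1]

theorem degree_fin3 (m : Fin 3 →₀ ℕ) : m.degree = m 0 + m 1 + m 2 := by
  rw [Finsupp.degree_eq_sum, Fin.sum_univ_three]

theorem ex_degree {k : ℕ} {u : (_ : ℕ) × ℕ} (h : u.1 + u.2 ≤ k) : (ex k u).degree = k := by
  rw [degree_fin3, ex_zero, ex_one, ex_two]
  omega

theorem eq_ex {k : ℕ} {m : Fin 3 →₀ ℕ} (h : m.degree = k) : m = ex k ⟨m 1, m 0⟩ := by
  rw [degree_fin3] at h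
  ext i
  fin_cases i
  · show m 0 = ex k ⟨m 1, m 0⟩ 0
    rw [ex_zero]
  · show m 1 = ex k ⟨m 1, m 0⟩ 1
    rw [ex_one]
  · show m 2 = ex k ⟨m 1, m 0⟩ 2
    rw [ex_two]
    simp only
    omega

theorem siegel_forms {ι : Type} [Fintype ι] (b : ι → A) {N S e : ℕ} (hS : 1 ≤ S)
    (hb : ∀ i, (b i).IsHomogeneous N) (hc : ∀ i m, ((b i).coeff m).natAbs ≤ S)
    (h1 : (II N (N + 1)).card < Fintype.card ι)
    (he : (II N (N + 1)).card ≤ e * (Fintype.card ι - (II N (N + 1)).card)) :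
    ∃ t : ι → ℤ, t ≠ 0 ∧ ∑ i, C (t i) * b i = 0 ∧
      ∀ i, (t i).natAbs ≤ (Fintype.card ι * S) ^ e := by
  classical
  let M : Matrix (II N (N + 1)) ι ℤ := fun u i => (b i).coeff (ex N u)
  have hcard : Fintype.card (II N (N + 1)) = (II N (N + 1)).card := Fintype.card_coe _
  obtain ⟨t, ht0, htM, htn⟩ := siegel_nat M (S := S) (e := e) hS (by
    rw [hcard, Finset.card_pos]
    exact ⟨⟨0, 0⟩, mem_II.mpr ⟨by simp, by simp⟩⟩) (by rw [hcard]; exact h1)
    (by rw [hcard]; exact he) (fun u i => hc i _)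
  refine ⟨t, ht0, ?_, htn⟩
  have hhom : (∑ i, C (t i) * b i).IsHomogeneous N :=
    IsHomogeneous.sum _ _ _ fun i _ => (hb i).C_mul _
  ext m
  rw [coeff_zero]
  by_cases hm : m.degree = N
  · have h2 : (⟨m 1, m 0⟩ : (_ : ℕ) × ℕ) ∈ II N (N + 1) := by
      rw [mem_II]
      rw [degree_fin3] at hm
      simp only
      omega
    have h3 := congrFun htM ⟨_, h2⟩
    simp only [Matrix.mulVec, dotProduct, Pi.zero_apply, M] at h3
    rw [← eq_ex hm] at h3
    rw [coeff_sum, ← h3]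
    refine Finset.sum_congr rfl fun i _ => ?_
    rw [coeff_C_mul, mul_comm]
  · exact hhom.coeff_eq_zero hm

/-- the form with given coefficients -/
noncomputable def pl (k b : ℕ) (t : (_ : ℕ) × ℕ → ℤ) : A := ∑ u ∈ II k b, monomial (ex k u) (t u)

theorem pl_hom (k b : ℕ) (t : (_ : ℕ) × ℕ → ℤ) : (pl k b t).IsHomogeneous k := by
  refine IsHomogeneous.sum _ _ _ fun u hu => isHomogeneous_monomial _ (ex_degree (mem_II.mp hu).2)

theorem pl_coeff {k b : ℕ} (t : (_ : ℕ) × ℕ → ℤ) {u : (_ : ℕ) × ℕ} (hu : u ∈ II k b) :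
    (pl k b t).coeff (ex k u) = t u := by
  classical
  rw [pl, coeff_sum]
  simp only [coeff_monomial]
  rw [Finset.sum_eq_single u]
  · rw [if_pos rfl]
  · intro v _ hv
    rw [if_neg]
    exact fun h => hv (ex_inj h)
  · exact fun h => absurd hu h

theorem pl_support {k b : ℕ} (t : (_ : ℕ) × ℕ → ℤ) {m : Fin 3 →₀ ℕ}
    (hm : (pl k b t).coeff m ≠ 0) : ∃ u ∈ II k b, m = ex k u := by
  classical
  rw [pl, coeff_sum] at hm
  obtain ⟨u, hu, h⟩ := Finset.exists_ne_zero_of_sum_ne_zero hm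
  rw [coeff_monomial] at h
  refine ⟨u, hu, ?_⟩
  by_contra hcon
  rw [if_neg fun h' => hcon h'.symm] at h
  exact h rfl

theorem pl_degreeOf {k b : ℕ} (t : (_ : ℕ) × ℕ → ℤ) : pl k b t = 0 ∨ degreeOf 1 (pl k b t) < b := by
  rcases Nat.eq_zero_or_pos b with hb | hb
  · left
    subst hb
    rw [pl]
    have : II k 0 = ∅ := by
      ext u
      rw [mem_II]
      simp
    rw [this, Finset.sum_empty]
  · right
    rw [degreeOf_lt_iff hb]
    intro m hm
    obtain ⟨u, hu, rfl⟩ := pl_support t (mem_support_iff.mp hm)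
    rw [ex_one]
    exact (mem_II.mp hu).1

/-- **Siegel's lemma for forms modulo a form.** -/
theorem system {P : A} {d N S e : ℕ} (hP0 : P ≠ 0) (hP : P.IsHomogeneous d) (hd : d ≤ N)
    (g : Fin 3 → A) (f b : Fin 3 → ℕ) (hg : ∀ i, (g i).IsHomogeneous (f i)) (hf : ∀ i, f i ≤ N)
    (hS : 1 ≤ S) (hgS : ∀ i m, ((g i).coeff m).natAbs ≤ S) (hPS : ∀ m, (P.coeff m).natAbs ≤ S)
    {T : ℕ} (hT : T = ∑ i, (II (N - f i) (b i)).card + (II (N - d) (N - d + 1)).card)
    (h1 : (II N (N + 1)).card < T) (he : (II N (N + 1)).card ≤ e * (T - (II N (N + 1)).card)) :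
    ∃ (t : Fin 3 → (_ : ℕ) × ℕ → ℤ) (Q : A), ∑ i, pl (N - f i) (b i) (t i) * g i = P * Q ∧
      ¬ (∀ i, pl (N - f i) (b i) (t i) = 0) ∧ ∀ i u, (t i u).natAbs ≤ (T * S) ^ e := by
  classical
  let ι := ((i : Fin 3) × ↥(II (N - f i) (b i))) ⊕ ↥(II (N - d) (N - d + 1))
  have hcard : Fintype.card ι = T := by
    rw [hT]
    simp only [ι, Fintype.card_sum, Fintype.card_sigma, Fintype.card_coe]
  let B : ι → A := Sum.elim (fun u => monomial (ex (N - f u.1) u.2) 1 * g u.1)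
    (fun u => -(monomial (ex (N - d) u) 1 * P))
  have hmon : ∀ (s : Fin 3 →₀ ℕ) (F : A), (∀ m, (F.coeff m).natAbs ≤ S) →
      ∀ m, ((monomial s (1 : ℤ) * F).coeff m).natAbs ≤ S := by
    intro s F hF m
    rw [coeff_monomial_mul']
    split_ifs
    · rw [one_mul]; exact hF _
    · simp
  obtain ⟨t, ht0, hts, htn⟩ := siegel_forms B (N := N) (S := S) (e := e) hS (by
      rintro (⟨i, u⟩ | u)
      · show (monomial (ex (N - f i) u) 1 * g i).IsHomogeneous N
        have h2 := (isHomogeneous_monomial (1 : ℤ) (ex_degree (mem_II.mp u.2).2)).mul (hg i)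
        rwa [Nat.sub_add_cancel (hf i)] at h2
      · show (-(monomial (ex (N - d) u) 1 * P)).IsHomogeneous N
        have h2 := ((isHomogeneous_monomial (1 : ℤ) (ex_degree (mem_II.mp u.2).2)).mul hP).neg
        rwa [Nat.sub_add_cancel hd] at h2) (by
      rintro (⟨i, u⟩ | u) m
      · exact hmon _ _ (hgS i) m
      · show ((-(monomial (ex (N - d) u) 1 * P)).coeff m).natAbs ≤ S
        rw [coeff_neg, Int.natAbs_neg]
        exact hmon _ _ hPS m) (by rw [hcard]; exact h1) (by rw [hcard]; exact he)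
  rw [hcard] at htn
  -- the coefficient functions
  let t1 : Fin 3 → (_ : ℕ) × ℕ → ℤ := fun i u =>
    if h : u ∈ II (N - f i) (b i) then t (Sum.inl ⟨i, u, h⟩) else 0
  let t2 : (_ : ℕ) × ℕ → ℤ := fun u =>
    if h : u ∈ II (N - d) (N - d + 1) then t (Sum.inr ⟨u, h⟩) else 0
  have e1 : ∀ i, pl (N - f i) (b i) (t1 i) * g i =
      ∑ u : ↥(II (N - f i) (b i)), C (t (Sum.inl ⟨i, u⟩)) * B (Sum.inl ⟨i, u⟩) := by
    intro i
    rw [pl, Finset.sum_mul, ← Finset.sum_coe_sort]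
    refine Finset.sum_congr rfl fun u _ => ?_
    show monomial (ex (N - f i) u) (t1 i u) * g i = C (t (Sum.inl ⟨i, u⟩)) *
      (monomial (ex (N - f i) u) 1 * g i)
    rw [← mul_assoc, C_mul_monomial, mul_one]
    simp only [t1]
    rw [dif_pos u.2]
  have e2 : pl (N - d) (N - d + 1) t2 * P =
      -∑ u : ↥(II (N - d) (N - d + 1)), C (t (Sum.inr u)) * B (Sum.inr u) := by
    rw [pl, Finset.sum_mul, ← Finset.sum_coe_sort, ← Finset.sum_neg_distrib]
    refine Finset.sum_congr rfl fun u _ => ?_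
    show monomial (ex (N - d) u) (t2 u) * P = -(C (t (Sum.inr u)) *
      -(monomial (ex (N - d) u) 1 * P))
    rw [mul_neg, neg_neg, ← mul_assoc, C_mul_monomial, mul_one]
    simp only [t2]
    rw [dif_pos u.2]
  have e3 : ∑ i, pl (N - f i) (b i) (t1 i) * g i = P * pl (N - d) (N - d + 1) t2 := by
    rw [mul_comm P, e2]
    rw [Fintype.sum_sum_type, Fintype.sum_sigma] at hts
    rw [Finset.sum_congr rfl fun i _ => e1 i]
    linear_combination hts
  refine ⟨t1, pl (N - d) (N - d + 1) t2, e3, ?_, ?_⟩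
  · intro hall
    rw [Finset.sum_congr rfl fun i _ => by rw [hall i, zero_mul], Finset.sum_const_zero] at e3
    have h2 : pl (N - d) (N - d + 1) t2 = 0 := (mul_eq_zero.mp e3.symm).resolve_left hP0
    apply ht0
    funext v
    rcases v with ⟨i, u⟩ | u
    · have h3 := pl_coeff (t1 i) u.2
      rw [hall i, coeff_zero] at h3
      simp only [t1] at h3
      rw [dif_pos u.2] at h3
      exact h3.symm
    · have h3 := pl_coeff t2 u.2
      rw [h2, coeff_zero] at h3
      simp only [t2] at h3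
      rw [dif_pos u.2] at h3
      exact h3.symm
  · intro i u
    simp only [t1]
    split_ifs with h
    · exact htn _
    · simp

end Pool.Agent.Helper4.AR
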