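import Mathlib
import Pool.Agent.Helper4.AR.Siegel

/-!
# The theorem of Bezout for forms, with heights
-/

set_option autoImplicit false
set_option linter.unusedSectionVars false

namespace Pool.Agent.Helper4.AR

open MvPolynomial

/-- the derivation along the curve `P = 0` -/
noncomputable def dd (P : A) : Derivation ℤ A A :=
  (pderiv 0 P) • (pderiv 1) - (pderiv 1 P) • (pderiv 0)

theorem dd_apply (P F : A) : dd P F = pderiv 0 P * pderiv 1 F - pderiv 1 P * pderiv 0 F := by
  rw [dd]
  simp [smul_eq_mul]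

theorem dd_self (P : A) : dd P P = 0 := by
  rw [dd_apply]; ring

theorem pd_comm (i j : Fin 3) (F : A) :
    pderiv (R := ℤ) i (pderiv j F) = pderiv j (pderiv i F) := by
  have h : ⁅(pderiv i : Derivation ℤ A A), (pderiv j : Derivation ℤ A A)⁆ = 0 := by
    apply MvPolynomial.derivation_ext
    intro k
    rw [Derivation.commutator_apply]
    simp only [pderiv_X, Derivation.coe_zero, Pi.zero_apply]
    have h1 : ∀ a b : Fin 3, pderiv a ((Pi.single b 1 : Fin 3 → A) k) = 0 := by
      intro a b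
      by_cases hk : k = b
      · subst hk; rw [Pi.single_eq_same]; simp
      · rw [Pi.single_eq_of_ne hk, map_zero]
    rw [h1, h1, sub_zero]
  have h2 := DFunLike.congr_fun h F
  rw [Derivation.commutator_apply] at h2
  simpa [sub_eq_zero] using h2

/-- specialization to one variable -/
noncomputable def ph (ξ : Fin 3 → ℤ) : A →+* Polynomial ℤ :=
  eval₂Hom Polynomial.C fun i => if i = 0 then Polynomial.X else Polynomial.C (ξ i)

theorem eval_ph (ξ : Fin 3 → ℤ) (F : A) : (ph ξ F).eval (ξ 0) = eval ξ F := by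
  induction F using MvPolynomial.induction_on with
  | C a => simp [ph]
  | add p q hp hq => rw [map_add, Polynomial.eval_add, map_add, hp, hq]
  | mul_X p k hp =>
    rw [map_mul, Polynomial.eval_mul, map_mul, hp, eval_X]
    congr 1
    simp only [ph, eval₂Hom_X']
    split_ifs with h
    · rw [h, Polynomial.eval_X]
    · rw [Polynomial.eval_C]

theorem ph_pderiv (ξ : Fin 3 → ℤ) (F : A) : ph ξ (pderiv 0 F) = Polynomial.derivative (ph ξ F) := by
  induction F using MvPolynomial.induction_on with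
  | C a => simp [ph]
  | add p q hp hq => rw [map_add, map_add, map_add, Polynomial.derivative_add, hp, hq]
  | mul_X p k hp =>
    rw [Derivation.leibniz, map_add, smul_eq_mul, smul_eq_mul, map_mul, map_mul, map_mul,
      Polynomial.derivative_mul, hp]
    have h1 : ph ξ (pderiv 0 (X k)) = Polynomial.derivative (ph ξ (X k)) := by
      rw [pderiv_X]
      simp only [ph, eval₂Hom_X']
      by_cases h : k = 0
      · subst h; simp
      · rw [if_neg h, Pi.single_eq_of_ne h, map_zero, Polynomial.derivative_C]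
    rw [h1]
    ring

theorem van_pderiv {P R : A} {ξ : Fin 3 → ℤ} (hY : eval ξ (pderiv 1 P) ≠ 0)
    (hR : pderiv 1 R = 0) {k : ℕ} (h : Van (dd P) (eval ξ) (k + 1) R) :
    Van (dd P) (eval ξ) k (pderiv 0 R) := by
  have h1 := h.2
  rw [dd_apply, hR, mul_zero, zero_sub, ← neg_mul] at h1
  refine Van.of_mul ?_ h1
  rw [map_neg]
  exact neg_ne_zero.mpr hY

theorem van_iter {P : A} {ξ : Fin 3 → ℤ} (hY : eval ξ (pderiv 1 P) ≠ 0) (k : ℕ) :
    ∀ {R : A}, pderiv 1 R = 0 → Van (dd P) (eval ξ) k R → ∀ j < k,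
      (Polynomial.derivative^[j] (ph ξ R)).eval (ξ 0) = 0 := by
  induction k with
  | zero => intro R _ _ j hj; omega
  | succ k ih =>
    intro R hR hV j hj
    rcases j with _ | j
    · rw [Function.iterate_zero, id_eq, eval_ph]
      exact hV.1
    · rw [Function.iterate_succ_apply, ← ph_pderiv]
      refine ih ?_ (van_pderiv hY hR hV) j (by omega)
      rw [pd_comm, hR, map_zero]

theorem pl_one_pderiv (n : ℕ) (t : (_ : ℕ) × ℕ → ℤ) : pderiv 1 (pl n 1 t) = 0 := by
  rw [pl, map_sum]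
  refine Finset.sum_eq_zero fun u hu => ?_
  rw [pderiv_monomial, ex_one]
  have h : u.1 = 0 := by have := (mem_II.mp hu).1; omega
  rw [h]
  simp

theorem ph_pl (n : ℕ) (t : (_ : ℕ) × ℕ → ℤ) (ξ : Fin 3 → ℤ) :
    ph ξ (pl n 1 t) = ∑ a ∈ Finset.range (n + 1),
      Polynomial.C (t ⟨0, a⟩ * ξ 2 ^ (n - a)) * Polynomial.X ^ a := by
  rw [pl, map_sum, II, Finset.sum_sigma, Finset.sum_range_one]
  refine Finset.sum_congr (by simp) fun a _ => ?_
  rw [ph, coe_eval₂Hom, eval₂_monomial, ex, Finsupp.prod_add_index', Finsupp.prod_add_index',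
    Finsupp.prod_single_index, Finsupp.prod_single_index, Finsupp.prod_single_index]
  · simp
    ring
  · simp
  · simp
  · simp
  · simp
  · intro i a b; rw [pow_add]
  · simp
  · intro i a b; rw [pow_add]

theorem ph_pl_coeff (n : ℕ) (t : (_ : ℕ) × ℕ → ℤ) (ξ : Fin 3 → ℤ) {a : ℕ} (ha : a ≤ n) :
    (ph ξ (pl n 1 t)).coeff a = t ⟨0, a⟩ * ξ 2 ^ (n - a) := by
  rw [ph_pl, Polynomial.finsetSum_coeff]
  simp only [Polynomial.coeff_C_mul, Polynomial.coeff_X_pow]
  rw [Finset.sum_eq_single a]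
  · simp
  · intro b _ hb
    rw [if_neg hb.symm, mul_zero]
  · intro h
    exact absurd (Finset.mem_range.mpr (by omega)) h

theorem ph_pl_natDegree (n : ℕ) (t : (_ : ℕ) × ℕ → ℤ) (ξ : Fin 3 → ℤ) :
    (ph ξ (pl n 1 t)).natDegree ≤ n := by
  rw [ph_pl]
  refine Polynomial.natDegree_sum_le_of_forall_le _ _ fun a ha => ?_
  refine (Polynomial.natDegree_C_mul_X_pow_le _ _).trans ?_
  rw [Finset.mem_range] at ha
  omega

/-- a binary form of degree `n` does not vanish to order `n + 1` -/
theorem binary_van {P : A} {ξ : Fin 3 → ℤ} (hY : eval ξ (pderiv 1 P) ≠ 0) (hz : ξ 2 ≠ 0) {n : ℕ}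
    {t : (_ : ℕ) × ℕ → ℤ} (h : Van (dd P) (eval ξ) (n + 1) (pl n 1 t)) : pl n 1 t = 0 := by
  have h1 := van_iter hY (n + 1) (pl_one_pderiv n t) h
  have h2 : ph ξ (pl n 1 t) = 0 := by
    by_contra hne
    have h3 : n < (ph ξ (pl n 1 t)).rootMultiplicity (ξ 0) := by
      apply Polynomial.lt_rootMultiplicity_of_isRoot_iterate_derivative_of_mem_nonZeroDivisors hne
      · intro m hm
        exact h1 m (by omega)
      · rw [mem_nonZeroDivisors_iff_ne_zero]
        exact_mod_cast Nat.factorial_ne_zero n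
    have h4 : (ph ξ (pl n 1 t)).rootMultiplicity (ξ 0) ≤ (ph ξ (pl n 1 t)).natDegree := by
      classical
      rw [← Polynomial.count_roots]
      exact (Multiset.count_le_card _ _).trans (Polynomial.card_roots' _)
    have h5 := ph_pl_natDegree n t ξ
    omega
  rw [pl]
  refine Finset.sum_eq_zero fun u hu => ?_
  obtain ⟨h3, h4⟩ := mem_II.mp hu
  have h5 : u = ⟨0, u.2⟩ := by
    cases u
    simp only at h3 ⊢
    congr 1
    omega
  have h6 := ph_pl_coeff n t ξ (a := u.2) (by omega)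
  rw [h2, Polynomial.coeff_zero] at h6
  have h7 : t ⟨0, u.2⟩ = 0 := by
    rcases mul_eq_zero.mp h6.symm with h | h
    · exact h
    · exact absurd h (pow_ne_zero _ hz)
  rw [h5, h7, monomial_zero]

theorem zero_of_dvd {P F : A} {d : ℕ} (hd : d ≤ degreeOf 1 P) (hF : F = 0 ∨ degreeOf 1 F < d)
    (h : P ∣ F) : F = 0 := by
  rcases hF with hF | hF
  · exact hF
  by_contra hne
  obtain ⟨Q, rfl⟩ := h
  have h1 : P ≠ 0 := fun h => hne (by rw [h, zero_mul])
  have h2 : Q ≠ 0 := fun h => hne (by rw [h, mul_zero])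
  rw [degreeOf_mul_eq h1 h2] at hF
  omega

theorem count_all {d N : ℕ} (hd : d ≤ N) :
    (II N (N + 1)).card = (II N d).card + (II (N - d) (N - d + 1)).card := by
  rw [card_II, card_II, card_II]
  have h : N + 1 = d + (N - d + 1) := by omega
  conv_lhs => rw [h]
  rw [Finset.sum_range_add]
  congr 1
  · refine Finset.sum_congr rfl fun c _ => by omega
  · refine Finset.sum_congr rfl fun c _ => by omega

theorem count_shift {d n m : ℕ} (hm : m ≤ n) (hd : d ≤ n - m + 1) :
    (II (n - m) d).card + d * m = (II n d).card := by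
  rw [card_II, card_II]
  have h : d * m = ∑ _c ∈ Finset.range d, m := by simp
  rw [h, ← Finset.sum_add_distrib]
  refine Finset.sum_congr rfl fun c hc => ?_
  rw [Finset.mem_range] at hc
  omega

/-- **The theorem of Bezout**: the ideal of `P` and `w` contains a binary form of degree `d m`. -/
theorem bezout {P w : A} {d m S : ℕ} (hPp : Prime P) (hP : P.IsHomogeneous d) (hd : 0 < d)
    (hPd : d ≤ degreeOf 1 P) (hw : w.IsHomogeneous m) (hm : 1 ≤ m) (hPw : ¬ P ∣ w) (hS : 1 ≤ S)
    (hwS : ∀ s, (w.coeff s).natAbs ≤ S) (hPS : ∀ s, (P.coeff s).natAbs ≤ S) :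
    ∃ (t : (_ : ℕ) × ℕ → ℤ) (α β : A), pl (d * m) 1 t = P * α + w * β ∧ pl (d * m) 1 t ≠ 0 ∧
      ∀ u, (t u).natAbs ≤ (((II (d * m) (d * m + 1)).card + 1) * S) ^ (II (d * m) (d * m + 1)).card := by
  obtain ⟨n, hn⟩ : ∃ n, n = d * m := ⟨_, rfl⟩
  rw [← hn]
  have hdn : d ≤ n := by rw [hn]; exact Nat.le_mul_of_pos_right d hm
  have hmn : m ≤ n := by rw [hn]; exact Nat.le_mul_of_pos_left m hd
  have hdm : d ≤ n - m + 1 := by
    obtain ⟨d', rfl⟩ := Nat.exists_eq_add_of_lt hd
    have h1 : n = d' * m + m := by rw [hn]; ring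
    have h2 : d' ≤ d' * m := Nat.le_mul_of_pos_right d' hm
    omega
  have hT : (II n (n + 1)).card + 1 = ∑ i, (II (n - (![m, 0, 0] : Fin 3 → ℕ) i)
      ((![d, 1, 0] : Fin 3 → ℕ) i)).card + (II (n - d) (n - d + 1)).card := by
    rw [Fin.sum_univ_three]
    simp only [Matrix.cons_val_zero, Matrix.cons_val_one, Matrix.cons_val_two, Matrix.head_cons,
      Matrix.tail_cons, Nat.sub_zero]
    have h1 := count_all hdn
    have h2 := count_shift (d := d) hmn hdm
    have h3 : (II n 1).card = n + 1 := by rw [card_II]; simp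
    have h4 : (II n 0).card = 0 := by rw [card_II]; simp
    rw [h3, h4]
    omega
  obtain ⟨t, Q, h1, h2, h3⟩ := system (P := P) (d := d) (N := n) (S := S)
    (e := (II n (n + 1)).card) hPp.ne_zero hP hdn (![w, 1, 0] : Fin 3 → A) ![m, 0, 0] ![d, 1, 0] (by
      intro i
      fin_cases i
      · exact hw
      · exact isHomogeneous_one _ _
      · exact isHomogeneous_zero _ _ _) (by
      intro i
      fin_cases i
      · exact hmn
      · exact Nat.zero_le _
      · exact Nat.zero_le _) hS (by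
      intro i s
      fin_cases i
      · exact hwS s
      · show ((1 : A).coeff s).natAbs ≤ S
        rw [coeff_one]
        split_ifs
        · simpa using hS
        · simp
      · show ((0 : A).coeff s).natAbs ≤ S
        simp) hPS hT (by omega) (by simp)
  rw [Fin.sum_univ_three] at h1
  have e1 : (∀ i : Fin 3, pl (n - (![m, 0, 0] : Fin 3 → ℕ) i) ((![d, 1, 0] : Fin 3 → ℕ) i) (t i) = 0) ↔
      (pl (n - m) d (t 0) = 0 ∧ pl n 1 (t 1) = 0 ∧ pl n 0 (t 2) = 0) := by
    rw [Fin.forall_fin_succ, Fin.forall_fin_succ, Fin.forall_fin_succ]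
    simp
  rw [e1] at h2
  have h1' : pl (n - m) d (t 0) * w + pl n 1 (t 1) = P * Q := by
    simpa using h1
  have h20 : pl n 0 (t 2) = 0 := by
    rcases pl_degreeOf (k := n) (b := 0) (t 2) with h | h
    · exact h
    · omega
  refine ⟨t 1, Q, -pl (n - m) d (t 0), by linear_combination h1', ?_, fun u => h3 1 u⟩
  intro h4
  rw [h4, add_zero] at h1'
  have h5 : P ∣ pl (n - m) d (t 0) * w := ⟨Q, h1'⟩
  have h6 := (hPp.dvd_or_dvd h5).resolve_right hPw
  exact h2 ⟨zero_of_dvd hPd (pl_degreeOf _) h6, h4, h20⟩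

/-- the order of vanishing of a form of degree `m` on the curve is at most `d m` -/
theorem van_bound {P w : A} {d m : ℕ} (hPp : Prime P) (hP : P.IsHomogeneous d) (hd : 0 < d)
    (hPd : d ≤ degreeOf 1 P) (hw : w.IsHomogeneous m) {ξ : Fin 3 → ℤ} (hξ : eval ξ P = 0)
    (hY : eval ξ (pderiv 1 P) ≠ 0) (hz : ξ 2 ≠ 0) (hV : Van (dd P) (eval ξ) (d * m + 1) w) :
    P ∣ w := by
  by_contra hPw
  rcases Nat.eq_zero_or_pos m with hm | hm
  · subst hm
    have h1 : w = C (w.coeff 0) := by
      rw [← totalDegree_eq_zero_iff_eq_C]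
      have := hw.totalDegree_le
      omega
    have h2 := hV.1
    rw [h1, eval_C] at h2
    rw [h1, h2, C_0] at hPw
    exact hPw (dvd_zero _)
  obtain ⟨S, hS⟩ : ∃ S : ℕ, S = 1 + (∑ s ∈ w.support, (w.coeff s).natAbs) +
      ∑ s ∈ P.support, (P.coeff s).natAbs := ⟨_, rfl⟩
  have hb : ∀ (F : A) (s : Fin 3 →₀ ℕ), (F.coeff s).natAbs ≤ ∑ s ∈ F.support, (F.coeff s).natAbs := by
    intro F s
    by_cases h : s ∈ F.support
    · exact Finset.single_le_sum (f := fun s => (F.coeff s).natAbs) (fun _ _ => Nat.zero_le _) h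
    · rw [notMem_support_iff.mp h]; simp
  obtain ⟨t, α, β, h1, h2, -⟩ := bezout hPp hP hd hPd hw hm hPw (S := S) (by omega)
    (fun s => by have := hb w s; omega) (fun s => by have := hb P s; omega)
  apply h2
  refine binary_van hY hz ?_
  rw [h1]
  refine (Van.const (dd_self P) hξ _ α).add (hV.mul_right β)

end Pool.Agent.Helper4.AR
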