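import Mathlib
import Pool.Agent.Helper4.AR.Bez

/-!
# Common zeros of two forms have small height
-/

set_option autoImplicit false
set_option linter.unusedSectionVars false

namespace Pool.Agent.Helper4.AR

open MvPolynomial

theorem binary_small (n : ℕ) : ∀ {c : ℕ → ℤ} {x z : ℤ}, IsCoprime x z →
    (∀ a, (c a).natAbs < x.natAbs) → ∑ a ∈ Finset.range (n + 1), c a * z ^ (n - a) * x ^ a = 0 →
    ∀ a ≤ n, c a = 0 := by
  induction n with
  | zero =>
    intro c x z _ _ h a ha
    have : a = 0 := by omega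
    subst this
    simpa using h
  | succ n ih =>
    intro c x z hcop hc h
    rw [Finset.sum_range_succ'] at h
    have hx0 : x ≠ 0 := by
      intro hx
      have := hc 0
      rw [hx] at this
      simp at this
    have h1 : ∑ a ∈ Finset.range (n + 1), c (a + 1) * z ^ (n + 1 - (a + 1)) * x ^ (a + 1) =
        x * ∑ a ∈ Finset.range (n + 1), c (a + 1) * z ^ (n - a) * x ^ a := by
      rw [Finset.mul_sum]
      refine Finset.sum_congr rfl fun a _ => ?_
      rw [Nat.add_sub_add_right]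
      ring
    rw [h1, pow_zero, mul_one, Nat.sub_zero] at h
    have h2 : x ∣ c 0 := by
      have h3 : x ∣ c 0 * z ^ (n + 1) :=
        ⟨-∑ a ∈ Finset.range (n + 1), c (a + 1) * z ^ (n - a) * x ^ a, by linear_combination h⟩
      exact (hcop.pow_right (n := n + 1)).dvd_of_dvd_mul_right h3
    have h4 : c 0 = 0 := by
      by_contra hne
      have := Int.natAbs_le_of_dvd_ne_zero h2 hne
      have := hc 0
      omega
    rw [h4, zero_mul, add_zero] at h
    have h5 := (mul_eq_zero.mp h).resolve_left hx0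
    have h6 := ih hcop (c := fun a => c (a + 1)) (fun a => hc (a + 1)) h5
    intro a ha
    rcases a with _ | a
    · exact h4
    · exact h6 a (by omega)

theorem eval_pl (n : ℕ) (t : (_ : ℕ) × ℕ → ℤ) (ξ : Fin 3 → ℤ) : eval ξ (pl n 1 t) =
    ∑ a ∈ Finset.range (n + 1), t ⟨0, a⟩ * ξ 2 ^ (n - a) * ξ 0 ^ a := by
  rw [← eval_ph, ph_pl, Polynomial.eval_finsetSum]
  refine Finset.sum_congr rfl fun a _ => ?_
  rw [Polynomial.eval_mul, Polynomial.eval_C, Polynomial.eval_pow, Polynomial.eval_X]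

theorem pl_one_zero {n : ℕ} {t : (_ : ℕ) × ℕ → ℤ} (h : ∀ a ≤ n, t ⟨0, a⟩ = 0) : pl n 1 t = 0 := by
  rw [pl]
  refine Finset.sum_eq_zero fun u hu => ?_
  obtain ⟨h3, h4⟩ := mem_II.mp hu
  have h5 : u = ⟨0, u.2⟩ := by
    cases u
    simp only at h3 ⊢
    congr 1
    omega
  rw [h5, h u.2 (by omega), monomial_zero]

/-- **Common zeros have small height** -/
theorem small_pt {P w : A} {d m S : ℕ} (hPp : Prime P) (hP : P.IsHomogeneous d) (hd : 0 < d)
    (hPd : d ≤ degreeOf 1 P) (hw : w.IsHomogeneous m) (hm : 1 ≤ m) (hPw : ¬ P ∣ w) (hS : 1 ≤ S)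
    (hwS : ∀ s, (w.coeff s).natAbs ≤ S) (hPS : ∀ s, (P.coeff s).natAbs ≤ S) {ξ : Fin 3 → ℤ}
    (h1 : eval ξ P = 0) (h2 : eval ξ w = 0) (hcop : IsCoprime (ξ 0) (ξ 2)) :
    (ξ 0).natAbs ≤ (((II (d * m) (d * m + 1)).card + 1) * S) ^ (II (d * m) (d * m + 1)).card ∧
    (ξ 2).natAbs ≤ (((II (d * m) (d * m + 1)).card + 1) * S) ^ (II (d * m) (d * m + 1)).card := by
  obtain ⟨t, α, β, h3, h4, h5⟩ := bezout hPp hP hd hPd hw hm hPw hS hwS hPS
  have h6 : eval ξ (pl (d * m) 1 t) = 0 := by
    rw [h3, map_add, map_mul, map_mul, h1, h2, zero_mul, zero_mul, add_zero]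
  rw [eval_pl] at h6
  constructor
  · by_contra hcon
    push Not at hcon
    exact h4 (pl_one_zero (binary_small (d * m) (c := fun a => t ⟨0, a⟩) hcop
      (fun a => lt_of_le_of_lt (h5 _) hcon) h6))
  · by_contra hcon
    push Not at hcon
    have h7 := binary_small (d * m) (c := fun a => t ⟨0, d * m - a⟩) hcop.symm
      (fun a => lt_of_le_of_lt (h5 _) hcon) (by
        rw [← h6, ← Finset.sum_range_reflect]
        refine Finset.sum_congr rfl fun a ha => ?_
        rw [Finset.mem_range] at ha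
        have e1 : d * m + 1 - 1 - a = d * m - a := by omega
        have e2 : d * m - (d * m - a) = a := by omega
        rw [e1, e2]
        ring)
    refine h4 (pl_one_zero fun a ha => ?_)
    have h8 := h7 (d * m - a) (by omega)
    rwa [Nat.sub_sub_self ha] at h8

end Pool.Agent.Helper4.AR
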