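import Mathlib
import Pool.Agent.Helper4.AR.Small

/-!
# The zero estimate
-/

set_option autoImplicit false
set_option linter.unusedSectionVars false

namespace Pool.Agent.Helper4.AR

open MvPolynomial

section order

variable {k R S : Type*} [CommRing k] [CommRing R] [Algebra k R] [CommRing S] [IsDomain S]
  [CharZero S] {D : Derivation k R R} {ev : R →+* S}

theorem exists_order {J : ℕ} {a : R} (h : ¬ Van D ev J a) :
    ∃ e < J, Van D ev e a ∧ ev (D^[e] a) ≠ 0 := by
  classical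
  rw [van_iff] at h
  push Not at h
  have hex : ∃ n, ev (D^[n] a) ≠ 0 := by
    obtain ⟨n, -, hn⟩ := h
    exact ⟨n, hn⟩
  obtain ⟨n, hn, hn'⟩ := h
  refine ⟨Nat.find hex, lt_of_le_of_lt (Nat.find_min' hex hn') hn, ?_, Nat.find_spec hex⟩
  rw [van_iff]
  intro m hm
  have := Nat.find_min hex hm
  push Not at this
  exact this

theorem wron_ne {e g : ℕ} {u t : R} (hu : Van D ev e u) (hu' : ev (D^[e] u) ≠ 0)
    (ht : Van D ev g t) (ht' : ev (D^[g] t) ≠ 0) (heg : e < g) :
    ¬ Van D ev (e + g) (u * D t - t * D u) := by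
  intro hV
  obtain ⟨g', rfl⟩ : ∃ g', g = g' + 1 := ⟨g - 1, by omega⟩
  have h0 := (van_iff.mp hV) (e + g') (by omega)
  have hsub : ∀ (m : ℕ) (a b : R), D^[m] (a - b) = D^[m] a - D^[m] b := by
    intro m
    induction m with
    | zero => intro u v; rfl
    | succ m ihm => intro u v; rw [Function.iterate_succ_apply, map_sub, ihm]; rfl
  rw [hsub, map_sub] at h0
  have h1 : ev (D^[e + g'] (u * D t)) = ((e + g').choose e : ℕ) *
      (ev (D^[e] u) * ev (D^[g' + 1] t)) := by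
    rw [lowest_mul (e + g') e g' rfl u (D t) hu ht.2, Function.iterate_succ_apply]
  have h2 : ev (D^[e + g'] (t * D u)) = ((e + g').choose (g' + 1) : ℕ) *
      (ev (D^[e] u) * ev (D^[g' + 1] t)) := by
    rcases e with _ | e
    · have h3 : Van D ev (g' + 1) (t * D u) := ht.mul_right _
      rw [(van_iff.mp h3) (0 + g') (by omega)]
      have : (0 + g').choose (g' + 1) = 0 := Nat.choose_eq_zero_of_lt (by omega)
      rw [this]
      simp
    · rw [lowest_mul (e + 1 + g') (g' + 1) e (by omega) t (D u) ht hu.2,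
        Function.iterate_succ_apply (n := e)]
      ring
  rw [h1, h2, ← sub_mul] at h0
  have h3 := (mul_eq_zero.mp h0).resolve_right (mul_ne_zero hu' ht')
  rw [sub_eq_zero] at h3
  have h4 : (e + g').choose e = (e + g').choose (g' + 1) := by exact_mod_cast h3
  have h5 : (e + g').choose e = (e + g').choose g' := Nat.choose_symm_add
  have h6 := Nat.choose_succ_right_eq (e + g') g'
  rw [← h4, h5] at h6
  have h7 : 0 < (e + g').choose g' := Nat.choose_pos (by omega)
  have h8 := Nat.eq_of_mul_eq_mul_left h7 h6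
  omega

end order

theorem NV.degreeOf {P : A} {d : ℕ} (h : NV P) (hP : P.IsHomogeneous d) (hd : 0 < d) :
    d ≤ degreeOf 1 P := by
  by_contra hcon
  push Not at hcon
  apply h 1
  rw [eval_eq]
  refine Finset.sum_eq_zero fun m hm => ?_
  have h1 : m 1 < d := by
    rw [degreeOf_lt_iff hd] at hcon
    exact hcon m hm
  have h2 : m.degree = d := by
    by_contra h3
    exact (mem_support_iff.mp hm) (hP.coeff_eq_zero h3)
  rw [degree_fin3] at h2
  apply mul_eq_zero_of_right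
  rw [Finset.prod_eq_zero_iff]
  rcases Nat.eq_zero_or_pos (m 0) with h0 | h0
  · have h3 : m 2 ≠ 0 := by omega
    exact ⟨2, Finsupp.mem_support_iff.mpr h3, by simp [h3]⟩
  · exact ⟨0, Finsupp.mem_support_iff.mpr (by omega), by simp [h0.ne']⟩

/-- the data of an approximation -/
structure Dat (P : A) (d : ℕ) (ξ : Fin 3 → ℤ) : Prop where
  prime : Prime P
  hom : P.IsHomogeneous d
  pos : 0 < d
  nv : NV P
  root : eval ξ P = 0
  smooth : eval ξ (pderiv 1 P) ≠ 0
  ne : ∀ i, ξ i ≠ 0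

variable {P : A} {d : ℕ} {ξ : Fin 3 → ℤ}

theorem Dat.deg (h : Dat P d ξ) : d ≤ degreeOf 1 P := h.nv.degreeOf h.hom h.pos

theorem Dat.not_dvd_C (h : Dat P d ξ) {c : ℤ} (hc : c ≠ 0) : ¬ P ∣ C c := by
  intro hdvd
  have h1 := zero_of_dvd h.deg (Or.inr (by rw [degreeOf_C]; exact h.pos)) hdvd
  rw [← C_0] at h1
  exact hc (C_injective _ _ h1)

theorem Dat.order (h : Dat P d ξ) {w : A} {m : ℕ} (hw : w.IsHomogeneous m) (hPw : ¬ P ∣ w) :
    ∃ e, Van (dd P) (eval ξ) e w ∧ eval ξ ((dd P)^[e] w) ≠ 0 := by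
  have h1 : ¬ Van (dd P) (eval ξ) (d * m + 1) w := fun hV =>
    hPw (van_bound h.prime h.hom h.pos h.deg hw h.root h.smooth (h.ne 2) hV)
  obtain ⟨e, -, he⟩ := exists_order h1
  exact ⟨e, he⟩

theorem Dat.const_aux (h : Dat P d ξ) {u v : A} {m : ℕ} (hu : u.IsHomogeneous m)
    (hv : v.IsHomogeneous m) (hW : P ∣ u * dd P v - v * dd P u) {e : ℕ}
    (he : Van (dd P) (eval ξ) e u) (he' : eval ξ ((dd P)^[e] u) ≠ 0)
    (hv' : Van (dd P) (eval ξ) e v) :
    P ∣ C (eval ξ ((dd P)^[e] u)) * v - C (eval ξ ((dd P)^[e] v)) * u := by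
  obtain ⟨α, hα⟩ : ∃ α, α = eval ξ ((dd P)^[e] u) := ⟨_, rfl⟩
  obtain ⟨β, hβ⟩ : ∃ β, β = eval ξ ((dd P)^[e] v) := ⟨_, rfl⟩
  rw [← hα, ← hβ]
  by_contra hPt
  obtain ⟨g, hg, hg'⟩ := h.order ((hv.C_mul α).sub (hu.C_mul β)) hPt
  have hit : ∀ (n : ℕ), (dd P)^[n] (C α * v - C β * u) =
      C α * (dd P)^[n] v - C β * (dd P)^[n] u := by
    intro n
    induction n with
    | zero => rfl
    | succ n ih =>
      rw [Function.iterate_succ_apply', ih, Function.iterate_succ_apply',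
        Function.iterate_succ_apply', map_sub, Derivation.leibniz, Derivation.leibniz]
      have hC : ∀ c : ℤ, dd P (C c) = 0 := by
        intro c; rw [dd_apply, pderiv_C, pderiv_C]; ring
      rw [hC, hC]
      simp
  have heg : e < g := by
    by_contra hle
    push Not at hle
    rcases Nat.lt_or_ge g e with h1 | h1
    · apply hg'
      rw [hit, map_sub, map_mul, map_mul, (van_iff.mp he) g h1, (van_iff.mp hv') g h1]
      ring
    · have : g = e := by omega
      subst this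
      apply hg'
      rw [hit, map_sub, map_mul, map_mul, ← hα, ← hβ, eval_C, eval_C]
      ring
  refine wron_ne he he' hg hg' heg ?_
  have hC : ∀ c : ℤ, dd P (C c) = 0 := by
    intro c; rw [dd_apply, pderiv_C, pderiv_C]; ring
  have h2 : u * dd P (C α * v - C β * u) - (C α * v - C β * u) * dd P u =
      C α * (u * dd P v - v * dd P u) := by
    rw [map_sub, Derivation.leibniz, Derivation.leibniz, hC, hC]
    simp only [smul_eq_mul]
    ring
  rw [h2]
  obtain ⟨c, hc⟩ := hW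
  rw [hc]
  exact (Van.const (dd_self P) h.root _ c).mul (C α)

/-- if the Wronskian of two forms vanishes on the curve, then the forms are proportional -/
theorem Dat.const (h : Dat P d ξ) {u v : A} {m : ℕ} (hu : u.IsHomogeneous m)
    (hv : v.IsHomogeneous m) (hW : P ∣ u * dd P v - v * dd P u) (hPu : ¬ P ∣ u) (hPv : ¬ P ∣ v) :
    ∃ α β : ℤ, ¬ (α = 0 ∧ β = 0) ∧ P ∣ C α * v - C β * u := by
  obtain ⟨e, he, he'⟩ := h.order hu hPu
  obtain ⟨f, hf, hf'⟩ := h.order hv hPv
  rcases Nat.le_total e f with hef | hef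
  · exact ⟨_, _, fun h' => he' h'.1, h.const_aux hu hv hW he he' (hf.mono hef)⟩
  · have hW' : P ∣ v * dd P u - u * dd P v := by
      have := (dvd_neg (a := P)).mpr hW
      rwa [neg_sub] at this
    have h1 := h.const_aux hv hu hW' hf hf' (he.mono hef)
    refine ⟨eval ξ ((dd P)^[f] u), eval ξ ((dd P)^[f] v), fun h' => hf' h'.2, ?_⟩
    have := (dvd_neg (a := P)).mpr h1
    rwa [neg_sub] at this

theorem hom_X_dd (hP : P.IsHomogeneous d) {F : A} {k : ℕ} (hF : F.IsHomogeneous k)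
    (i : Fin 3) : (X i * dd P F).IsHomogeneous (k + (d - 1)) := by
  rw [dd_apply]
  rcases Nat.eq_zero_or_pos k with hk | hk
  · subst hk
    have h1 : F = C (F.coeff 0) := by
      rw [← totalDegree_eq_zero_iff_eq_C]
      have := hF.totalDegree_le
      omega
    rw [h1, pderiv_C, pderiv_C, mul_zero, mul_zero, sub_zero, mul_zero]
    exact isHomogeneous_zero _ _ _
  · have h1 : ∀ a b : Fin 3, (X i * (pderiv a P * pderiv b F)).IsHomogeneous (k + (d - 1)) := by
      intro a b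
      have h2 := (isHomogeneous_X ℤ i).mul ((hP.pderiv (i := a)).mul (hF.pderiv (i := b)))
      have e1 : 1 + (d - 1 + (k - 1)) = k + (d - 1) := by omega
      rwa [e1] at h2
    rw [mul_sub]
    exact (h1 0 1).sub (h1 1 0)

theorem hom_dd_X (hP : P.IsHomogeneous d) (i : Fin 3) : (dd P (X i)).IsHomogeneous (d - 1) := by
  rw [dd_apply]
  fin_cases i
  · simp only [Fin.zero_eta, pderiv_X_self, mul_one]
    rw [pderiv_X_of_ne (by decide), mul_zero, zero_sub]
    exact (hP.pderiv).neg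
  · simp only [Fin.mk_one, pderiv_X_self, mul_one]
    rw [pderiv_X_of_ne (by decide), mul_zero, sub_zero]
    exact hP.pderiv
  · simp only [Fin.reduceFinMk]
    rw [pderiv_X_of_ne (by decide), pderiv_X_of_ne (by decide), mul_zero, mul_zero, sub_zero]
    exact isHomogeneous_zero _ _ _

theorem dd_X_two : dd P (X 2) = 0 := by
  rw [dd_apply, pderiv_X_of_ne (by decide), pderiv_X_of_ne (by decide)]
  ring

theorem dd_pow (F V : A) (p : ℕ) : dd P (F * V ^ (p + 1)) =
    V ^ p * (V * dd P F + C ((p : ℤ) + 1) * (dd P V * F)) := by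
  rw [Derivation.leibniz, Derivation.leibniz_pow]
  simp only [smul_eq_mul, nsmul_eq_mul, Nat.add_sub_cancel]
  have : (C ((p : ℤ) + 1) : A) = ((p + 1 : ℕ) : A) := by
    rw [map_add, map_one, Nat.cast_add, Nat.cast_one, ← map_natCast (C : ℤ →+* A) p]
  rw [this]
  push_cast
  ring

/-- the hypotheses on an approximation -/
structure App (P : A) (d N p q r : ℕ) (F G H Q : A) : Prop where
  hF : F.IsHomogeneous (N - p)
  hG : G.IsHomogeneous (N - q)
  hH : H.IsHomogeneous (N - r)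
  dF : F = 0 ∨ degreeOf 1 F < d
  dG : G = 0 ∨ degreeOf 1 G < d
  dH : H = 0 ∨ degreeOf 1 H < d
  ne : ¬ (F = 0 ∧ G = 0 ∧ H = 0)
  pN : p ≤ N
  qN : q ≤ N
  rN : r ≤ N
  pq : N < p + q
  pr : N < p + r
  qr : N < q + r
  eqn : F * X 0 ^ p + G * X 1 ^ q + H * X 2 ^ r = P * Q

variable {N p q r : ℕ} {F G H Q : A}

theorem App.u (h : App P d N p q r F G H Q) : (F * X 0 ^ p).IsHomogeneous N := by
  have h1 := h.hF.mul ((isHomogeneous_X ℤ 0).pow p)
  have := h.pN
  have e : N - p + 1 * p = N := by omega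
  rwa [e] at h1

theorem App.v (h : App P d N p q r F G H Q) : (G * X 1 ^ q).IsHomogeneous N := by
  have h1 := h.hG.mul ((isHomogeneous_X ℤ 1).pow q)
  have := h.qN
  have e : N - q + 1 * q = N := by omega
  rwa [e] at h1

theorem prime_X_not_dvd (h : Dat P d ξ) (i : Fin 3) : ¬ P ∣ X i := by
  intro hdvd
  obtain ⟨Q, hQ⟩ := hdvd
  have h1 := congrArg (eval ξ) hQ
  rw [eval_X, map_mul, h.root, zero_mul] at h1
  exact h.ne i h1

theorem prime_X_pow_not_dvd (h : Dat P d ξ) (i : Fin 3) (n : ℕ) : ¬ P ∣ X i ^ n := fun hd =>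
  prime_X_not_dvd h i (h.prime.dvd_of_dvd_pow hd)

/-- the Wronskian does not vanish on the curve -/
theorem App.wronskian (h : App P d N p q r F G H Q) (hD : Dat P d ξ) :
    ¬ P ∣ (F * X 0 ^ p) * dd P (G * X 1 ^ q) - (G * X 1 ^ q) * dd P (F * X 0 ^ p) := by
  intro hW
  have hp := h.pN
  have hq := h.qN
  have hr := h.rN
  have hpq := h.pq
  have hpr := h.pr
  have hqr := h.qr
  have key : ∀ {i j : Fin 3} {a b k : ℕ} {E E' : A}, i ≠ j → E.IsHomogeneous k → k < b →
      (∃ c, X j ^ a * E = P * c + X i ^ b * E') → P ∣ E := by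
    rintro i j a b k E E' hij hE hkb ⟨c, hc⟩
    obtain ⟨b', c', h1⟩ := cop_pow_pow hD.nv hij b a hc
    exact hom_rep_lt hD.hom ((isHomogeneous_X ℤ i).pow b) hE (by omega) h1
  have hzero : ∀ {i : Fin 3} {a : ℕ} {E : A}, (E = 0 ∨ degreeOf 1 E < d) → P ∣ X i ^ a * E →
      E = 0 := by
    intro i a E hE hdvd
    exact zero_of_dvd hD.deg hE
      ((hD.prime.dvd_or_dvd hdvd).resolve_left (prime_X_pow_not_dvd hD i a))
  have heq := h.eqn
  have hPu : ¬ P ∣ F * X 0 ^ p := by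
    intro hd
    have h1 : F = 0 := hzero (i := 0) (a := p) h.dF (by rwa [mul_comm])
    rw [h1] at heq
    have h2 : G = 0 := by
      refine zero_of_dvd hD.deg h.dG (key (i := 2) (j := 1) (a := q) (b := r) (E' := -H) (by decide)
        h.hG (by omega) ⟨Q, ?_⟩)
      linear_combination heq
    rw [h2] at heq
    have h3 : H = 0 := hzero (i := 2) (a := r) h.dH ⟨Q, by linear_combination heq⟩
    exact h.ne ⟨h1, h2, h3⟩
  have hPv : ¬ P ∣ G * X 1 ^ q := by
    intro hd
    have h1 : G = 0 := hzero (i := 1) (a := q) h.dG (by rwa [mul_comm])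
    rw [h1] at heq
    have h2 : F = 0 := by
      refine zero_of_dvd hD.deg h.dF (key (i := 2) (j := 0) (a := p) (b := r) (E' := -H) (by decide)
        h.hF (by omega) ⟨Q, ?_⟩)
      linear_combination heq
    rw [h2] at heq
    have h3 : H = 0 := hzero (i := 2) (a := r) h.dH ⟨Q, by linear_combination heq⟩
    exact h.ne ⟨h2, h1, h3⟩
  obtain ⟨α, β, hαβ, c, hc⟩ := hD.const h.u h.v hW hPu hPv
  rcases not_and_or.mp hαβ with hα | hβ
  · -- `X 1 ^ q * (α G) = P c + X 0 ^ p * (β F)`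
    have h1 : P ∣ C α * G := key (i := 0) (j := 1) (a := q) (b := p) (E' := C β * F) (by decide)
      (h.hG.C_mul α) (by omega) ⟨c, by linear_combination hc⟩
    exact hPv (((hD.prime.dvd_or_dvd h1).resolve_left (hD.not_dvd_C hα)).mul_right _)
  · have h1 : P ∣ C β * F := key (i := 1) (j := 0) (a := p) (b := q) (E' := C α * G) (by decide)
      (h.hF.C_mul β) (by omega) ⟨-c, by linear_combination -hc⟩
    exact hPu (((hD.prime.dvd_or_dvd h1).resolve_left (hD.not_dvd_C hβ)).mul_right _)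

/-- **The zero estimate** -/
theorem App.zero_estimate (h : App P d N p q r F G H Q) (hD : Dat P d ξ) (hp : 1 ≤ p) (hq : 1 ≤ q)
    (hN : p + q + r ≤ 2 * N) :
    ¬ Van (dd P) (eval ξ) (d * (2 * N + d - (p + q + r)) + 1)
      ((F * X 0 ^ p) * dd P (G * X 1 ^ q) - (G * X 1 ^ q) * dd P (F * X 0 ^ p)) := by
  intro hV
  have hWn := h.wronskian hD
  have hpN := h.pN
  have hqN := h.qN
  have hrN := h.rN
  obtain ⟨p', rfl⟩ : ∃ p', p = p' + 1 := ⟨p - 1, by omega⟩
  obtain ⟨q', rfl⟩ : ∃ q', q = q' + 1 := ⟨q - 1, by omega⟩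
  obtain ⟨w1, hw1⟩ : ∃ w1, w1 = (F * X 0) * (X 1 * dd P G + C ((q' : ℤ) + 1) * (dd P (X 1) * G)) -
    (G * X 1) * (X 0 * dd P F + C ((p' : ℤ) + 1) * (dd P (X 0) * F)) := ⟨_, rfl⟩
  have hW : (F * X 0 ^ (p' + 1)) * dd P (G * X 1 ^ (q' + 1)) -
      (G * X 1 ^ (q' + 1)) * dd P (F * X 0 ^ (p' + 1)) = (X 0 ^ p' * X 1 ^ q') * w1 := by
    rw [dd_pow, dd_pow, hw1]
    ring
  have hd := hD.pos
  have hw1h : w1.IsHomogeneous (2 * N + d - (p' + 1 + (q' + 1) + r) + r) := by
    rw [hw1]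
    have a1 : ∀ (i j : Fin 3) (E E' : A) (k k' : ℕ) (c : ℤ), E.IsHomogeneous k →
        E'.IsHomogeneous k' → ((E * X i) * (X j * dd P E' + C c * (dd P (X j) * E'))).IsHomogeneous
          (k + k' + d) := by
      intro i j E E' k k' c hE hE'
      have b1 := hE.mul (isHomogeneous_X ℤ i)
      have b2 := hom_X_dd hD.hom hE' j
      have b3 := ((hom_dd_X hD.hom j).mul hE').C_mul c
      have e1 : d - 1 + k' = k' + (d - 1) := by omega
      rw [e1] at b3
      have b4 := b1.mul (b2.add b3)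
      have e2 : k + 1 + (k' + (d - 1)) = k + k' + d := by omega
      rwa [e2] at b4
    have c1 := a1 0 1 F G _ _ ((q' : ℤ) + 1) h.hF h.hG
    have c2 := a1 1 0 G F _ _ ((p' : ℤ) + 1) h.hG h.hF
    have e1 : N - (p' + 1) + (N - (q' + 1)) + d = 2 * N + d - (p' + 1 + (q' + 1) + r) + r := by omega
    have e2 : N - (q' + 1) + (N - (p' + 1)) + d = 2 * N + d - (p' + 1 + (q' + 1) + r) + r := by omega
    rw [e1] at c1
    rw [e2] at c2
    exact c1.sub c2
  -- divisibility by the power of `X 2`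
  have heq := h.eqn
  have hzz : dd P (X 2 ^ r : A) = 0 := by
    rw [Derivation.leibniz_pow, dd_X_two]; simp
  have hDeq := congrArg (dd P) heq
  rw [map_add, map_add, Derivation.leibniz (dd P) P Q, dd_self] at hDeq
  have hDH : dd P (H * X 2 ^ r) = X 2 ^ r * dd P H := by
    rw [Derivation.leibniz, hzz]; simp
  rw [hDH] at hDeq
  simp only [smul_eq_mul, mul_zero, add_zero] at hDeq
  obtain ⟨w2, hw2⟩ : ∃ w2, w2 = (F * X 0) * dd P H -
    H * (X 0 * dd P F + C ((p' : ℤ) + 1) * (dd P (X 0) * F)) := ⟨_, rfl⟩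
  have h1 : X 0 ^ p' * (X 1 ^ q' * w1 + X 2 ^ r * w2) =
      P * ((F * X 0 ^ (p' + 1)) * dd P Q - Q * dd P (F * X 0 ^ (p' + 1))) := by
    have e1 : X 0 ^ p' * (X 1 ^ q' * w1) = (F * X 0 ^ (p' + 1)) * dd P (G * X 1 ^ (q' + 1)) -
      (G * X 1 ^ (q' + 1)) * dd P (F * X 0 ^ (p' + 1)) := by rw [hW]; ring
    have e2 : X 0 ^ p' * (X 2 ^ r * w2) = (F * X 0 ^ (p' + 1)) * (X 2 ^ r * dd P H) -
      (H * X 2 ^ r) * dd P (F * X 0 ^ (p' + 1)) := by
      rw [dd_pow, hw2]; ring
    rw [mul_add, e1, e2]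
    linear_combination (F * X 0 ^ (p' + 1)) * hDeq - dd P (F * X 0 ^ (p' + 1)) * heq
  have h2 : P ∣ X 1 ^ q' * w1 + X 2 ^ r * w2 := by
    have h3 : P ∣ X 0 ^ p' * (X 1 ^ q' * w1 + X 2 ^ r * w2) := ⟨_, h1⟩
    exact (hD.prime.dvd_or_dvd h3).resolve_left (prime_X_pow_not_dvd hD 0 p')
  obtain ⟨c, hc⟩ := h2
  obtain ⟨b', c', h3⟩ := cop_pow_pow hD.nv (i := 2) (j := 1) (by decide) r q'
    (a := w1) (b := c) (c := -w2) (by linear_combination hc)
  obtain ⟨b2, w, h4, h5⟩ := hom_rep hD.hom ((isHomogeneous_X ℤ (2 : Fin 3)).pow r)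
    (by rw [one_mul]; exact hw1h) h3
  -- the order of vanishing
  rw [hW] at hV
  have hne : ∀ (i : Fin 3) (n : ℕ), eval ξ (X i ^ n : A) ≠ 0 := by
    intro i n
    rw [map_pow, eval_X]
    exact pow_ne_zero _ (hD.ne i)
  have hV1 : Van (dd P) (eval ξ) _ w1 := Van.of_mul (by
    rw [map_mul]
    exact mul_ne_zero (hne 0 p') (hne 1 q')) hV
  have hV2 : Van (dd P) (eval ξ) (d * (2 * N + d - (p' + 1 + (q' + 1) + r)) + 1) (X 2 ^ r * w) := by
    have := hV1.sub (Van.const (dd_self P) hD.root _ b2)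
    rwa [h4, add_sub_cancel_left] at this
  have hV3 := Van.of_mul (hne 2 r) hV2
  have h6 := van_bound hD.prime hD.hom hD.pos hD.deg h5 hD.root hD.smooth (hD.ne 2) hV3
  apply hWn
  rw [hW]
  refine Dvd.dvd.mul_left ?_ _
  rw [h4]
  exact dvd_add (dvd_mul_right _ _) (h6.mul_left _)

/-- some low derivative is not proportional to the given vector -/
theorem App.exists_j (h : App P d N p q r F G H Q) (hD : Dat P d ξ) (hp : 1 ≤ p) (hq : 1 ≤ q)
    (hN : p + q + r ≤ 2 * N) {a b : ℤ} (hb : b ≠ 0) :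
    ∃ j ≤ d * (2 * N + d - (p + q + r)) + 1, b * eval ξ ((dd P)^[j] (F * X 0 ^ p)) ≠
      a * eval ξ ((dd P)^[j] (G * X 1 ^ q)) := by
  by_contra hcon
  push Not at hcon
  obtain ⟨u, hu⟩ : ∃ u, u = F * X 0 ^ p := ⟨_, rfl⟩
  obtain ⟨v, hv⟩ : ∃ v, v = G * X 1 ^ q := ⟨_, rfl⟩
  rw [← hu, ← hv] at hcon
  apply h.zero_estimate hD hp hq hN
  rw [← hu, ← hv]
  have hC : ∀ c : ℤ, dd P (C c) = 0 := by
    intro c; rw [dd_apply, pderiv_C, pderiv_C]; ring
  have hit : ∀ (n : ℕ), (dd P)^[n] (C b * u - C a * v) =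
      C b * (dd P)^[n] u - C a * (dd P)^[n] v := by
    intro n
    induction n with
    | zero => rfl
    | succ n ih =>
      rw [Function.iterate_succ_apply', ih, Function.iterate_succ_apply',
        Function.iterate_succ_apply', map_sub, Derivation.leibniz, Derivation.leibniz]
      rw [hC, hC]
      simp
  have hV : Van (dd P) (eval ξ) (d * (2 * N + d - (p + q + r)) + 1 + 1) (C b * u - C a * v) := by
    rw [van_iff]
    intro n hn
    rw [hit, map_sub, map_mul, map_mul, eval_C, eval_C, hcon n (by omega), sub_self]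
  have h1 : C b * (u * dd P v - v * dd P u) = (C b * u - C a * v) * dd P v -
      v * dd P (C b * u - C a * v) := by
    rw [map_sub, Derivation.leibniz, Derivation.leibniz, hC, hC]
    simp only [smul_eq_mul]
    ring
  refine Van.of_mul (b := C b) (by rw [eval_C]; exact hb) ?_
  rw [h1]
  exact (hV.mono_succ.mul_right _).sub (hV.2.mul v)

end Pool.Agent.Helper4.AR
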