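import Mathlib
import Pool.Agent.Helper4.AR.Zero

/-!
# Norms of forms and iterates of the derivation
-/

set_option autoImplicit false
set_option linter.unusedSectionVars false

namespace Pool.Agent.Helper4.AR

open MvPolynomial

/-- the sum of the absolute values of the coefficients -/
noncomputable def nm (F : A) : ℕ := ∑ m ∈ F.support, (F.coeff m).natAbs

theorem nm_eq {F : A} {T : Finset (Fin 3 →₀ ℕ)} (h : F.support ⊆ T) :
    nm F = ∑ m ∈ T, (F.coeff m).natAbs := by
  rw [nm]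
  refine Finset.sum_subset h fun m _ hm => ?_
  rw [notMem_support_iff.mp hm, Int.natAbs_zero]

theorem coeff_le_nm (F : A) (m : Fin 3 →₀ ℕ) : (F.coeff m).natAbs ≤ nm F := by
  by_cases h : m ∈ F.support
  · exact Finset.single_le_sum (f := fun s => (F.coeff s).natAbs) (fun _ _ => Nat.zero_le _) h
  · rw [notMem_support_iff.mp h]; simp

theorem nm_zero : nm 0 = 0 := by simp [nm]

theorem nm_monomial (s : Fin 3 →₀ ℕ) (c : ℤ) : nm (monomial s c) = c.natAbs := by
  classical
  rw [nm_eq (T := {s}) (support_monomial_subset), Finset.sum_singleton, coeff_monomial, if_pos rfl]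

theorem nm_add (F G : A) : nm (F + G) ≤ nm F + nm G := by
  classical
  rw [nm_eq (F := F + G) (T := F.support ∪ G.support) support_add,
    nm_eq (F := F) (T := F.support ∪ G.support) Finset.subset_union_left,
    nm_eq (F := G) (T := F.support ∪ G.support) Finset.subset_union_right, ← Finset.sum_add_distrib]
  refine Finset.sum_le_sum fun m _ => ?_
  rw [coeff_add]
  exact Int.natAbs_add_le _ _

theorem nm_neg (F : A) : nm (-F) = nm F := by
  rw [nm, nm, support_neg]
  refine Finset.sum_congr rfl fun m _ => ?_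
  rw [coeff_neg, Int.natAbs_neg]

theorem nm_sum {ι : Type*} (s : Finset ι) (f : ι → A) : nm (∑ i ∈ s, f i) ≤ ∑ i ∈ s, nm (f i) := by
  classical
  induction s using Finset.induction_on with
  | empty => simp [nm_zero]
  | insert a s ha ih =>
    rw [Finset.sum_insert ha, Finset.sum_insert ha]
    exact (nm_add _ _).trans (Nat.add_le_add_left ih _)

theorem nm_mul (F G : A) : nm (F * G) ≤ nm F * nm G := by
  have h1 : F * G = ∑ m ∈ F.support, ∑ n ∈ G.support,
      monomial (m + n) (F.coeff m * G.coeff n) := by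
    conv_lhs => rw [← support_sum_monomial_coeff F, ← support_sum_monomial_coeff G]
    rw [Finset.sum_mul]
    refine Finset.sum_congr rfl fun m _ => ?_
    rw [Finset.mul_sum]
    refine Finset.sum_congr rfl fun n _ => ?_
    rw [monomial_mul]
  rw [h1]
  refine (nm_sum _ _).trans ?_
  rw [nm, Finset.sum_mul]
  refine Finset.sum_le_sum fun m _ => ?_
  refine (nm_sum _ _).trans ?_
  rw [nm, Finset.mul_sum]
  refine Finset.sum_le_sum fun n _ => ?_
  rw [nm_monomial, Int.natAbs_mul]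

theorem nm_C (c : ℤ) : nm (C c) = c.natAbs := by
  rw [C_apply, nm_monomial]

theorem nm_X (i : Fin 3) : nm (X i) = 1 := by
  rw [X, nm_monomial]; rfl

theorem le_of_totalDegree {F : A} {n : ℕ} (h : F.totalDegree ≤ n) {m : Fin 3 →₀ ℕ}
    (hm : m ∈ F.support) : m 0 + m 1 + m 2 ≤ n := by
  have h1 := le_totalDegree hm
  have h2 : (m.sum fun _ e => e) = m.degree := rfl
  rw [h2, degree_fin3] at h1
  omega

theorem nm_pderiv {F : A} {n : ℕ} (h : F.totalDegree ≤ n) (i : Fin 3) :
    nm (pderiv i F) ≤ n * nm F := by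
  conv_lhs => rw [← support_sum_monomial_coeff F, map_sum]
  refine (nm_sum _ _).trans ?_
  rw [nm, Finset.mul_sum]
  refine Finset.sum_le_sum fun m hm => ?_
  rw [pderiv_monomial, nm_monomial, Int.natAbs_mul, Int.natAbs_natCast, mul_comm]
  refine Nat.mul_le_mul_right _ ?_
  have h1 := le_of_totalDegree h hm
  fin_cases i
  · show m 0 ≤ n; omega
  · show m 1 ≤ n; omega
  · show m 2 ≤ n; omega

theorem natAbs_eval_le {F : A} {n M : ℕ} (h : F.totalDegree ≤ n) {ξ : Fin 3 → ℤ} (hM : 1 ≤ M)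
    (hξ : ∀ i, (ξ i).natAbs ≤ M) : (eval ξ F).natAbs ≤ nm F * M ^ n := by
  rw [eval_eq', nm, Finset.sum_mul]
  refine (Int.natAbs_sum_le _ _).trans ?_
  refine Finset.sum_le_sum fun m hm => ?_
  rw [Int.natAbs_mul]
  refine Nat.mul_le_mul_left _ ?_
  rw [Fin.prod_univ_three, Int.natAbs_mul, Int.natAbs_mul, Int.natAbs_pow, Int.natAbs_pow,
    Int.natAbs_pow]
  calc (ξ 0).natAbs ^ m 0 * (ξ 1).natAbs ^ m 1 * (ξ 2).natAbs ^ m 2
      ≤ M ^ m 0 * M ^ m 1 * M ^ m 2 :=
        Nat.mul_le_mul (Nat.mul_le_mul (Nat.pow_le_pow_left (hξ 0) _) (Nat.pow_le_pow_left (hξ 1) _))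
          (Nat.pow_le_pow_left (hξ 2) _)
    _ = M ^ (m 0 + m 1 + m 2) := by rw [pow_add, pow_add]
    _ ≤ M ^ n := Nat.pow_le_pow_right hM (le_of_totalDegree h hm)

/-- degree and norm -/
structure Bd (F : A) (n c : ℕ) : Prop where
  deg : F.totalDegree ≤ n
  nrm : nm F ≤ c

theorem Bd.mono {F : A} {n c n' c' : ℕ} (h : Bd F n c) (hn : n ≤ n') (hc : c ≤ c') : Bd F n' c' :=
  ⟨h.deg.trans hn, h.nrm.trans hc⟩

theorem Bd.add {F G : A} {n c c' : ℕ} (h : Bd F n c) (h' : Bd G n c') : Bd (F + G) n (c + c') :=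
  ⟨(totalDegree_add _ _).trans (max_le h.deg h'.deg),
    (nm_add _ _).trans (Nat.add_le_add h.nrm h'.nrm)⟩

theorem Bd.neg {F : A} {n c : ℕ} (h : Bd F n c) : Bd (-F) n c :=
  ⟨by rw [totalDegree_neg]; exact h.deg, by rw [nm_neg]; exact h.nrm⟩

theorem Bd.sub {F G : A} {n c c' : ℕ} (h : Bd F n c) (h' : Bd G n c') : Bd (F - G) n (c + c') := by
  rw [sub_eq_add_neg]; exact h.add h'.neg

theorem Bd.mul {F G : A} {n c n' c' : ℕ} (h : Bd F n c) (h' : Bd G n' c') :
    Bd (F * G) (n + n') (c * c') :=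
  ⟨(totalDegree_mul _ _).trans (Nat.add_le_add h.deg h'.deg),
    (nm_mul _ _).trans (Nat.mul_le_mul h.nrm h'.nrm)⟩

theorem Bd.C_mul {F : A} {n c : ℕ} (h : Bd F n c) (k : ℤ) : Bd (C k * F) n (k.natAbs * c) := by
  have h1 : Bd (C k : A) 0 k.natAbs := ⟨by rw [totalDegree_C], by rw [nm_C]⟩
  have := h1.mul h
  rwa [zero_add] at this

theorem Bd.pd {F : A} {n c : ℕ} (h : Bd F n c) (i : Fin 3) : Bd (pderiv i F) (n - 1) (n * c) := by
  refine ⟨?_, (nm_pderiv h.deg i).trans (Nat.mul_le_mul_left _ h.nrm)⟩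
  have h1 : ∀ m ∈ (pderiv i F).support, m.degree ≤ n - 1 := by
    intro m hm
    rw [mem_support_iff, coeff_pderiv] at hm
    have h2 : F.coeff (m + Finsupp.single i 1) ≠ 0 := fun h' => hm (by rw [h', zero_mul])
    have h3 := le_totalDegree (mem_support_iff.mpr h2)
    have h4 : ((m + Finsupp.single i 1).sum fun _ e => e) = (m + Finsupp.single i 1).degree := rfl
    rw [h4, map_add, Finsupp.degree_single] at h3
    have := h.deg
    omega
  rw [totalDegree]
  exact Finset.sup_le h1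

theorem Bd.X_dd {P F : A} {d cP n c : ℕ} (hP : Bd P d cP) (h : Bd F n c) (i : Fin 3) :
    Bd (X i * dd P F) (n + (d - 1)) (2 * (d * cP) * (n * c)) := by
  rw [dd_apply]
  have hX : Bd (X i : A) 1 1 := ⟨by rw [totalDegree_X], by rw [nm_X]⟩
  rcases Nat.eq_zero_or_pos n with hn | hn
  · subst hn
    have h1 : F = C (F.coeff 0) := by
      rw [← totalDegree_eq_zero_iff_eq_C]
      have := h.deg
      omega
    rw [h1, pderiv_C, pderiv_C, mul_zero, mul_zero, sub_zero, mul_zero]
    exact ⟨by simp, by rw [nm_zero]; exact Nat.zero_le _⟩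
  · have h1 := hX.mul (((hP.pd 0).mul (h.pd 1)).sub ((hP.pd 1).mul (h.pd 0)))
    refine h1.mono (by omega) (le_of_eq ?_)
    ring

theorem Bd.dd_X {P F : A} {d cP n c : ℕ} (hP : Bd P d cP) (h : Bd F n c) (i : Fin 3) :
    Bd (dd P (X i) * F) (n + (d - 1)) ((d * cP) * c) := by
  have h1 : Bd (dd P (X i)) (d - 1) (d * cP) := by
    rw [dd_apply]
    fin_cases i
    · simp only [Fin.zero_eta, pderiv_X_self, mul_one]
      rw [pderiv_X_of_ne (by decide), mul_zero, zero_sub]
      exact (hP.pd 1).neg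
    · simp only [Fin.mk_one, pderiv_X_self, mul_one]
      rw [pderiv_X_of_ne (by decide), mul_zero, sub_zero]
      exact hP.pd 0
    · simp only [Fin.reduceFinMk]
      rw [pderiv_X_of_ne (by decide), pderiv_X_of_ne (by decide), mul_zero, mul_zero, sub_zero]
      exact ⟨by simp, by rw [nm_zero]; exact Nat.zero_le _⟩
  have := h1.mul h
  rwa [add_comm] at this

/-- the `j`-th derivative of `F X_i ^ p` is `X_i ^ (p - j)` times this -/
noncomputable def op (P : A) (i : Fin 3) (p : ℕ) (F : A) : ℕ → A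
  | 0 => F
  | (j + 1) => X i * dd P (op P i p F j) + C ((p - j : ℕ) : ℤ) * (dd P (X i) * op P i p F j)

theorem iter_op (P : A) (i : Fin 3) (p : ℕ) (F : A) : ∀ j ≤ p,
    (dd P)^[j] (F * X i ^ p) = X i ^ (p - j) * op P i p F j := by
  intro j
  induction j with
  | zero => intro _; rw [Function.iterate_zero, id_eq, op, Nat.sub_zero, mul_comm]
  | succ j ih =>
    intro hj
    rw [Function.iterate_succ_apply', ih (by omega), mul_comm]
    obtain ⟨k, hk⟩ : ∃ k, p - j = k + 1 := ⟨p - j - 1, by omega⟩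
    have e1 : p - (j + 1) = k := by omega
    rw [hk, dd_pow, e1, op, hk]
    push_cast
    ring

theorem bd_op {P : A} {d cP : ℕ} (hP : Bd P d cP) (i : Fin 3) {p n c N J : ℕ} {F : A} (hF : Bd F n c)
    (hN : n + p ≤ N) : ∀ j ≤ J, Bd (op P i p F j) (n + j * (d - 1))
      ((2 * (d * cP) * (N + J * d)) ^ j * c) := by
  intro j
  induction j with
  | zero => intro _; rw [op, zero_mul, add_zero, pow_zero, one_mul]; exact hF
  | succ j ih =>
    intro hj
    have h1 := ih (by omega)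
    rw [op]
    refine ((hP.X_dd h1 i).add ((hP.dd_X h1 i).C_mul _)).mono (by
      rw [Nat.succ_mul]; omega) ?_
    rw [Int.natAbs_natCast]
    obtain ⟨W, hW⟩ : ∃ W, W = (2 * (d * cP) * (N + J * d)) ^ j * c := ⟨_, rfl⟩
    rw [← hW]
    have h2 : j * (d - 1) ≤ J * d := Nat.mul_le_mul (by omega) (by omega)
    calc 2 * (d * cP) * ((n + j * (d - 1)) * W) + (p - j) * (d * cP * W) =
        (d * cP * W) * (2 * (n + j * (d - 1)) + (p - j)) := by ring
      _ ≤ (d * cP * W) * (2 * (N + J * d)) := Nat.mul_le_mul_left _ (by omega)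
      _ = (2 * (d * cP) * (N + J * d)) ^ (j + 1) * c := by rw [hW, pow_succ]; ring

end Pool.Agent.Helper4.AR
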