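import Mathlib
import Pool.Agent.Helper4.AR.Oper

/-!
# The main inequality
-/

set_option autoImplicit false
set_option linter.unusedSectionVars false

namespace Pool.Agent.Helper4.AR

open MvPolynomial

theorem nm_pl (k b : ℕ) (t : (_ : ℕ) × ℕ → ℤ) {B : ℕ} (h : ∀ u, (t u).natAbs ≤ B) :
    nm (pl k b t) ≤ (II k b).card * B := by
  rw [pl]
  refine (nm_sum _ _).trans ?_
  rw [← smul_eq_mul, ← Finset.sum_const]
  refine Finset.sum_le_sum fun u _ => ?_
  rw [nm_monomial]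
  exact h u

theorem two_card (N : ℕ) : ∀ d ≤ N + 1, 2 * (II N d).card + d * d = d * (2 * N + 3) := by
  intro d
  induction d with
  | zero => intro _; simp [card_II]
  | succ d ih =>
    intro hd
    have h1 := ih (by omega)
    rw [card_II, Finset.sum_range_succ, ← card_II]
    obtain ⟨k, hk⟩ : ∃ k, N + 1 = d + k := ⟨N + 1 - d, by omega⟩
    have hk' : N + 1 - d = k := by omega
    rw [hk']
    have h2 : 2 * N + 3 = 2 * d + 2 * k + 1 := by omega
    rw [h2] at h1 ⊢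
    nlinarith

/-- the number of unknowns and the number of equations -/
theorem count_main {N d p q r : ℕ} (hd : d ≤ N) (hp : p ≤ N) (hq : q ≤ N) (hr : r ≤ N)
    (hp' : d ≤ N - p + 1) (hq' : d ≤ N - q + 1) (hr' : d ≤ N - r + 1)
    (hs : p + q + r + d ≤ 2 * N + 3) :
    (II N (N + 1)).card + d * (2 * N + 3 - d - (p + q + r)) =
      (II (N - p) d).card + (II (N - q) d).card + (II (N - r) d).card +
        (II (N - d) (N - d + 1)).card := by
  have h1 := count_all hd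
  have h2 := count_shift (d := d) hp hp'
  have h3 := count_shift (d := d) hq hq'
  have h4 := count_shift (d := d) hr hr'
  have h5 := two_card N d (by omega)
  obtain ⟨k, hk⟩ : ∃ k, 2 * N + 3 = k + d + (p + q + r) := ⟨2 * N + 3 - d - (p + q + r), by omega⟩
  have hk' : 2 * N + 3 - d - (p + q + r) = k := by omega
  rw [hk']
  rw [hk] at h5
  nlinarith

theorem Dat.mk' {P : A} {d : ℕ} (hprime : Prime P) (hom : P.IsHomogeneous d) (pos : 0 < d)
    (nv : NV P) {x y z : ℕ} (hx : 0 < x) (hy : 0 < y) (hz : 0 < z)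
    (hroot : eval ![(x : ℤ), (y : ℤ), (z : ℤ)] P = 0)
    (hsm : eval ![(x : ℤ), (y : ℤ), (z : ℤ)] (pderiv 1 P) ≠ 0) :
    Dat P d ![(x : ℤ), (y : ℤ), (z : ℤ)] where
  prime := hprime
  hom := hom
  pos := pos
  nv := nv
  root := hroot
  smooth := hsm
  ne := by
    intro i
    fin_cases i
    · show (x : ℤ) ≠ 0; omega
    · show (y : ℤ) ≠ 0; omega
    · show (z : ℤ) ≠ 0; omega

/-- **The main inequality** -/
theorem core {P : A} {d cP N e M x y z x0 y0 z0 p q r T J : ℕ} (hprime : Prime P)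
    (hom : P.IsHomogeneous d) (pos : 0 < d) (nv : NV P) (hx : 0 < x) (hy : 0 < y) (hz : 0 < z)
    (hroot : eval ![(x : ℤ), (y : ℤ), (z : ℤ)] P = 0)
    (hsm : eval ![(x : ℤ), (y : ℤ), (z : ℤ)] (pderiv 1 P) ≠ 0)
    (cxy : Nat.Coprime x y) (cyz : Nat.Coprime y z)
    (hy0 : 0 < y0)
    (hxM : x ≤ M) (hyM : y ≤ M) (hzM : z ≤ M) (hx0M : x0 ≤ M) (hy0M : y0 ≤ M) (hz0M : z0 ≤ M)
    (heq : x ^ p * x0 + y ^ q * y0 = z ^ r * z0) (hcP1 : 1 ≤ cP) (hcP : nm P ≤ cP)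
    (hd : d ≤ N) (hp : p ≤ N) (hq : q ≤ N) (hr : r ≤ N)
    (hp' : d ≤ N - p + 1) (hq' : d ≤ N - q + 1) (hr' : d ≤ N - r + 1)
    (hpq : N < p + q) (hpr : N < p + r) (hqr : N < q + r) (hs : p + q + r ≤ 2 * N)
    (hJ : J = d * (2 * N + d - (p + q + r)) + 1) (hJp : J ≤ p) (hJq : J ≤ q) (hJr : J ≤ r)
    (hk : d + (p + q + r) < 2 * N + 3)
    (hT : T = (II N (N + 1)).card + d * (2 * N + 3 - d - (p + q + r)))
    (he : (II N (N + 1)).card ≤ e * (d * (2 * N + 3 - d - (p + q + r)))) :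
    (x ^ p * x0) * (y ^ q * y0) ≤
      2 * ((2 * (d * cP) * (N + J * d)) ^ J * (T * (T * cP) ^ e)) * M ^ (N + J * (d + 1) + 3) := by
  have hM : 1 ≤ M := le_trans hx hxM
  have hD := Dat.mk' hprime hom pos nv hx hy hz hroot hsm
  obtain ⟨ξ, hξ⟩ : ∃ ξ : Fin 3 → ℤ, ξ = ![(x : ℤ), (y : ℤ), (z : ℤ)] := ⟨_, rfl⟩
  rw [← hξ] at hD hroot hsm
  have hξ0 : ξ 0 = x := by rw [hξ]; rfl
  have hξ1 : ξ 1 = y := by rw [hξ]; rfl
  have hξ2 : ξ 2 = z := by rw [hξ]; rfl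
  have hcount := count_main hd hp hq hr hp' hq' hr' (by omega)
  have hexc : 0 < d * (2 * N + 3 - d - (p + q + r)) := Nat.mul_pos pos (by omega)
  have hT' : T = ∑ i, (II (N - (![p, q, r] : Fin 3 → ℕ) i) ((![d, d, d] : Fin 3 → ℕ) i)).card +
      (II (N - d) (N - d + 1)).card := by
    rw [Fin.sum_univ_three]
    show T = (II (N - p) d).card + (II (N - q) d).card + (II (N - r) d).card +
      (II (N - d) (N - d + 1)).card
    omega
  obtain ⟨t, Q, h1, h2, h3⟩ := system (P := P) (d := d) (N := N) (S := cP) (e := e)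
    hprime.ne_zero hom hd (![X 0 ^ p, X 1 ^ q, X 2 ^ r] : Fin 3 → A) ![p, q, r] ![d, d, d] (by
      intro i
      fin_cases i
      · exact isHomogeneous_X_pow _ _
      · exact isHomogeneous_X_pow _ _
      · exact isHomogeneous_X_pow _ _) (by
      intro i
      fin_cases i
      · exact hp
      · exact hq
      · exact hr) hcP1 (by
      have hX : ∀ (i : Fin 3) (n : ℕ) (m : Fin 3 →₀ ℕ), ((X i ^ n : A).coeff m).natAbs ≤ cP := by
        intro i n m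
        classical
        rw [coeff_X_pow]
        split_ifs
        · simpa using hcP1
        · simp
      intro i m
      fin_cases i
      · exact hX _ _ _
      · exact hX _ _ _
      · exact hX _ _ _) (fun m => (coeff_le_nm P m).trans hcP) hT' (by omega)
    (by rw [hT, Nat.add_sub_cancel_left]; exact he)
  rw [Fin.sum_univ_three] at h1
  obtain ⟨F, hF⟩ : ∃ F, F = pl (N - p) d (t 0) := ⟨_, rfl⟩
  obtain ⟨G, hG⟩ : ∃ G, G = pl (N - q) d (t 1) := ⟨_, rfl⟩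
  obtain ⟨H, hH⟩ : ∃ H, H = pl (N - r) d (t 2) := ⟨_, rfl⟩
  have heqn : F * X 0 ^ p + G * X 1 ^ q + H * X 2 ^ r = P * Q := by
    rw [hF, hG, hH]; exact h1
  have hne : ¬ (F = 0 ∧ G = 0 ∧ H = 0) := by
    rintro ⟨g1, g2, g3⟩
    apply h2
    intro i
    fin_cases i
    · rw [hF] at g1; exact g1
    · rw [hG] at g2; exact g2
    · rw [hH] at g3; exact g3
  have happ : App P d N p q r F G H Q := by
    refine ⟨?_, ?_, ?_, ?_, ?_, ?_, hne, hp, hq, hr, hpq, hpr, hqr, heqn⟩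
    · rw [hF]; exact pl_hom _ _ _
    · rw [hG]; exact pl_hom _ _ _
    · rw [hH]; exact pl_hom _ _ _
    · rw [hF]; exact pl_degreeOf _
    · rw [hG]; exact pl_degreeOf _
    · rw [hH]; exact pl_degreeOf _
  have hJ1 : 1 ≤ J := by omega
  obtain ⟨a, ha⟩ : ∃ a, a = x ^ p * x0 := ⟨_, rfl⟩
  obtain ⟨b, hb⟩ : ∃ b, b = y ^ q * y0 := ⟨_, rfl⟩
  have hb0 : 0 < b := by rw [hb]; exact Nat.mul_pos (pow_pos hy q) hy0
  obtain ⟨j, hjJ, hj⟩ := happ.exists_j hD (by omega) (by omega) hs (a := (a : ℤ)) (b := (b : ℤ))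
    (by omega)
  rw [← hJ] at hjJ
  rw [iter_op P 0 p F j (by omega), iter_op P 1 q G j (by omega), map_mul, map_mul, map_pow, map_pow,
    eval_X, eval_X, hξ0, hξ1] at hj
  -- bounds
  obtain ⟨c0, hc0⟩ : ∃ c0, c0 = T * (T * cP) ^ e := ⟨_, rfl⟩
  have hc : ∀ (i : Fin 3) (k : ℕ), (II k d).card ≤ T → nm (pl k d (t i)) ≤ c0 := by
    intro i k hk
    rw [hc0]
    exact (nm_pl k d (t i) (h3 i)).trans (Nat.mul_le_mul_right _ hk)
  have hbdP : Bd P d cP := ⟨hom.totalDegree_le, hcP⟩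
  have hξM : ∀ i, (ξ i).natAbs ≤ M := by
    intro i
    rw [hξ]
    fin_cases i
    · exact hxM
    · exact hyM
    · exact hzM
  obtain ⟨Θ, hΘ⟩ : ∃ Θ, Θ = (2 * (d * cP) * (N + J * d)) ^ J * c0 := ⟨_, rfl⟩
  have hbase : 1 ≤ 2 * (d * cP) * (N + J * d) := by
    have h4 : 1 ≤ d * cP := Nat.mul_pos pos hcP1
    exact Nat.mul_pos (by omega) (by omega)
  have hev : ∀ (i : Fin 3) (E : A) (k p' : ℕ), E.IsHomogeneous k → nm E ≤ c0 → k + p' ≤ N →
      (eval ξ (op P i p' E j)).natAbs ≤ Θ * M ^ (k + j * (d - 1)) := by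
    intro i E k p' hE hEc hkN
    have h4 := bd_op hbdP i (p := p') (J := J) (⟨hE.totalDegree_le, hEc⟩ : Bd E k c0) hkN j hjJ
    refine (natAbs_eval_le h4.deg hM hξM).trans (Nat.mul_le_mul_right _ (h4.nrm.trans ?_))
    rw [hΘ]
    exact Nat.mul_le_mul_right _ (Nat.pow_le_pow_right hbase hjJ)
  obtain ⟨α, hα⟩ : ∃ α, α = eval ξ (op P 0 p F j) := ⟨_, rfl⟩
  obtain ⟨β, hβ⟩ : ∃ β, β = eval ξ (op P 1 q G j) := ⟨_, rfl⟩
  obtain ⟨γ, hγ⟩ : ∃ γ, γ = eval ξ (op P 2 r H j) := ⟨_, rfl⟩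
  have hαb : α.natAbs ≤ Θ * M ^ (N - p + j * (d - 1)) := by
    rw [hα]
    exact hev 0 F (N - p) p happ.hF (by rw [hF]; exact hc 0 _ (by omega)) (by omega)
  have hγb : γ.natAbs ≤ Θ * M ^ (N - r + j * (d - 1)) := by
    rw [hγ]
    exact hev 2 H (N - r) r happ.hH (by rw [hH]; exact hc 2 _ (by omega)) (by omega)
  rw [← hα, ← hβ] at hj
  -- the relation between the values
  have hsum : (x : ℤ) ^ (p - j) * α + (y : ℤ) ^ (q - j) * β + (z : ℤ) ^ (r - j) * γ = 0 := by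
    have hadd : ∀ (m : ℕ) (u v : A), (dd P)^[m] (u + v) = (dd P)^[m] u + (dd P)^[m] v := by
      intro m
      induction m with
      | zero => intro u v; rfl
      | succ m ihm => intro u v; rw [Function.iterate_succ_apply, map_add, ihm]; rfl
    have h4 := congrArg (fun E => eval ξ ((dd P)^[j] E)) heqn
    rw [hadd, hadd, map_add, map_add, iter_op P 0 p F j (by omega), iter_op P 1 q G j (by omega),
      iter_op P 2 r H j (by omega), map_mul, map_mul, map_mul, map_pow, map_pow, map_pow, eval_X,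
      eval_X, eval_X, hξ0, hξ1, hξ2, ← hα, ← hβ, ← hγ,
      (van_iff.mp (Van.const (dd_self P) hroot (j + 1) Q)) j (by omega)] at h4
    exact h4
  have heqZ : (a : ℤ) + b = (z : ℤ) ^ r * z0 := by
    rw [ha, hb]
    exact_mod_cast heq
  -- the small integer
  obtain ⟨Λ, hΛ⟩ : ∃ Λ : ℤ, Λ = α * ((z : ℤ) ^ j * z0) + γ * ((x : ℤ) ^ j * x0) := ⟨_, rfl⟩
  have ez : (z : ℤ) ^ r = (z : ℤ) ^ (r - j) * (z : ℤ) ^ j := by
    rw [← pow_add]; congr 1; omega
  have exx : (x : ℤ) ^ p = (x : ℤ) ^ (p - j) * (x : ℤ) ^ j := by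
    rw [← pow_add]; congr 1; omega
  have ey : (y : ℤ) ^ q = (y : ℤ) ^ (q - j) * (y : ℤ) ^ j := by
    rw [← pow_add]; congr 1; omega
  have haZ : (a : ℤ) = (x : ℤ) ^ (p - j) * (x : ℤ) ^ j * x0 := by
    rw [ha, ← exx]; push_cast; ring
  have hbZ : (b : ℤ) = (y : ℤ) ^ (q - j) * (y : ℤ) ^ j * y0 := by
    rw [hb, ← ey]; push_cast; ring
  have hid : (x : ℤ) ^ (p - j) * (z : ℤ) ^ (r - j) * Λ =
      (b : ℤ) * ((x : ℤ) ^ (p - j) * α) - a * ((y : ℤ) ^ (q - j) * β) := by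
    have h4 : (x : ℤ) ^ (p - j) * (z : ℤ) ^ (r - j) * Λ =
        (x : ℤ) ^ (p - j) * α * ((z : ℤ) ^ r * z0) + (z : ℤ) ^ (r - j) * γ * a := by
      rw [hΛ, haZ, ez]; ring
    rw [h4, ← heqZ]
    linear_combination (a : ℤ) * hsum
  have hΛ0 : Λ ≠ 0 := by
    intro h4
    rw [h4, mul_zero] at hid
    apply hj
    linear_combination -hid
  have hdvd : (y : ℤ) ^ (q - j) ∣ Λ := by
    have h4 : (y : ℤ) ^ (q - j) ∣ (x : ℤ) ^ (p - j) * (z : ℤ) ^ (r - j) * Λ := by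
      rw [hid]
      refine dvd_sub ?_ ?_
      · rw [hbZ]
        exact ⟨(y : ℤ) ^ j * y0 * ((x : ℤ) ^ (p - j) * α), by ring⟩
      · exact ⟨a * β, by ring⟩
    have h5 : IsCoprime ((y : ℤ) ^ (q - j)) ((x : ℤ) ^ (p - j) * (z : ℤ) ^ (r - j)) := by
      refine IsCoprime.mul_right ?_ ?_
      · exact (Nat.isCoprime_iff_coprime.mpr cxy.symm).pow
      · exact (Nat.isCoprime_iff_coprime.mpr cyz).pow
    exact h5.dvd_of_dvd_mul_left h4
  have hle : y ^ (q - j) ≤ Λ.natAbs := by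
    have h4 := Int.natAbs_le_of_dvd_ne_zero hdvd hΛ0
    rwa [Int.natAbs_pow, Int.natAbs_natCast] at h4
  have haz : a ≤ z ^ r * z0 := by
    rw [← heq, ← ha]; exact Nat.le_add_right _ _
  have hΛb : Λ.natAbs ≤ α.natAbs * (z ^ j * z0) + γ.natAbs * (x ^ j * x0) := by
    have e1 : ∀ (v w : ℕ), ((v : ℤ) ^ j * (w : ℤ)).natAbs = v ^ j * w := by
      intro v w
      rw [Int.natAbs_mul, Int.natAbs_pow, Int.natAbs_natCast, Int.natAbs_natCast]
    rw [hΛ]
    refine (Int.natAbs_add_le _ _).trans (le_of_eq ?_)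
    rw [Int.natAbs_mul, e1, Int.natAbs_mul, e1]
  have hpowM : ∀ {v w k : ℕ}, v ≤ M → w ≤ M → v ^ k * w ≤ M ^ (k + 1) := by
    intro v w k hv hw
    rw [pow_succ]
    exact Nat.mul_le_mul (Nat.pow_le_pow_left hv k) hw
  have g1 : a * (α.natAbs * (z ^ j * z0)) ≤ Θ * M ^ (N + j * d + 2) := by
    calc a * (α.natAbs * (z ^ j * z0)) ≤ M ^ (p + 1) * ((Θ * M ^ (N - p + j * (d - 1))) * M ^ (j + 1)) := by
          refine Nat.mul_le_mul ?_ (Nat.mul_le_mul hαb (hpowM hzM hz0M))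
          rw [ha]; exact hpowM hxM hx0M
      _ = Θ * M ^ (p + 1 + (N - p + j * (d - 1)) + (j + 1)) := by
          rw [pow_add _ (p + 1 + _), pow_add _ (p + 1)]; ring
      _ = Θ * M ^ (N + j * d + 2) := by
          congr 2
          obtain ⟨d', rfl⟩ : ∃ d', d = d' + 1 := ⟨d - 1, by omega⟩
          rw [Nat.add_sub_cancel, Nat.mul_succ]
          omega
  have g2 : a * (γ.natAbs * (x ^ j * x0)) ≤ Θ * M ^ (N + j * d + 2) := by
    calc a * (γ.natAbs * (x ^ j * x0)) ≤ M ^ (r + 1) * ((Θ * M ^ (N - r + j * (d - 1))) * M ^ (j + 1)) := by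
          refine Nat.mul_le_mul (haz.trans (hpowM hzM hz0M)) (Nat.mul_le_mul hγb (hpowM hxM hx0M))
      _ = Θ * M ^ (r + 1 + (N - r + j * (d - 1)) + (j + 1)) := by
          rw [pow_add _ (r + 1 + _), pow_add _ (r + 1)]; ring
      _ = Θ * M ^ (N + j * d + 2) := by
          congr 2
          obtain ⟨d', rfl⟩ : ∃ d', d = d' + 1 := ⟨d - 1, by omega⟩
          rw [Nat.add_sub_cancel, Nat.mul_succ]
          omega
  have g3 : b ≤ Λ.natAbs * M ^ (j + 1) := by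
    have h4 : b = y ^ (q - j) * (y ^ j * y0) := by
      rw [hb, ← mul_assoc, ← pow_add]
      congr 2
      omega
    rw [h4]
    exact Nat.mul_le_mul hle (hpowM hyM hy0M)
  rw [← ha, ← hb, ← hc0, ← hΘ]
  calc a * b ≤ a * (Λ.natAbs * M ^ (j + 1)) := Nat.mul_le_mul_left _ g3
    _ ≤ a * ((α.natAbs * (z ^ j * z0) + γ.natAbs * (x ^ j * x0)) * M ^ (j + 1)) :=
        Nat.mul_le_mul_left _ (Nat.mul_le_mul_right _ hΛb)
    _ = (a * (α.natAbs * (z ^ j * z0)) + a * (γ.natAbs * (x ^ j * x0))) * M ^ (j + 1) := by ring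
    _ ≤ (Θ * M ^ (N + j * d + 2) + Θ * M ^ (N + j * d + 2)) * M ^ (j + 1) :=
        Nat.mul_le_mul_right _ (Nat.add_le_add g1 g2)
    _ = 2 * Θ * M ^ (N + j * d + 2 + (j + 1)) := by rw [pow_add _ (N + j * d + 2)]; ring
    _ ≤ 2 * Θ * M ^ (N + J * (d + 1) + 3) := by
        refine Nat.mul_le_mul_left _ (Nat.pow_le_pow_right hM ?_)
        have h4 : j * (d + 1) ≤ J * (d + 1) := Nat.mul_le_mul_right _ hjJ
        rw [Nat.mul_succ] at h4
        omega

end Pool.Agent.Helper4.AR
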