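import Mathlib
import Pool.Agent.Helper4.AR.Oper

/-!
# Prime factors of a form: homogeneity and heights
-/

set_option autoImplicit false
set_option linter.unusedSectionVars false

namespace Pool.Agent.Helper4.AR

open MvPolynomial

/-- the scaling homomorphism -/
noncomputable def tau : A →+* Polynomial A :=
  eval₂Hom (Polynomial.C.comp C) fun i => Polynomial.C (X i) * Polynomial.X

theorem tau_monomial (m : Fin 3 →₀ ℕ) (c : ℤ) :
    tau (monomial m c) = Polynomial.C (monomial m c) * Polynomial.X ^ m.degree := by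
  rw [tau, coe_eval₂Hom, eval₂_monomial, Finsupp.prod_fintype _ _ (by simp), Fin.prod_univ_three,
    degree_fin3, monomial_eq, Finsupp.prod_fintype _ _ (by simp), Fin.prod_univ_three]
  simp only [RingHom.comp_apply, map_mul, map_pow, mul_pow, pow_add]
  ring

theorem tau_coeff (F : A) (n : ℕ) : (tau F).coeff n = homogeneousComponent n F := by
  induction F using MvPolynomial.induction_on' with
  | monomial m c =>
    rw [tau_monomial, Polynomial.coeff_C_mul_X_pow,
      homogeneousComponent_of_mem ((mem_homogeneousSubmodule _ _).mpr (isHomogeneous_monomial c rfl))]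
  | add p q hp hq => rw [map_add, Polynomial.coeff_add, hp, hq, map_add]

theorem tau_hom {P : A} {d : ℕ} (hP : P.IsHomogeneous d) :
    tau P = Polynomial.C P * Polynomial.X ^ d := by
  ext1 n
  rw [tau_coeff, Polynomial.coeff_C_mul_X_pow,
    homogeneousComponent_of_mem ((mem_homogeneousSubmodule _ _).mpr hP)]

theorem tau_ne {F : A} (h : F ≠ 0) : tau F ≠ 0 := by
  intro h0
  apply h
  rw [← sum_homogeneousComponent F]
  refine Finset.sum_eq_zero fun n _ => ?_
  rw [← tau_coeff, h0, Polynomial.coeff_zero]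

/-- factors of forms are forms -/
theorem factor_hom {P Q R : A} {d : ℕ} (hP : P.IsHomogeneous d) (hP0 : P ≠ 0) (h : P = Q * R) :
    ∃ n ≤ d, Q.IsHomogeneous n := by
  have hQ0 : Q ≠ 0 := fun h' => hP0 (by rw [h, h', zero_mul])
  have hR0 : R ≠ 0 := fun h' => hP0 (by rw [h, h', mul_zero])
  have h1 : tau Q * tau R = Polynomial.C P * Polynomial.X ^ d := by
    rw [← map_mul, ← h, tau_hom hP]
  have hQt := tau_ne hQ0
  have hRt := tau_ne hR0
  have h2 := congrArg Polynomial.natDegree h1
  have h3 := congrArg Polynomial.natTrailingDegree h1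
  rw [Polynomial.natDegree_mul hQt hRt, Polynomial.natDegree_C_mul_X_pow d P hP0] at h2
  rw [Polynomial.natTrailingDegree_mul hQt hRt] at h3
  have h4 : (Polynomial.C P * Polynomial.X ^ d).natTrailingDegree = d := by
    rw [Polynomial.C_mul_X_pow_eq_monomial, Polynomial.natTrailingDegree_monomial hP0]
  rw [h4] at h3
  have h5 := Polynomial.natTrailingDegree_le_natDegree (tau Q)
  have h6 := Polynomial.natTrailingDegree_le_natDegree (tau R)
  refine ⟨(tau Q).natDegree, by omega, ?_⟩
  have h7 : (tau Q).natTrailingDegree = (tau Q).natDegree := by omega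
  intro m hm
  have hw : (Finsupp.weight (1 : Fin 3 → ℕ)) m = m.degree := by
    rw [Finsupp.degree_eq_weight_one]; rfl
  rw [hw]
  by_contra hne
  have h8 : (homogeneousComponent m.degree Q).coeff m = Q.coeff m := by
    rw [coeff_homogeneousComponent, if_pos rfl]
  rw [← tau_coeff] at h8
  have h9 : (tau Q).coeff m.degree = 0 := by
    rcases Nat.lt_or_gt_of_ne hne with h | h
    · exact Polynomial.coeff_eq_zero_of_lt_natTrailingDegree (by rw [h7]; exact h)
    · exact Polynomial.coeff_eq_zero_of_natDegree_lt h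
  rw [h9, coeff_zero] at h8
  exact hm h8.symm

/-! ### heights -/

/-- the sum of the absolute values of the coefficients -/
noncomputable def ln (f : Polynomial ℤ) : ℕ := ∑ m ∈ f.support, (f.coeff m).natAbs

theorem ln_eq {f : Polynomial ℤ} {T : Finset ℕ} (h : f.support ⊆ T) :
    ln f = ∑ m ∈ T, (f.coeff m).natAbs := by
  rw [ln]
  refine Finset.sum_subset h fun m _ hm => ?_
  rw [Polynomial.notMem_support_iff.mp hm, Int.natAbs_zero]

theorem ln_add (f g : Polynomial ℤ) : ln (f + g) ≤ ln f + ln g := by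
  classical
  rw [ln_eq (f := f + g) (T := f.support ∪ g.support) Polynomial.support_add,
    ln_eq (f := f) (T := f.support ∪ g.support) Finset.subset_union_left,
    ln_eq (f := g) (T := f.support ∪ g.support) Finset.subset_union_right, ← Finset.sum_add_distrib]
  refine Finset.sum_le_sum fun m _ => ?_
  rw [Polynomial.coeff_add]
  exact Int.natAbs_add_le _ _

theorem ln_sum {ι : Type*} (s : Finset ι) (f : ι → Polynomial ℤ) :
    ln (∑ i ∈ s, f i) ≤ ∑ i ∈ s, ln (f i) := by
  classical
  induction s using Finset.induction_on with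
  | empty => simp [ln]
  | insert a s ha ih =>
    rw [Finset.sum_insert ha, Finset.sum_insert ha]
    exact (ln_add _ _).trans (Nat.add_le_add_left ih _)

/-- Mignotte's bound -/
theorem mignotte {f g h : Polynomial ℤ} (hf : f = g * h) (hf0 : f ≠ 0) (n : ℕ) :
    (g.coeff n).natAbs ≤ 2 ^ f.natDegree * ln f := by
  have hg0 : g ≠ 0 := fun h' => hf0 (by rw [hf, h', zero_mul])
  have hh0 : h ≠ 0 := fun h' => hf0 (by rw [hf, h', mul_zero])
  have h1 := Polynomial.norm_coeff_le_choose_mul_mahlerMeasure_of_one_le_mahlerMeasure n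
    (g.map (Int.castRingHom ℂ)) (h.map (Int.castRingHom ℂ))
    (Polynomial.one_le_mahlerMeasure_of_ne_zero hh0)
  rw [← Polynomial.map_mul, ← hf] at h1
  have h2 := Polynomial.mahlerMeasure_le_sum_norm_coeff (f.map (Int.castRingHom ℂ))
  have h3 : ((f.map (Int.castRingHom ℂ)).sum fun _ a => ‖a‖) = (ln f : ℝ) := by
    rw [Polynomial.sum_def, Polynomial.support_map_of_injective _ (Int.castRingHom ℂ).injective_int, ln]
    push_cast
    refine Finset.sum_congr rfl fun m _ => ?_
    rw [Polynomial.coeff_map, eq_intCast, Complex.norm_intCast, Nat.cast_natAbs, Int.cast_abs]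
  rw [h3] at h2
  have h4 : ‖(g.map (Int.castRingHom ℂ)).coeff n‖ = ((g.coeff n).natAbs : ℝ) := by
    rw [Polynomial.coeff_map, eq_intCast, Complex.norm_intCast, Nat.cast_natAbs, Int.cast_abs]
  rw [h4, Polynomial.natDegree_map_eq_of_injective (Int.castRingHom ℂ).injective_int] at h1
  have h5 : (((g.natDegree).choose n : ℕ) : ℝ) ≤ 2 ^ f.natDegree := by
    have h6 : (g.natDegree).choose n ≤ 2 ^ f.natDegree := by
      refine (Nat.choose_le_two_pow _ _).trans (Nat.pow_le_pow_right (by norm_num) ?_)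
      rw [hf, Polynomial.natDegree_mul hg0 hh0]
      exact Nat.le_add_right _ _
    exact_mod_cast h6
  have h6 : ((g.coeff n).natAbs : ℝ) ≤ 2 ^ f.natDegree * (ln f : ℝ) :=
    h1.trans (mul_le_mul h5 h2 (Polynomial.mahlerMeasure_nonneg _) (by positivity))
  exact_mod_cast h6

/-- the substitution of Kronecker -/
noncomputable def kro (d : ℕ) : A →+* Polynomial ℤ :=
  eval₂Hom Polynomial.C fun i => if i = 0 then Polynomial.X else if i = 1 then
    Polynomial.X ^ (d + 1) else 1

theorem kro_monomial (d : ℕ) (m : Fin 3 →₀ ℕ) (c : ℤ) :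
    kro d (monomial m c) = Polynomial.C c * Polynomial.X ^ (m 0 + (d + 1) * m 1) := by
  rw [kro, coe_eval₂Hom, eval₂_monomial, Finsupp.prod_fintype _ _ (by simp), Fin.prod_univ_three]
  rw [if_pos rfl, if_neg (by decide), if_pos rfl, if_neg (by decide), if_neg (by decide)]
  rw [one_pow, mul_one, ← pow_mul, ← pow_add]

theorem kro_eq (d : ℕ) (F : A) : kro d F =
    ∑ m ∈ F.support, Polynomial.C (F.coeff m) * Polynomial.X ^ (m 0 + (d + 1) * m 1) := by
  conv_lhs => rw [← support_sum_monomial_coeff F, map_sum]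
  exact Finset.sum_congr rfl fun m _ => kro_monomial d m _

theorem hom_le {F : A} {n : ℕ} (hF : F.IsHomogeneous n) {m : Fin 3 →₀ ℕ} (hm : m ∈ F.support) :
    m 0 + m 1 + m 2 = n := by
  rw [← degree_fin3]
  by_contra h
  exact (mem_support_iff.mp hm) (hF.coeff_eq_zero h)

theorem kro_coeff {d n : ℕ} (hn : n ≤ d) {F : A} (hF : F.IsHomogeneous n) (m : Fin 3 →₀ ℕ)
    (hm : m ∈ F.support) : (kro d F).coeff (m 0 + (d + 1) * m 1) = F.coeff m := by
  classical
  rw [kro_eq, Polynomial.finsetSum_coeff]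
  simp only [Polynomial.coeff_C_mul, Polynomial.coeff_X_pow]
  rw [Finset.sum_eq_single m]
  · simp
  · intro m' hm' hne
    rw [if_neg, mul_zero]
    intro heq
    apply hne
    have h1 := hom_le hF hm
    have h2 := hom_le hF hm'
    have h3 : m 1 = m' 1 := by
      have h4 : (m 0 + (d + 1) * m 1) / (d + 1) = m 1 := by
        rw [Nat.add_mul_div_left _ _ (by omega), Nat.div_eq_of_lt (by omega), zero_add]
      have h5 : (m' 0 + (d + 1) * m' 1) / (d + 1) = m' 1 := by
        rw [Nat.add_mul_div_left _ _ (by omega), Nat.div_eq_of_lt (by omega), zero_add]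
      rw [← h4, ← h5, heq]
    rw [h3] at heq
    have h6 : m 0 = m' 0 := by omega
    ext i
    fin_cases i
    · exact h6.symm
    · exact h3.symm
    · show m' 2 = m 2
      omega
  · intro h
    exact absurd hm h

theorem kro_ln (d : ℕ) (F : A) : ln (kro d F) ≤ nm F := by
  rw [kro_eq, nm]
  refine (ln_sum _ _).trans (Finset.sum_le_sum fun m _ => ?_)
  rw [Polynomial.C_mul_X_pow_eq_monomial]
  have : (Polynomial.monomial (m 0 + (d + 1) * m 1) (F.coeff m)).support ⊆
      {m 0 + (d + 1) * m 1} := Polynomial.support_monomial_subset _ _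
  rw [ln_eq this, Finset.sum_singleton, Polynomial.coeff_monomial, if_pos rfl]

theorem kro_deg {d n : ℕ} {F : A} (hF : F.IsHomogeneous n) :
    (kro d F).natDegree ≤ (d + 1) * n := by
  rw [kro_eq]
  refine Polynomial.natDegree_sum_le_of_forall_le _ _ fun m hm => ?_
  refine (Polynomial.natDegree_C_mul_X_pow_le _ _).trans ?_
  have h1 := hom_le hF hm
  rw [← h1]
  nlinarith [Nat.zero_le (m 0), Nat.zero_le (m 1), Nat.zero_le (m 2), Nat.zero_le d,
    Nat.mul_le_mul (Nat.zero_le d) (Nat.zero_le (m 0)), Nat.zero_le (d * m 0), Nat.zero_le (d * m 2)]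

/-- the coefficients of a factor -/
theorem factor_coeff {P Q R : A} {d n : ℕ} (hP : P.IsHomogeneous d) (hn : n ≤ d)
    (hQ : Q.IsHomogeneous n) (hP0 : P ≠ 0) (h : P = Q * R) (m : Fin 3 →₀ ℕ) :
    (Q.coeff m).natAbs ≤ 2 ^ ((d + 1) * d) * nm P := by
  by_cases hm : m ∈ Q.support
  · have hk : kro d P ≠ 0 := by
      intro h0
      obtain ⟨s, hs⟩ := support_nonempty.mpr hP0
      have h1 := kro_coeff le_rfl hP s hs
      rw [h0, Polynomial.coeff_zero] at h1
      exact (mem_support_iff.mp hs) h1.symm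
    have h1 := mignotte (f := kro d P) (g := kro d Q) (h := kro d R) (by rw [h, map_mul]) hk
      (m 0 + (d + 1) * m 1)
    rw [kro_coeff hn hQ m hm] at h1
    exact h1.trans (Nat.mul_le_mul (Nat.pow_le_pow_right (by norm_num) (kro_deg hP)) (kro_ln d P))
  · rw [notMem_support_iff.mp hm]; simp

/-- the norm of a form with given height -/
theorem nm_le_of_coeff {F : A} {n B : ℕ} (hF : F.IsHomogeneous n)
    (h : ∀ m, (F.coeff m).natAbs ≤ B) : nm F ≤ (n + 1) ^ 2 * B := by
  classical
  have h1 : F.support ⊆ (II n (n + 1)).image (ex n) := by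
    intro m hm
    rw [Finset.mem_image]
    have h2 := hom_le hF hm
    refine ⟨⟨m 1, m 0⟩, mem_II.mpr (by simp only; omega), (eq_ex ?_).symm⟩
    rw [degree_fin3]
    exact h2
  rw [nm_eq h1]
  refine (Finset.sum_le_card_nsmul _ _ B fun m _ => h m).trans ?_
  rw [smul_eq_mul]
  refine Nat.mul_le_mul_right _ (Finset.card_image_le.trans ?_)
  rw [card_II]
  refine (Finset.sum_le_card_nsmul _ _ (n + 1) fun c _ => by omega).trans ?_
  rw [Finset.card_range, smul_eq_mul, sq]

/-- **A prime factor through the point** -/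
theorem prime_factor {P : A} {d B : ℕ} (hP : P.IsHomogeneous d) (hNV : NV P) {ξ : Fin 3 → ℤ}
    (hξ : eval ξ P = 0) (hB : ∀ m, (P.coeff m).natAbs ≤ B) : ∃ (Q : A) (n : ℕ), Prime Q ∧ n ≤ d ∧
      0 < n ∧ Q.IsHomogeneous n ∧ NV Q ∧ eval ξ Q = 0 ∧
      nm Q ≤ (d + 1) ^ 2 * (2 ^ ((d + 1) * d) * ((d + 1) ^ 2 * B)) := by
  have hP0 : P ≠ 0 := by
    rintro rfl
    exact hNV 0 (map_zero _)
  obtain ⟨f, hf1, hf2⟩ := UniqueFactorizationMonoid.exists_prime_factors P hP0
  have h1 : eval ξ f.prod = 0 := by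
    obtain ⟨u, hu⟩ := hf2
    rw [← hu, map_mul] at hξ
    rcases mul_eq_zero.mp hξ with h | h
    · exact h
    · exact absurd h ((u.isUnit.map (eval ξ)).ne_zero)
  rw [map_multiset_prod, Multiset.prod_eq_zero_iff, Multiset.mem_map] at h1
  obtain ⟨Q, hQf, hQξ⟩ := h1
  have hQP : Q ∣ P := (Multiset.dvd_prod hQf).trans hf2.dvd
  obtain ⟨R, hR⟩ := hQP
  obtain ⟨n, hn, hQn⟩ := factor_hom hP hP0 hR
  have hNQ : NV Q := by
    intro k hk
    apply hNV k
    rw [hR, map_mul, hk, zero_mul]
  have hn0 : 0 < n := by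
    rcases Nat.eq_zero_or_pos n with h | h
    · subst h
      exfalso
      have h1 : Q = C (Q.coeff 0) := by
        rw [← totalDegree_eq_zero_iff_eq_C]
        have := hQn.totalDegree_le
        omega
      rw [h1, eval_C] at hQξ
      rw [hQξ, C_0] at h1
      exact hNQ 0 (by rw [h1, map_zero])
    · exact h
  refine ⟨Q, n, hf1 Q hQf, hn, hn0, hQn, hNQ, hQξ, ?_⟩
  have h2 := nm_le_of_coeff hP hB
  have h3 := nm_le_of_coeff hQn fun m => (factor_coeff hP hn hQn hP0 hR m).trans
    (Nat.mul_le_mul_left _ h2)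
  exact h3.trans (Nat.mul_le_mul_right _ (Nat.pow_le_pow_left (by omega) 2))

end Pool.Agent.Helper4.AR
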