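import Mathlib

/-!
# Numerical estimates
-/

set_option autoImplicit false

namespace Pool.Agent.Helper4.AR

/-- the final contradiction -/
theorem num_contra {ε : ℝ} {a b M s N J d Θ Γ K E : ℕ} (hM : 2 ≤ M) (hK : 0 < K)
    (hF1 : (M : ℝ) ^ ((1 + ε) * (s : ℝ)) ≤ ((a : ℝ) * b) ^ 2)
    (hF2 : a * b ≤ 2 * Θ * M ^ (N + J * (d + 1) + 3))
    (hF3 : Θ ≤ Γ ^ E) (hF4 : Γ ^ K ≤ M ^ 2)
    (hF5 : ((2 * N + 2 * J * (d + 1) + 6 : ℕ) : ℝ) ≤ s + ε * s / 2)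
    (hF6 : 16 * (E : ℝ) ≤ ε * K * s) (hF7 : (4 : ℝ) < (M : ℝ) ^ (ε * s / 4)) : False := by
  have hM2 : (2 : ℝ) ≤ M := by exact_mod_cast hM
  have hM0 : (0 : ℝ) < M := by linarith
  have hM1 : (1 : ℝ) ≤ M := by linarith
  have hKR : (0 : ℝ) < K := by exact_mod_cast hK
  -- the bound for `Γ`
  have h1 : (Γ : ℝ) ≤ (M : ℝ) ^ (2 / (K : ℝ)) := by
    have h2 : ((Γ : ℝ) ^ K) ≤ (M : ℝ) ^ 2 := by exact_mod_cast hF4
    have h3 : (((Γ : ℝ) ^ K) ^ (1 / (K : ℝ))) ≤ ((M : ℝ) ^ 2) ^ (1 / (K : ℝ)) :=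
      Real.rpow_le_rpow (by positivity) h2 (by positivity)
    rw [← Real.rpow_natCast (Γ : ℝ) K, ← Real.rpow_mul (by positivity), mul_one_div_cancel hKR.ne',
      Real.rpow_one, ← Real.rpow_natCast (M : ℝ) 2, ← Real.rpow_mul hM0.le] at h3
    convert! h3 using 2
    push_cast
    ring
  have h2 : (Θ : ℝ) ^ 2 ≤ (M : ℝ) ^ (ε * s / 4) := by
    have h3 : (Θ : ℝ) ≤ ((M : ℝ) ^ (2 / (K : ℝ))) ^ E := by
      refine le_trans (by exact_mod_cast hF3) (pow_le_pow_left₀ (by positivity) h1 _)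
    have h4 : (Θ : ℝ) ^ 2 ≤ (((M : ℝ) ^ (2 / (K : ℝ))) ^ E) ^ 2 :=
      pow_le_pow_left₀ (by positivity) h3 2
    refine h4.trans ?_
    rw [← pow_mul, ← Real.rpow_natCast, ← Real.rpow_mul hM0.le]
    refine Real.rpow_le_rpow_of_exponent_le hM1 ?_
    push_cast
    have h5 : 2 / (K : ℝ) * (E * 2) = 16 * E / K / 4 := by
      field_simp
      ring
    have h6 : 16 * (E : ℝ) / K ≤ ε * s := by
      rw [div_le_iff₀ hKR]
      linarith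
    rw [h5]
    linarith
  have h3 : ((a : ℝ) * b) ^ 2 ≤ 4 * (Θ : ℝ) ^ 2 * (M : ℝ) ^ (2 * N + 2 * J * (d + 1) + 6) := by
    have h4 : (a : ℝ) * b ≤ 2 * Θ * (M : ℝ) ^ (N + J * (d + 1) + 3) := by exact_mod_cast hF2
    have h5 : ((a : ℝ) * b) ^ 2 ≤ (2 * Θ * (M : ℝ) ^ (N + J * (d + 1) + 3)) ^ 2 :=
      pow_le_pow_left₀ (by positivity) h4 2
    refine h5.trans (le_of_eq ?_)
    rw [mul_pow, mul_pow, ← pow_mul]
    have e : (N + J * (d + 1) + 3) * 2 = 2 * N + 2 * J * (d + 1) + 6 := by ring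
    rw [e]
    ring
  have h4 : (M : ℝ) ^ (2 * N + 2 * J * (d + 1) + 6) ≤ (M : ℝ) ^ ((s : ℝ) + ε * s / 2) := by
    rw [← Real.rpow_natCast]
    exact Real.rpow_le_rpow_of_exponent_le hM1 hF5
  have h5 : (M : ℝ) ^ ((1 + ε) * (s : ℝ)) ≤
      4 * (M : ℝ) ^ (ε * s / 4) * (M : ℝ) ^ ((s : ℝ) + ε * s / 2) := by
    refine hF1.trans (h3.trans ?_)
    refine mul_le_mul ?_ h4 (by positivity) (by positivity)
    linarith
  have h6 : (M : ℝ) ^ ((1 + ε) * (s : ℝ)) =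
      (M : ℝ) ^ (ε * s / 4) * ((M : ℝ) ^ (ε * s / 4) * (M : ℝ) ^ ((s : ℝ) + ε * s / 2)) := by
    rw [← Real.rpow_add hM0, ← Real.rpow_add hM0]
    congr 1
    ring
  rw [h6, mul_assoc 4] at h5
  have h7 := le_of_mul_le_mul_right h5 (by positivity)
  linarith

/-- bounds for the exponents -/
theorem exp_le {ε : ℝ} {a b M s u v : ℕ} (hM : 2 ≤ M)
    (hF1 : (M : ℝ) ^ ((1 + ε) * (s : ℝ)) ≤ ((a : ℝ) * b) ^ 2) (ha : a ≤ M ^ (u + 1))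
    (hb : b ≤ M ^ (v + 1)) : (1 + ε) * (s : ℝ) ≤ 2 * ((u : ℝ) + v + 2) := by
  have hM2 : (2 : ℝ) ≤ M := by exact_mod_cast hM
  have haR : (a : ℝ) ≤ (M : ℝ) ^ (u + 1) := by exact_mod_cast ha
  have hbR : (b : ℝ) ≤ (M : ℝ) ^ (v + 1) := by exact_mod_cast hb
  have h1 : ((a : ℝ) * b) ^ 2 ≤ (M : ℝ) ^ (2 * ((u : ℝ) + v + 2)) := by
    calc ((a : ℝ) * b) ^ 2 ≤ ((M : ℝ) ^ (u + 1) * (M : ℝ) ^ (v + 1)) ^ 2 :=
          pow_le_pow_left₀ (by positivity) (mul_le_mul haR hbR (by positivity) (by positivity)) 2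
      _ = (M : ℝ) ^ (2 * (u + v + 2)) := by
          rw [← pow_add, ← pow_mul]
          congr 1
          ring
      _ = (M : ℝ) ^ (2 * ((u : ℝ) + v + 2)) := by
          rw [← Real.rpow_natCast]
          congr 1
          push_cast
          ring
  have h2 := hF1.trans h1
  rwa [Real.rpow_le_rpow_left_iff (by linarith)] at h2

/-- the approximations are good enough: all conditions on the parameters -/
theorem params {D L : ℕ} {ε : ℝ} (hD : 1 ≤ D) (hε : 0 < ε) (hε1 : ε ≤ 1)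
    (hL : 4 * (2 * (D + 1) ^ 2 + 1 : ℝ) ≤ ε * L) (hLu : ε * L ≤ 10 * (D + 1 : ℝ) ^ 2)
    (hL2 : 2 ≤ L) {p q r s N J d k : ℕ} (hs : s = p + q + r)
    (hR : 100 * (D + 1 : ℝ) ^ 3 ≤ ε * s) (hk : k = s / L)
    (hN : N = (s + k) / 2 + 1) (hd : 1 ≤ d) (hdD : d ≤ D) (hJ : J = d * (2 * N + d - s) + 1)
    (h1 : (1 + ε) * (s : ℝ) ≤ 2 * ((p : ℝ) + q + 2)) (h2 : (1 + ε) * (s : ℝ) ≤ 2 * ((p : ℝ) + r + 2))
    (h3 : (1 + ε) * (s : ℝ) ≤ 2 * ((q : ℝ) + r + 2)) :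
    (d ≤ N ∧ p ≤ N ∧ q ≤ N ∧ r ≤ N ∧ d ≤ N - p + 1 ∧ d ≤ N - q + 1 ∧ d ≤ N - r + 1 ∧ N < p + q ∧
      N < p + r ∧ N < q + r ∧ s ≤ 2 * N ∧ J ≤ p ∧ J ≤ q ∧ J ≤ r ∧ d + s < 2 * N + 3) ∧
    ((2 * N + 2 * J * (d + 1) + 6 : ℕ) : ℝ) ≤ s + ε * s / 2 ∧ N + 1 ≤ s ∧
    s ≤ 2 * L * (2 * N + 3 - d - s) ∧ 2 * N + 3 - d - s ≤ s := by
  have hLR : (0 : ℝ) < L := by
    have : (2 : ℝ) ≤ L := by exact_mod_cast hL2
    linarith
  have hDR1 : (1 : ℝ) ≤ D := by exact_mod_cast hD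
  have hkL : k * L ≤ s := by rw [hk]; exact Nat.div_mul_le_self s L
  have hkL' : s < (k + 1) * L := by
    rw [hk]
    have := Nat.lt_div_mul_add (a := s) (b := L) (by omega)
    have e : (s / L + 1) * L = s / L * L + L := by ring
    omega
  have hkR : (k : ℝ) * L ≤ s := by exact_mod_cast hkL
  have hkR' : (s : ℝ) < (k + 1) * L := by exact_mod_cast hkL'
  have hD3 : (8 : ℝ) ≤ (D + 1 : ℝ) ^ 3 := by
    have : (2 : ℝ) ^ 3 ≤ (D + 1 : ℝ) ^ 3 := pow_le_pow_left₀ (by norm_num) (by linarith) 3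
    linarith
  have hsR0 : (0 : ℝ) ≤ s := by positivity
  have hs800 : 800 ≤ s := by
    have h4 : ε * s ≤ 1 * s := mul_le_mul_of_nonneg_right hε1 hsR0
    have h5 : (800 : ℝ) ≤ s := by linarith
    exact_mod_cast h5
  have hconst : (4 * (D + 1) * (D + 2) * (D + 1) * 4 + 100 : ℝ) ≤ ε * s := by
    refine le_trans ?_ hR
    have h4 : (D + 2 : ℝ) ≤ 2 * (D + 1) := by linarith
    have h5 : (4 * (D + 1) * (D + 2) * (D + 1) * 4 : ℝ) ≤ 32 * (D + 1 : ℝ) ^ 3 := by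
      have h6 : (0 : ℝ) ≤ (D + 1) ^ 2 := by positivity
      calc (4 * (D + 1) * (D + 2) * (D + 1) * 4 : ℝ) = 16 * ((D + 1) ^ 2 * (D + 2)) := by ring
        _ ≤ 16 * ((D + 1) ^ 2 * (2 * (D + 1))) := by
            have := mul_le_mul_of_nonneg_left h4 h6
            linarith
        _ = 32 * (D + 1 : ℝ) ^ 3 := by ring
    linarith
  have hk2 : 2 * D + 8 ≤ k + 1 := by
    have h4 : 100 * (D + 1 : ℝ) ^ 3 < (k + 1) * (10 * (D + 1 : ℝ) ^ 2) := by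
      calc 100 * (D + 1 : ℝ) ^ 3 ≤ ε * s := hR
        _ < ε * ((k + 1) * L) := mul_lt_mul_of_pos_left hkR' hε
        _ = (k + 1) * (ε * L) := by ring
        _ ≤ (k + 1) * (10 * (D + 1 : ℝ) ^ 2) := mul_le_mul_of_nonneg_left hLu (by positivity)
    have h5 : (10 * (D + 1 : ℝ)) < k + 1 := by
      have h6 : (0 : ℝ) < 10 * (D + 1 : ℝ) ^ 2 := by positivity
      have h7 : (10 * (D + 1 : ℝ)) * (10 * (D + 1 : ℝ) ^ 2) < (k + 1) * (10 * (D + 1 : ℝ) ^ 2) := by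
        calc (10 * (D + 1 : ℝ)) * (10 * (D + 1 : ℝ) ^ 2) = 100 * (D + 1 : ℝ) ^ 3 := by ring
          _ < _ := h4
      exact lt_of_mul_lt_mul_right h7 h6.le
    have h8 : 10 * (D + 1) < k + 1 := by exact_mod_cast h5
    omega
  have hk1 : 2 * k ≤ s := by
    calc 2 * k = k * 2 := by ring
      _ ≤ k * L := Nat.mul_le_mul_left k hL2
      _ ≤ s := hkL
  have h2N : 2 * N ≤ s + k + 2 := by omega
  have h2N' : s + k + 1 ≤ 2 * N := by omega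
  have hJle : J ≤ D * (k + 2 + D) + 1 := by
    rw [hJ]
    have h4 : 2 * N + d - s ≤ k + 2 + D := by omega
    have := Nat.mul_le_mul hdD h4
    omega
  have hkε : 4 * (2 * (D + 1) ^ 2 + 1 : ℝ) * k ≤ ε * s := by
    calc 4 * (2 * (D + 1) ^ 2 + 1 : ℝ) * k ≤ ε * L * k :=
          mul_le_mul_of_nonneg_right hL (by positivity)
      _ = ε * (k * L) := by ring
      _ ≤ ε * s := mul_le_mul_of_nonneg_left hkR hε.le
  -- the main inequality between the exponents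
  obtain ⟨W, hW⟩ : ∃ W, W = D * (k + 2 + D) + k + 2 * D + 10 := ⟨_, rfl⟩
  have hDR : (0 : ℝ) ≤ D := by positivity
  have hkR0 : (0 : ℝ) ≤ k := by positivity
  have hWε : (W : ℝ) + 4 ≤ ε * s := by
    rw [hW]
    push_cast
    nlinarith [mul_nonneg hDR hkR0, mul_nonneg hDR hDR, mul_nonneg (mul_nonneg hDR hDR) hkR0,
      mul_nonneg (mul_nonneg hDR hDR) hDR]
  have hm : ∀ {m u v : ℕ}, s = m + u + v → (1 + ε) * (s : ℝ) ≤ 2 * ((u : ℝ) + v + 2) →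
      2 * m + W ≤ s := by
    intro m u v h4 h5
    have h6 : (s : ℝ) = m + u + v := by exact_mod_cast h4
    have h7 : (2 * m + W : ℝ) ≤ s := by nlinarith
    exact_mod_cast h7
  have hr := hm (m := r) (u := p) (v := q) (by omega) h1
  have hq := hm (m := q) (u := p) (v := r) (by omega) h2
  have hp := hm (m := p) (u := q) (v := r) (by omega) h3
  have hWJ : J + k + 2 * D + 9 ≤ W := by omega
  refine ⟨⟨by omega, by omega, by omega, by omega, by omega, by omega, by omega, by omega, by omega,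
    by omega, by omega, by omega, by omega, by omega, by omega⟩, ?_, by omega, ?_, by omega⟩
  · have h4 : 2 * J * (d + 1) ≤ 2 * (D * (k + 2 + D) + 1) * (D + 1) :=
      Nat.mul_le_mul (by omega) (by omega)
    have h5 : 2 * N + 2 * J * (d + 1) + 6 ≤ s + k + 2 + 2 * (D * (k + 2 + D) + 1) * (D + 1) + 6 := by
      omega
    have h6 : ((2 * N + 2 * J * (d + 1) + 6 : ℕ) : ℝ) ≤
        ((s + k + 2 + 2 * (D * (k + 2 + D) + 1) * (D + 1) + 6 : ℕ) : ℝ) := by exact_mod_cast h5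
    refine h6.trans ?_
    push_cast
    nlinarith [mul_nonneg hDR hkR0, mul_nonneg hDR hDR, mul_nonneg (mul_nonneg hDR hDR) hkR0,
      mul_nonneg (mul_nonneg hDR hDR) hDR]
  · have h4 : k + 1 ≤ 2 * (2 * N + 3 - d - s) := by omega
    calc s ≤ (k + 1) * L := hkL'.le
      _ ≤ 2 * (2 * N + 3 - d - s) * L := Nat.mul_le_mul_right L h4
      _ = 2 * L * (2 * N + 3 - d - s) := by ring

/-- the exponent of the coefficient bound -/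
noncomputable def dl (D : ℕ) (ε : ℝ) : ℝ := ε ^ 2 / (400 * (D + 1 : ℝ))

theorem dl_pos {D : ℕ} {ε : ℝ} (hε : 0 < ε) : 0 < dl D ε := by
  rw [dl]; positivity

theorem pow_le_of_dl {D B M n : ℕ} {ε : ℝ} (hM : 1 ≤ M)
    (hB : (B : ℝ) ≤ (M : ℝ) ^ dl D ε) (hn : (n : ℝ) * ε ^ 2 ≤ 400 * (D + 1 : ℝ)) : B ^ n ≤ M := by
  have hMR : (1 : ℝ) ≤ M := by exact_mod_cast hM
  have h1 : (B : ℝ) ^ n ≤ ((M : ℝ) ^ dl D ε) ^ n := pow_le_pow_left₀ (by positivity) hB n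
  rw [← Real.rpow_natCast ((M : ℝ) ^ dl D ε), ← Real.rpow_mul (by positivity)] at h1
  have h2 : dl D ε * n ≤ 1 := by
    rw [dl, div_mul_eq_mul_div, div_le_one (by positivity)]
    linarith
  have h3 : (M : ℝ) ^ (dl D ε * n) ≤ (M : ℝ) ^ (1 : ℝ) := Real.rpow_le_rpow_of_exponent_le hMR h2
  rw [Real.rpow_one] at h3
  exact_mod_cast h1.trans h3

/-- the constant `L` -/
theorem constL {D : ℕ} {ε : ℝ} (hD : 1 ≤ D) (hε : 0 < ε) (hε1 : ε ≤ 1) : ∃ L : ℕ, 2 ≤ L ∧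
    4 * (2 * (D + 1) ^ 2 + 1 : ℝ) ≤ ε * L ∧ ε * L ≤ 10 * (D + 1 : ℝ) ^ 2 := by
  have hDR1 : (1 : ℝ) ≤ D := by exact_mod_cast hD
  have hD2 : (4 : ℝ) ≤ (D + 1 : ℝ) ^ 2 := by
    have : (2 : ℝ) ^ 2 ≤ (D + 1 : ℝ) ^ 2 := pow_le_pow_left₀ (by norm_num) (by linarith) 2
    linarith
  obtain ⟨L, hL⟩ : ∃ L : ℕ, L = ⌈4 * (2 * (D + 1) ^ 2 + 1 : ℝ) / ε⌉₊ + 2 := ⟨_, rfl⟩
  have hpos : (0 : ℝ) ≤ 4 * (2 * (D + 1) ^ 2 + 1 : ℝ) / ε := by positivity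
  have h1 : 4 * (2 * (D + 1) ^ 2 + 1 : ℝ) / ε ≤ L := by
    have := Nat.le_ceil (4 * (2 * (D + 1) ^ 2 + 1 : ℝ) / ε)
    rw [hL]; push_cast; linarith
  have h2 : (L : ℝ) ≤ 4 * (2 * (D + 1) ^ 2 + 1 : ℝ) / ε + 3 := by
    have := Nat.ceil_lt_add_one hpos
    rw [hL]; push_cast; linarith
  refine ⟨L, by omega, ?_, ?_⟩
  · rw [div_le_iff₀ hε] at h1
    linarith
  · have h4 := mul_le_mul_of_nonneg_left h2 hε.le
    have h5 : ε * (4 * (2 * (D + 1) ^ 2 + 1 : ℝ) / ε + 3) = 4 * (2 * (D + 1) ^ 2 + 1 : ℝ) + 3 * ε := by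
      field_simp
    linarith

/-- the constant `K` -/
theorem constK {D : ℕ} {ε : ℝ} (hε : 0 < ε) (hε1 : ε ≤ 1) : ∃ K : ℕ, 1 ≤ K ∧
    336 * (D + 1 : ℝ) ≤ ε ^ 2 * K ∧ (K : ℝ) * ε ^ 2 ≤ 400 * (D + 1 : ℝ) ∧
    ((16 * D : ℕ) : ℝ) * ε ^ 2 ≤ 400 * (D + 1 : ℝ) := by
  have hD0 : (0 : ℝ) ≤ D := by positivity
  have hε2 : ε ^ 2 ≤ 1 := by
    have : ε ^ 2 ≤ 1 ^ 2 := pow_le_pow_left₀ hε.le hε1 2
    linarith
  have hε20 : 0 < ε ^ 2 := by positivity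
  obtain ⟨K, hK⟩ : ∃ K : ℕ, K = ⌈336 * (D + 1 : ℝ) / ε ^ 2⌉₊ + 1 := ⟨_, rfl⟩
  have hposK : (0 : ℝ) ≤ 336 * (D + 1 : ℝ) / ε ^ 2 := by positivity
  have h4 : 336 * (D + 1 : ℝ) / ε ^ 2 ≤ K := by
    have := Nat.le_ceil (336 * (D + 1 : ℝ) / ε ^ 2)
    rw [hK]; push_cast; linarith
  have h5 : (K : ℝ) ≤ 336 * (D + 1 : ℝ) / ε ^ 2 + 2 := by
    have := Nat.ceil_lt_add_one hposK
    rw [hK]; push_cast; linarith
  refine ⟨K, by omega, ?_, ?_, ?_⟩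
  · rw [div_le_iff₀ hε20] at h4
    linarith
  · have h6 := mul_le_mul_of_nonneg_right h5 hε20.le
    have h7 : (336 * (D + 1 : ℝ) / ε ^ 2 + 2) * ε ^ 2 = 336 * (D + 1 : ℝ) + 2 * ε ^ 2 := by
      field_simp
    rw [h7] at h6
    linarith
  · push_cast
    have : 16 * (D : ℝ) * ε ^ 2 ≤ 16 * (D : ℝ) * 1 := mul_le_mul_of_nonneg_left hε2 (by positivity)
    linarith

/-- the exponent `E` -/
theorem expE {D n L K s J e : ℕ} {ε : ℝ} (hD : 1 ≤ D) (hn : 1 ≤ n) (hnD : n ≤ D) (hε : 0 < ε)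
    (hε1 : ε ≤ 1) (hLu : ε * L ≤ 10 * (n + 1 : ℝ) ^ 2) (hK : 336 * (D + 1 : ℝ) ≤ ε ^ 2 * K)
    (hJ : J + 2 ≤ s) (he : e = L * s / n + 1) :
    16 * ((J + 1 + e : ℕ) : ℝ) ≤ ε * K * s := by
  have hDR1 : (1 : ℝ) ≤ D := by exact_mod_cast hD
  have hnR1 : (1 : ℝ) ≤ n := by exact_mod_cast hn
  have hnDR : (n : ℝ) ≤ D := by exact_mod_cast hnD
  have hs0 : (0 : ℝ) ≤ s := by positivity
  have h1 : (e : ℝ) ≤ L * s / n + 1 := by
    rw [he]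
    push_cast
    have := @Nat.cast_div_le ℝ _ _ _ (L * s) n
    push_cast at this
    linarith
  have h2 : ε * (L * s / n) ≤ 20 * (D + 1 : ℝ) * s := by
    have h3 : (n + 1 : ℝ) ^ 2 ≤ 2 * n * (n + 1) := by nlinarith
    have h4 : ε * L ≤ 20 * (n + 1 : ℝ) * n := by nlinarith
    have h5 : ε * (L * s / n) = (ε * L) * s / n := by ring
    rw [h5, div_le_iff₀ (by linarith)]
    have h6 : (ε * L) * s ≤ (20 * (n + 1 : ℝ) * n) * s := mul_le_mul_of_nonneg_right h4 hs0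
    have h7 : (20 * (n + 1 : ℝ) * n) * s ≤ (20 * (D + 1 : ℝ) * s) * n := by
      have h8 : (n + 1 : ℝ) * (n * s) ≤ (D + 1 : ℝ) * (n * s) :=
        mul_le_mul_of_nonneg_right (by linarith) (by positivity)
      nlinarith
    linarith
  have h3 : ((J + 1 + e : ℕ) : ℝ) ≤ s + (L * s / n) := by
    have h4 : (J : ℝ) + 2 ≤ s := by exact_mod_cast hJ
    push_cast
    linarith
  have h4 : ε * ((J + 1 + e : ℕ) : ℝ) ≤ 21 * (D + 1 : ℝ) * s := by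
    have h5 := mul_le_mul_of_nonneg_left h3 hε.le
    have h6 : ε * s ≤ 1 * s := mul_le_mul_of_nonneg_right hε1 hs0
    nlinarith
  have h5 : ε * (16 * ((J + 1 + e : ℕ) : ℝ)) ≤ ε * (ε * K * s) := by
    have h6 : 336 * (D + 1 : ℝ) * s ≤ (ε ^ 2 * K) * s := mul_le_mul_of_nonneg_right hK hs0
    nlinarith
  exact le_of_mul_le_mul_left h5 hε

end Pool.Agent.Helper4.AR
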