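import Mathlib
import Pool.Agent.Helper4.AR.Factor
import Pool.Agent.Helper4.AR.Small

/-!
# Singular points of a curve have small height (resultants)
-/

set_option autoImplicit false
set_option linter.unusedSectionVars false

namespace Pool.Agent.Helper4.AR

open MvPolynomial

theorem ln_monomial (n : ℕ) (c : ℤ) : ln (Polynomial.monomial n c) = c.natAbs := by
  rw [ln_eq (T := {n}) (Polynomial.support_monomial_subset _ _), Finset.sum_singleton,
    Polynomial.coeff_monomial, if_pos rfl]

theorem ln_mul (f g : Polynomial ℤ) : ln (f * g) ≤ ln f * ln g := by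
  have h1 : f * g = ∑ m ∈ f.support, ∑ n ∈ g.support,
      Polynomial.monomial (m + n) (f.coeff m * g.coeff n) := by
    conv_lhs => rw [f.as_sum_support, g.as_sum_support]
    rw [Finset.sum_mul]
    refine Finset.sum_congr rfl fun m _ => ?_
    rw [Finset.mul_sum]
    refine Finset.sum_congr rfl fun n _ => ?_
    rw [Polynomial.monomial_mul_monomial]
  rw [h1]
  refine (ln_sum _ _).trans ?_
  rw [ln, Finset.sum_mul]
  refine Finset.sum_le_sum fun m _ => ?_
  refine (ln_sum _ _).trans ?_
  rw [ln, Finset.mul_sum]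
  refine Finset.sum_le_sum fun n _ => ?_
  rw [ln_monomial, Int.natAbs_mul]

theorem ln_prod {ι : Type*} (s : Finset ι) (f : ι → Polynomial ℤ) {S : ℕ}
    (h : ∀ i ∈ s, ln (f i) ≤ S) : ln (∏ i ∈ s, f i) ≤ S ^ s.card := by
  classical
  induction s using Finset.induction_on with
  | empty =>
    rw [Finset.prod_empty, Finset.card_empty, pow_zero, ← Polynomial.C_1,
      ← Polynomial.monomial_zero_left, ln_monomial]
    simp
  | insert a s ha ih =>
    rw [Finset.prod_insert ha, Finset.card_insert_of_notMem ha, pow_succ, mul_comm (S ^ _)]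
    exact (ln_mul _ _).trans (Nat.mul_le_mul (h a (Finset.mem_insert_self a s))
      (ih fun i hi => h i (Finset.mem_insert_of_mem hi)))

theorem ln_neg (f : Polynomial ℤ) : ln (-f) = ln f := by
  rw [ln, ln, Polynomial.support_neg]
  refine Finset.sum_congr rfl fun m _ => ?_
  rw [Polynomial.coeff_neg, Int.natAbs_neg]

theorem coeff_le_ln (f : Polynomial ℤ) (n : ℕ) : (f.coeff n).natAbs ≤ ln f := by
  by_cases h : n ∈ f.support
  · exact Finset.single_le_sum (f := fun s => (f.coeff s).natAbs) (fun _ _ => Nat.zero_le _) h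
  · rw [Polynomial.notMem_support_iff.mp h]; simp

theorem ln_det {n : ℕ} (M : Matrix (Fin n) (Fin n) (Polynomial ℤ)) {S : ℕ}
    (h : ∀ i j, ln (M i j) ≤ S) : ln M.det ≤ n.factorial * S ^ n := by
  classical
  rw [Matrix.det_apply]
  refine (ln_sum _ _).trans ?_
  have h1 : ∀ σ : Equiv.Perm (Fin n), ln (Equiv.Perm.sign σ • ∏ i, M (σ i) i) ≤ S ^ n := by
    intro σ
    have h2 : ln (∏ i, M (σ i) i) ≤ S ^ n := by
      have := ln_prod Finset.univ (fun i => M (σ i) i) (S := S) fun i _ => h _ _
      rwa [Finset.card_univ, Fintype.card_fin] at this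
    rcases Int.units_eq_one_or (Equiv.Perm.sign σ) with h3 | h3
    · rw [h3, one_smul]; exact h2
    · rw [h3, Units.neg_smul, one_smul, ln_neg]; exact h2
  refine (Finset.sum_le_card_nsmul _ _ (S ^ n) fun σ _ => h1 σ).trans (le_of_eq ?_)
  rw [Finset.card_univ, Fintype.card_perm, Fintype.card_fin, smul_eq_mul]

theorem ln_resultant (f g : Polynomial (Polynomial ℤ)) (m n : ℕ) {S : ℕ}
    (hf : ∀ i, ln (f.coeff i) ≤ S) (hg : ∀ i, ln (g.coeff i) ≤ S) :
    ln (Polynomial.resultant f g m n) ≤ (m + n).factorial * S ^ (m + n) := by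
  rw [Polynomial.resultant]
  refine ln_det _ fun i j => ?_
  rw [Polynomial.sylvester, Matrix.of_apply]
  have h0 : ln 0 ≤ S := by simp [ln]
  induction j using Fin.addCases with
  | left j =>
    rw [Fin.addCases_left]
    split_ifs
    · exact hg _
    · exact h0
  | right j =>
    rw [Fin.addCases_right]
    split_ifs
    · exact hf _
    · exact h0

/-- dehomogenization -/
noncomputable def psi : A →+* Polynomial (Polynomial ℤ) :=
  eval₂Hom (Polynomial.C.comp Polynomial.C) fun i => if i = 0 then Polynomial.C Polynomial.X else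
    if i = 1 then Polynomial.X else 1

theorem psi_monomial (m : Fin 3 →₀ ℕ) (c : ℤ) :
    psi (monomial m c) = Polynomial.monomial (m 1) (Polynomial.monomial (m 0) c) := by
  rw [psi, coe_eval₂Hom, eval₂_monomial, Finsupp.prod_fintype _ _ (by simp), Fin.prod_univ_three]
  rw [if_pos rfl, if_neg (by decide), if_pos rfl, if_neg (by decide), if_neg (by decide)]
  rw [one_pow, mul_one, RingHom.comp_apply, ← mul_assoc, ← map_pow, ← map_mul,
    Polynomial.C_mul_X_pow_eq_monomial, Polynomial.C_mul_X_pow_eq_monomial]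

theorem psi_eq (F : A) : psi F =
    ∑ m ∈ F.support, Polynomial.monomial (m 1) (Polynomial.monomial (m 0) (F.coeff m)) := by
  conv_lhs => rw [← support_sum_monomial_coeff F, map_sum]
  exact Finset.sum_congr rfl fun m _ => psi_monomial m _

theorem psi_coeff_ln (F : A) (j : ℕ) : ln ((psi F).coeff j) ≤ nm F := by
  rw [psi_eq, Polynomial.finsetSum_coeff, nm]
  refine (ln_sum _ _).trans (Finset.sum_le_sum fun m _ => ?_)
  rw [Polynomial.coeff_monomial]
  split_ifs
  · rw [ln_monomial]
  · simp [ln]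

theorem psi_coeff {F : A} {n : ℕ} (hF : F.IsHomogeneous n) {m : Fin 3 →₀ ℕ} (hm : m ∈ F.support) :
    ((psi F).coeff (m 1)).coeff (m 0) = F.coeff m := by
  classical
  rw [psi_eq, Polynomial.finsetSum_coeff, Polynomial.finsetSum_coeff, Finset.sum_eq_single m]
  · rw [Polynomial.coeff_monomial, if_pos rfl, Polynomial.coeff_monomial, if_pos rfl]
  · intro m' hm' hne
    rw [Polynomial.coeff_monomial]
    split_ifs with h1
    · rw [Polynomial.coeff_monomial, if_neg]
      intro h2
      apply hne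
      have h3 := hom_le hF hm
      have h4 := hom_le hF hm'
      ext i
      fin_cases i
      · exact h2
      · exact h1
      · show m' 2 = m 2
        omega
    · rw [Polynomial.coeff_zero]
  · intro h
    exact absurd hm h

theorem psi_ne {F : A} {n : ℕ} (hF : F.IsHomogeneous n) (h : F ≠ 0) : psi F ≠ 0 := by
  intro h0
  obtain ⟨m, hm⟩ := support_nonempty.mpr h
  have h1 := psi_coeff hF hm
  rw [h0, Polynomial.coeff_zero, Polynomial.coeff_zero] at h1
  exact (mem_support_iff.mp hm) h1.symm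

theorem psi_natDegree (F : A) : (psi F).natDegree ≤ F.totalDegree := by
  rw [psi_eq]
  refine Polynomial.natDegree_sum_le_of_forall_le _ _ fun m hm => ?_
  refine (Polynomial.natDegree_monomial_le _).trans ?_
  have := le_of_totalDegree le_rfl hm
  omega

theorem psi_pderiv (F : A) : psi (pderiv 1 F) = Polynomial.derivative (psi F) := by
  induction F using MvPolynomial.induction_on with
  | C a => simp [psi]
  | add p q hp hq => rw [map_add, map_add, map_add, Polynomial.derivative_add, hp, hq]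
  | mul_X p k hp =>
    rw [Derivation.leibniz, map_add, smul_eq_mul, smul_eq_mul, map_mul, map_mul, map_mul,
      Polynomial.derivative_mul, hp]
    have h1 : psi (pderiv 1 (X k)) = Polynomial.derivative (psi (X k)) := by
      rw [pderiv_X]
      simp only [psi, eval₂Hom_X']
      by_cases h : k = 1
      · subst h; simp
      · rw [Pi.single_eq_of_ne h, map_zero]
        split_ifs
        · rw [Polynomial.derivative_C]
        · exact Polynomial.derivative_one.symm
    rw [h1]
    ring

/-- the value of a form -/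
theorem eval_psi {F : A} {n : ℕ} (hF : F.IsHomogeneous n) {x y z : ℚ} (hz : z ≠ 0) :
    Polynomial.eval₂ (Polynomial.eval₂RingHom (Int.castRingHom ℚ) (x / z)) (y / z) (psi F) * z ^ n =
      eval₂ (Int.castRingHom ℚ) ![x, y, z] F := by
  conv_rhs => rw [← support_sum_monomial_coeff F, eval₂_sum]
  rw [psi_eq, Polynomial.eval₂_finsetSum, Finset.sum_mul]
  refine Finset.sum_congr rfl fun m hm => ?_
  rw [Polynomial.eval₂_monomial, Polynomial.coe_eval₂RingHom, Polynomial.eval₂_monomial,
    eval₂_monomial, Finsupp.prod_fintype _ _ (by simp), Fin.prod_univ_three]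
  have h1 := hom_le hF hm
  show (Int.castRingHom ℚ (F.coeff m)) * (x / z) ^ m 0 * (y / z) ^ m 1 * z ^ n =
    Int.castRingHom ℚ (F.coeff m) * (x ^ m 0 * y ^ m 1 * z ^ m 2)
  rw [← h1, pow_add, pow_add, div_pow, div_pow]
  field_simp

theorem eval_int {F : A} (x y z : ℤ) : eval₂ (Int.castRingHom ℚ) ![(x : ℚ), (y : ℚ), (z : ℚ)] F =
    ((eval ![x, y, z] F : ℤ) : ℚ) := by
  have h : (![(x : ℚ), (y : ℚ), (z : ℚ)] : Fin 3 → ℚ) = fun i => ((![x, y, z] i : ℤ) : ℚ) := by
    funext i
    fin_cases i <;> rfl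
  rw [h]
  exact (eval₂_comp _ _ _).symm

/-- **Common zeros have small height** (bound by the resultant) -/
theorem res_small {P w : A} {d m S : ℕ} (hPp : Prime P) (hP : P.IsHomogeneous d) (hd : 0 < d)
    (hPd : d ≤ degreeOf 1 P) (hw : w.IsHomogeneous m) (hm : 1 ≤ m) (hPw : ¬ P ∣ w)
    (hder : w = pderiv 1 P) (hwS : nm w ≤ S) (hPS : nm P ≤ S) (hS : 1 ≤ S) {x y z : ℕ} (hx : 0 < x)
    (hz : 0 < z) (h1 : eval ![(x : ℤ), (y : ℤ), (z : ℤ)] P = 0)
    (h2 : eval ![(x : ℤ), (y : ℤ), (z : ℤ)] w = 0) (hcop : Nat.Coprime x z) :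
    x ≤ (d + m).factorial * S ^ (d + m) ∧ z ≤ (d + m).factorial * S ^ (d + m) := by
  have hzQ : (z : ℚ) ≠ 0 := by
    have : z ≠ 0 := by omega
    exact_mod_cast this
  obtain ⟨f, hf⟩ : ∃ f, f = psi P := ⟨_, rfl⟩
  obtain ⟨g, hg⟩ : ∃ g, g = psi w := ⟨_, rfl⟩
  have hw0 : w ≠ 0 := fun h => hPw (h ▸ dvd_zero _)
  have hg0 : g ≠ 0 := by rw [hg]; exact psi_ne hw hw0
  have hfg : g = Polynomial.derivative f := by rw [hg, hf, hder, psi_pderiv]
  have hfd : f.natDegree ≠ 0 := by
    intro h
    apply hg0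
    rw [hfg, Polynomial.eq_C_of_natDegree_eq_zero h, Polynomial.derivative_C]
  -- a nonzero element of the ideal without `Y`
  obtain ⟨t, α, β, h3, h4, -⟩ := bezout (S := S) hPp hP hd hPd hw hm hPw hS
    (fun s => (coeff_le_nm w s).trans hwS) (fun s => (coeff_le_nm P s).trans hPS)
  obtain ⟨ρ, hρ⟩ : ∃ ρ : Polynomial ℤ, psi (pl (d * m) 1 t) = Polynomial.C ρ := by
    have h5 : Polynomial.derivative (psi (pl (d * m) 1 t)) = 0 := by
      rw [← psi_pderiv, pl_one_pderiv, map_zero]
    exact ⟨_, Polynomial.eq_C_of_derivative_eq_zero h5⟩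
  have hρ0 : ρ ≠ 0 := by
    rintro rfl
    rw [Polynomial.C_0] at hρ
    exact psi_ne (pl_hom _ _ _) h4 hρ
  have hid : f * psi α + g * psi β = Polynomial.C ρ := by
    rw [← hρ, h3, map_add, map_mul, map_mul, hf, hg]
  -- the resultant
  obtain ⟨R, hR⟩ : ∃ R, R = Polynomial.resultant f g := ⟨_, rfl⟩
  have hR0 : R ≠ 0 := by
    intro hR0
    let K := FractionRing (Polynomial ℤ)
    let φ : Polynomial ℤ →+* K := algebraMap _ _
    have hφ : Function.Injective φ := IsFractionRing.injective (Polynomial ℤ) K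
    have h5 : IsCoprime (f.map φ) (g.map φ) := by
      have h6 : φ ρ ≠ 0 := fun h => hρ0 (hφ (by rw [h, map_zero]))
      refine ⟨Polynomial.C (φ ρ)⁻¹ * (psi α).map φ, Polynomial.C (φ ρ)⁻¹ * (psi β).map φ, ?_⟩
      have h7 := congrArg (Polynomial.map φ) hid
      rw [Polynomial.map_add, Polynomial.map_mul, Polynomial.map_mul, Polynomial.map_C] at h7
      have h8 : Polynomial.C (φ ρ)⁻¹ * Polynomial.C (φ ρ) = 1 := by
        rw [← Polynomial.C_mul, inv_mul_cancel₀ h6, Polynomial.C_1]
      linear_combination Polynomial.C (φ ρ)⁻¹ * h7 + h8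
    apply Polynomial.resultant_ne_zero _ _ h5
    rw [Polynomial.natDegree_map_eq_of_injective hφ, Polynomial.natDegree_map_eq_of_injective hφ,
      Polynomial.resultant_map_map, ← hR, hR0, map_zero]
  have hRln : ln R ≤ (d + m).factorial * S ^ (d + m) := by
    have h5 : ln R ≤ (f.natDegree + g.natDegree).factorial * S ^ (f.natDegree + g.natDegree) := by
      rw [hR]
      exact ln_resultant f g _ _ (fun i => by rw [hf]; exact (psi_coeff_ln P i).trans hPS)
        (fun i => by rw [hg]; exact (psi_coeff_ln w i).trans hwS)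
    have h6 : f.natDegree + g.natDegree ≤ d + m := by
      rw [hf, hg]
      have a1 := psi_natDegree P
      have a2 := psi_natDegree w
      have a3 := hP.totalDegree_le
      have a4 := hw.totalDegree_le
      omega
    exact h5.trans (Nat.mul_le_mul (Nat.factorial_le h6) (Nat.pow_le_pow_right hS h6))
  -- the value of the resultant
  obtain ⟨u, v, -, -, huv⟩ := Polynomial.exists_mul_add_mul_eq_C_resultant f g le_rfl le_rfl
    (Or.inl hfd)
  rw [← hR] at huv
  obtain ⟨e, he⟩ : ∃ e : Polynomial (Polynomial ℤ) →+* ℚ, e = Polynomial.eval₂RingHom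
    (Polynomial.eval₂RingHom (Int.castRingHom ℚ) ((x : ℚ) / z)) ((y : ℚ) / z) := ⟨_, rfl⟩
  have hval : ∀ {F : A} {k : ℕ}, F.IsHomogeneous k → eval ![(x : ℤ), (y : ℤ), (z : ℤ)] F = 0 →
      e (psi F) = 0 := by
    intro F k hF hF0
    have h5 := eval_psi hF (x := (x : ℚ)) (y := (y : ℚ)) hzQ
    have h6 := eval_int (F := F) (x : ℤ) (y : ℤ) (z : ℤ)
    rw [hF0, Int.cast_zero] at h6
    have h7 : eval₂ (Int.castRingHom ℚ) ![(x : ℚ), (y : ℚ), (z : ℚ)] F = 0 := by
      rw [← h6]; norm_cast
    rw [h7] at h5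
    rw [he, Polynomial.coe_eval₂RingHom]
    exact (mul_eq_zero.mp h5).resolve_right (pow_ne_zero _ hzQ)
  have hRe : Polynomial.eval₂ (Int.castRingHom ℚ) ((x : ℚ) / z) R = 0 := by
    have h5 := congrArg e huv
    rw [map_add, map_mul, map_mul, hf, hg, hval hP h1, hval hw h2, zero_mul, zero_mul, add_zero] at h5
    rw [he, Polynomial.coe_eval₂RingHom, Polynomial.eval₂_C, Polynomial.coe_eval₂RingHom] at h5
    exact h5.symm
  have hsum : ∑ a ∈ Finset.range (R.natDegree + 1), R.coeff a * (z : ℤ) ^ (R.natDegree - a) *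
      (x : ℤ) ^ a = 0 := by
    rw [Polynomial.eval₂_eq_sum_range] at hRe
    have h5 : (∑ a ∈ Finset.range (R.natDegree + 1), ((R.coeff a : ℤ) : ℚ) *
        (z : ℚ) ^ (R.natDegree - a) * (x : ℚ) ^ a) = 0 := by
      rw [← mul_zero ((z : ℚ) ^ R.natDegree), ← hRe, Finset.mul_sum]
      refine Finset.sum_congr rfl fun a ha => ?_
      rw [Finset.mem_range] at ha
      have h6 : (z : ℚ) ^ R.natDegree = (z : ℚ) ^ (R.natDegree - a) * (z : ℚ) ^ a := by
        rw [← pow_add]; congr 1; omega
      rw [h6, div_pow, eq_intCast]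
      field_simp
    exact_mod_cast h5
  have hcopZ : IsCoprime (x : ℤ) (z : ℤ) := Nat.isCoprime_iff_coprime.mpr hcop
  have hcoefs : ∀ a, (R.coeff a).natAbs ≤ (d + m).factorial * S ^ (d + m) := fun a =>
    (coeff_le_ln R a).trans hRln
  have hRzero : (∀ a ≤ R.natDegree, R.coeff a = 0) → False := by
    intro h
    have := h R.natDegree le_rfl
    exact hR0 (Polynomial.leadingCoeff_eq_zero.mp this)
  constructor
  · by_contra hcon
    push Not at hcon
    exact hRzero (binary_small R.natDegree (c := fun a => R.coeff a) hcopZ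
      (fun a => lt_of_le_of_lt (hcoefs a) (by rw [Int.natAbs_natCast]; exact hcon)) hsum)
  · by_contra hcon
    push Not at hcon
    have h7 := binary_small R.natDegree (c := fun a => R.coeff (R.natDegree - a)) hcopZ.symm
      (fun a => lt_of_le_of_lt (hcoefs _) (by rw [Int.natAbs_natCast]; exact hcon)) (by
        rw [← hsum, ← Finset.sum_range_reflect]
        refine Finset.sum_congr rfl fun a ha => ?_
        rw [Finset.mem_range] at ha
        have e1 : R.natDegree + 1 - 1 - a = R.natDegree - a := by omega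
        have e2 : R.natDegree - (R.natDegree - a) = a := by omega
        rw [e1, e2]
        ring)
    refine hRzero fun a ha => ?_
    have h8 := h7 (R.natDegree - a) (by omega)
    rwa [Nat.sub_sub_self ha] at h8

end Pool.Agent.Helper4.AR
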