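import Mathlib
import Pool.Agent.Helper4.AR.Core
import Pool.Agent.Helper4.AR.Factor
import Pool.Agent.Helper4.AR.Sing
import Pool.Agent.Helper4.AR.Num

/-!
# No solutions with a small relation over large bases
-/

set_option autoImplicit false
set_option linter.unusedSectionVars false

namespace Pool.Agent.Helper4.AR

open MvPolynomial

theorem card_all_le (N : ℕ) : (II N (N + 1)).card ≤ (N + 1) ^ 2 := by
  rw [card_II]
  refine (Finset.sum_le_card_nsmul _ _ (N + 1) fun c _ => by omega).trans ?_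
  rw [Finset.card_range, smul_eq_mul, sq]

theorem eval_pderiv_one {Q : A} {d : ℕ} (hQ : Q.IsHomogeneous d) :
    eval (Pi.single 1 (1 : ℤ)) (pderiv 1 Q) = d * eval (Pi.single 1 (1 : ℤ)) Q := by
  have h := congrArg (eval (Pi.single 1 (1 : ℤ))) hQ.sum_X_mul_pderiv
  rw [Fin.sum_univ_three, map_add, map_add, map_mul, map_mul, map_mul, eval_X, eval_X, eval_X,
    Pi.single_eq_same, Pi.single_eq_of_ne (by decide), Pi.single_eq_of_ne (by decide), zero_mul,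
    zero_mul, one_mul, zero_add, add_zero, nsmul_eq_mul, map_mul, map_natCast] at h
  exact h

/-- the constant in the bound for the factors -/
def C1 (D : ℕ) : ℕ := (D + 1) ^ 2 * (2 ^ ((D + 1) * D) * (D + 1) ^ 2)

theorem C1_pos (D : ℕ) : 1 ≤ C1 D := by
  rw [C1]
  exact Nat.mul_pos (by positivity) (by positivity)

theorem C1_mono {d D B : ℕ} (h : d ≤ D) :
    (d + 1) ^ 2 * (2 ^ ((d + 1) * d) * ((d + 1) ^ 2 * B)) ≤ C1 D * B := by
  have h1 : (d + 1) ^ 2 ≤ (D + 1) ^ 2 := Nat.pow_le_pow_left (by omega) 2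
  have h2 : 2 ^ ((d + 1) * d) ≤ 2 ^ ((D + 1) * D) :=
    Nat.pow_le_pow_right (by norm_num) (Nat.mul_le_mul (by omega) h)
  calc (d + 1) ^ 2 * (2 ^ ((d + 1) * d) * ((d + 1) ^ 2 * B))
      ≤ (D + 1) ^ 2 * (2 ^ ((D + 1) * D) * ((D + 1) ^ 2 * B)) :=
        Nat.mul_le_mul h1 (Nat.mul_le_mul h2 (Nat.mul_le_mul_right _ h1))
    _ = C1 D * B := by rw [C1]; ring

/-- the singular points of the curve have small height -/
theorem singular_small {Q : A} {d D cP : ℕ} (hprime : Prime Q) (hom : Q.IsHomogeneous d)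
    (pos : 0 < d) (hdD : d ≤ D) (nv : NV Q) {x y z : ℕ} (hx : 0 < x) (hz : 0 < z) (hcP1 : 1 ≤ cP)
    (hcP : nm Q ≤ cP)
    (cxz : Nat.Coprime x z) (hroot : eval ![(x : ℤ), (y : ℤ), (z : ℤ)] Q = 0)
    (hsing : eval ![(x : ℤ), (y : ℤ), (z : ℤ)] (pderiv 1 Q) = 0) :
    x ≤ (2 * D).factorial * (D * cP) ^ (2 * D) ∧ z ≤ (2 * D).factorial * (D * cP) ^ (2 * D) := by
  have hD : 1 ≤ D := by omega
  have h1 : eval (Pi.single 1 (1 : ℤ)) (pderiv 1 Q) ≠ 0 := by
    rw [eval_pderiv_one hom]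
    exact mul_ne_zero (by exact_mod_cast pos.ne') (nv 1)
  have h2 : (pderiv 1 Q).IsHomogeneous (d - 1) := hom.pderiv
  have hne : pderiv 1 Q ≠ 0 := by
    intro h
    rw [h, map_zero] at h1
    exact h1 rfl
  have hd2 : 1 ≤ d - 1 := by
    by_contra hcon
    have h3 : d - 1 = 0 := by omega
    rw [h3] at h2
    have h4 : pderiv 1 Q = C ((pderiv 1 Q).coeff 0) := by
      rw [← totalDegree_eq_zero_iff_eq_C]
      have := h2.totalDegree_le
      omega
    rw [h4, eval_C] at hsing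
    rw [h4, eval_C] at h1
    exact h1 hsing
  have hndvd : ¬ Q ∣ pderiv 1 Q := by
    intro hdvd
    apply hne
    refine zero_of_dvd (nv.degreeOf hom pos) (Or.inr ?_) hdvd
    refine lt_of_le_of_lt (degreeOf_le_totalDegree _ _) ?_
    have := h2.totalDegree_le
    omega
  have hDc : cP ≤ D * cP := Nat.le_mul_of_pos_left _ hD
  obtain ⟨h3, h4⟩ := res_small (S := D * cP) hprime hom pos (nv.degreeOf hom pos) h2 hd2 hndvd rfl
    ((nm_pderiv hom.totalDegree_le 1).trans (Nat.mul_le_mul hdD hcP)) (hcP.trans hDc) (by omega)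
    hx hz hroot hsing cxz
  have h6 : (d + (d - 1)).factorial * (D * cP) ^ (d + (d - 1)) ≤
      (2 * D).factorial * (D * cP) ^ (2 * D) :=
    Nat.mul_le_mul (Nat.factorial_le (by omega)) (Nat.pow_le_pow_right (by omega) (by omega))
  exact ⟨h3.trans h6, h4.trans h6⟩

/-- **No small relation over large bases.** -/
theorem large {D : ℕ} (hD : 1 ≤ D) {ε : ℝ} (hε : 0 < ε) (hε1 : ε ≤ 1) : ∃ K : ℕ, 1 ≤ K ∧
    ∀ (M B s : ℕ), 2 ≤ M → 1 ≤ B → (B : ℝ) ≤ (M : ℝ) ^ dl D ε → (K * s) ^ K ≤ M →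
    100 * (D + 1 : ℝ) ^ 3 ≤ ε * s → ∀ (P : A) (d : ℕ), P.IsHomogeneous d →
    d ≤ D → NV P → (∀ m, (P.coeff m).natAbs ≤ B) → ∀ x y z x0 y0 z0 p q r : ℕ, s = p + q + r →
    0 < x → 0 < y → 0 < z → 0 < y0 → Nat.Coprime x y → Nat.Coprime x z →
    Nat.Coprime y z → x ≤ M → y ≤ M → z ≤ M → x0 ≤ M → y0 ≤ M → z0 ≤ M →
    x ^ p * x0 + y ^ q * y0 = z ^ r * z0 →
    (M : ℝ) ^ ((1 + ε) * (s : ℝ)) ≤ (((x ^ p * x0 : ℕ) : ℝ) * ((y ^ q * y0 : ℕ) : ℝ)) ^ 2 →
    eval ![(x : ℤ), (y : ℤ), (z : ℤ)] P = 0 → False := by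
  obtain ⟨K2, hK21, hK2l, hK2u, hDu⟩ := constK (D := D) hε hε1
  obtain ⟨K, hK⟩ : ∃ K, K = 2 * K2 + 2 * (D + 1) ^ 2 * C1 D + 16 * D + 8 + (2 * D).factorial +
    D * C1 D := ⟨_, rfl⟩
  refine ⟨K, by omega, ?_⟩
  intro M B s hM hB hBdl hKs hRs P d hP hdD hNV hPB x y z x0 y0 z0 p q r hs hx hy hz hy0 cxy cxz
    cyz hxM hyM hzM hx0M hy0M hz0M heq hF1 hroot
  have hM1 : 1 ≤ M := by omega
  have hBK2 : B ^ K2 ≤ M := pow_le_of_dl hM1 hBdl hK2u
  have hBc2 : B ^ (16 * D) ≤ M := pow_le_of_dl hM1 hBdl hDu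
  have hDR1 : (1 : ℝ) ≤ D := by exact_mod_cast hD
  have hD3 : (8 : ℝ) ≤ (D + 1 : ℝ) ^ 3 := by
    have : (2 : ℝ) ^ 3 ≤ (D + 1 : ℝ) ^ 3 := pow_le_pow_left₀ (by norm_num) (by linarith) 3
    linarith
  have hs800 : 800 ≤ s := by
    have h4 : ε * s ≤ 1 * s := mul_le_mul_of_nonneg_right hε1 (by positivity)
    have h5 : (800 : ℝ) ≤ s := by linarith
    exact_mod_cast h5
  obtain ⟨Q, n, hprime, hnd, hn0, hQn, hNQ, hQroot, hQnm⟩ := prime_factor hP hNV hroot hPB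
  have hnD : n ≤ D := hnd.trans hdD
  obtain ⟨cP, hcP⟩ : ∃ cP, cP = C1 D * B := ⟨_, rfl⟩
  have hcPQ : nm Q ≤ cP := by
    rw [hcP]
    exact hQnm.trans (C1_mono hdD)
  have hC1 := C1_pos D
  have hcP1 : 1 ≤ cP := by rw [hcP]; exact Nat.mul_pos hC1 hB
  obtain ⟨a, ha⟩ : ∃ a, a = x ^ p * x0 := ⟨_, rfl⟩
  obtain ⟨b, hb⟩ : ∃ b, b = y ^ q * y0 := ⟨_, rfl⟩
  obtain ⟨c, hc⟩ : ∃ c, c = z ^ r * z0 := ⟨_, rfl⟩
  have hpowM : ∀ {v w k : ℕ}, v ≤ M → w ≤ M → v ^ k * w ≤ M ^ (k + 1) := by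
    intro v w k hv hw
    rw [pow_succ]
    exact Nat.mul_le_mul (Nat.pow_le_pow_left hv k) hw
  have haM : a ≤ M ^ (p + 1) := by rw [ha]; exact hpowM hxM hx0M
  have hbM : b ≤ M ^ (q + 1) := by rw [hb]; exact hpowM hyM hy0M
  have hcM : c ≤ M ^ (r + 1) := by rw [hc]; exact hpowM hzM hz0M
  have habc : a + b = c := by rw [ha, hb, hc]; exact heq
  rw [← ha, ← hb] at hF1
  have hbc : (b : ℝ) ≤ c := by exact_mod_cast (by omega : b ≤ c)
  have hac : (a : ℝ) ≤ c := by exact_mod_cast (by omega : a ≤ c)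
  have hF1ac : (M : ℝ) ^ ((1 + ε) * (s : ℝ)) ≤ ((a : ℝ) * c) ^ 2 := by
    refine hF1.trans (pow_le_pow_left₀ (by positivity) ?_ 2)
    exact mul_le_mul_of_nonneg_left hbc (by positivity)
  have hF1bc : (M : ℝ) ^ ((1 + ε) * (s : ℝ)) ≤ ((b : ℝ) * c) ^ 2 := by
    refine hF1.trans (pow_le_pow_left₀ (by positivity) ?_ 2)
    rw [mul_comm]
    exact mul_le_mul_of_nonneg_left hac (by positivity)
  by_cases hsm : eval ![(x : ℤ), (y : ℤ), (z : ℤ)] (pderiv 1 Q) = 0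
  · -- a singular point
    obtain ⟨h1, h2⟩ := singular_small hprime hQn hn0 hnD hNQ hx hz hcP1 hcPQ cxz hQroot hsm
    obtain ⟨𝓑, h𝓑⟩ : ∃ 𝓑, 𝓑 = (2 * D).factorial * (D * cP) ^ (2 * D) := ⟨_, rfl⟩
    rw [← h𝓑] at h1 h2
    have h3 : 𝓑 ^ 4 ≤ M := by
      have h4 : (𝓑 ^ 4) ^ 2 ≤ M ^ 2 := by
        calc (𝓑 ^ 4) ^ 2 = ((2 * D).factorial ^ 8 * (D * C1 D) ^ (16 * D)) * B ^ (16 * D) := by
              rw [h𝓑, hcP, ← pow_mul, mul_pow, ← pow_mul, ← mul_assoc D, mul_pow]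
              have e1 : 2 * D * (4 * 2) = 16 * D := by ring
              rw [e1]
              ring
          _ ≤ (K * s) ^ K * B ^ (16 * D) := by
              have h7 : 1 ≤ K * s := Nat.mul_pos (by omega) (by omega)
              have h5 : D * C1 D ≤ K * s :=
                le_trans (by omega : D * C1 D ≤ K) (Nat.le_mul_of_pos_right K (by omega))
              have h6 : (2 * D).factorial ≤ K * s :=
                le_trans (by omega : (2 * D).factorial ≤ K) (Nat.le_mul_of_pos_right K (by omega))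
              refine Nat.mul_le_mul_right _ ?_
              calc (2 * D).factorial ^ 8 * (D * C1 D) ^ (16 * D)
                  ≤ (K * s) ^ 8 * (K * s) ^ (16 * D) :=
                    Nat.mul_le_mul (Nat.pow_le_pow_left h6 _) (Nat.pow_le_pow_left h5 _)
                _ = (K * s) ^ (8 + 16 * D) := by rw [← pow_add]
                _ ≤ (K * s) ^ K := Nat.pow_le_pow_right h7 (by omega)
          _ ≤ M * M := Nat.mul_le_mul hKs hBc2
          _ = M ^ 2 := by ring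
      exact (Nat.pow_le_pow_iff_left (by norm_num)).mp h4
    have h4 : (a * b) ^ 4 ≤ M ^ (s + 8) := by
      calc (a * b) ^ 4 ≤ ((𝓑 ^ p * M) * (𝓑 ^ r * M)) ^ 4 := by
            refine Nat.pow_le_pow_left (Nat.mul_le_mul ?_ ?_) 4
            · rw [ha]; exact Nat.mul_le_mul (Nat.pow_le_pow_left h1 _) hx0M
            · refine (by omega : b ≤ c).trans ?_
              rw [hc]; exact Nat.mul_le_mul (Nat.pow_le_pow_left h2 _) hz0M
        _ = (𝓑 ^ 4) ^ (p + r) * M ^ 8 := by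
            rw [← pow_mul, mul_pow, mul_pow, mul_pow, ← pow_mul, ← pow_mul]
            ring
        _ ≤ M ^ (p + r) * M ^ 8 := Nat.mul_le_mul_right _ (Nat.pow_le_pow_left h3 _)
        _ = M ^ (p + r + 8) := by rw [← pow_add]
        _ ≤ M ^ (s + 8) := Nat.pow_le_pow_right hM1 (by omega)
    have hM2 : (2 : ℝ) ≤ M := by exact_mod_cast hM
    have h5 : (M : ℝ) ^ (2 * ((1 + ε) * (s : ℝ))) ≤ (M : ℝ) ^ ((s : ℝ) + 8) := by
      have h6 : ((M : ℝ) ^ ((1 + ε) * (s : ℝ))) ^ 2 ≤ (((a : ℝ) * b) ^ 2) ^ 2 :=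
        pow_le_pow_left₀ (by positivity) hF1 2
      have h7 : (((a : ℝ) * b) ^ 2) ^ 2 ≤ (M : ℝ) ^ (s + 8) := by
        rw [← pow_mul]
        exact_mod_cast h4
      have h8 := h6.trans h7
      rw [← Real.rpow_natCast ((M : ℝ) ^ ((1 + ε) * (s : ℝ))), ← Real.rpow_mul (by positivity),
        ← Real.rpow_natCast] at h8
      convert! h8 using 2
      · push_cast; ring
      · push_cast; ring
    rw [Real.rpow_le_rpow_left_iff (by linarith)] at h5
    have h6 : (9 : ℝ) ≤ s := by exact_mod_cast (by omega : 9 ≤ s)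
    have h7 : 0 ≤ ε * s := by positivity
    have h8 : 2 * ((1 + ε) * (s : ℝ)) = 2 * s + 2 * (ε * s) := by ring
    linarith
  · -- a smooth point
    obtain ⟨L, hL2, hL1, hLu⟩ := constL (D := n) hn0 hε hε1
    have hRn : 100 * (n + 1 : ℝ) ^ 3 ≤ ε * s := by
      refine le_trans ?_ hRs
      have h1 : (n : ℝ) ≤ D := by exact_mod_cast hnD
      have h2 : (n + 1 : ℝ) ^ 3 ≤ (D + 1 : ℝ) ^ 3 := pow_le_pow_left₀ (by positivity) (by linarith) 3
      linarith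
    obtain ⟨k, hk⟩ : ∃ k, k = s / L := ⟨_, rfl⟩
    obtain ⟨N, hN⟩ : ∃ N, N = (s + k) / 2 + 1 := ⟨_, rfl⟩
    obtain ⟨J, hJ⟩ : ∃ J, J = n * (2 * N + n - s) + 1 := ⟨_, rfl⟩
    obtain ⟨⟨c01, c02, c03, c04, c05, c06, c07, c08, c09, c10, c11, c12, c13, c14, c15⟩, hF5, hNs,
      hsX, hXs⟩ := params (p := p) (q := q) (r := r) (s := s) (N := N) (J := J) (d := n) (k := k)
        hn0 hε hε1 hL1 hLu hL2 hs hRn hk hN hn0 le_rfl hJ (exp_le hM hF1 haM hbM)
        (exp_le hM hF1ac haM hcM) (exp_le hM hF1bc hbM hcM)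
    obtain ⟨X, hX⟩ : ∃ X, X = 2 * N + 3 - n - s := ⟨_, rfl⟩
    rw [← hX] at hsX hXs
    obtain ⟨T, hT⟩ : ∃ T, T = (II N (N + 1)).card + n * (2 * N + 3 - n - (p + q + r)) := ⟨_, rfl⟩
    have hk2 : 2 * k ≤ s := by
      rw [hk]
      have h1 := Nat.div_mul_le_self s L
      have h2 := Nat.mul_le_mul_left (s / L) hL2
      omega
    have hN2 : N + 2 ≤ s := by omega
    have h2card : 2 * (II N (N + 1)).card ≤ s * s := by
      have h1 := two_card N (N + 1) le_rfl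
      have h2 : (N + 1) * (2 * N + 3) = (N + 1) * (N + 2) + (N + 1) * (N + 1) := by ring
      have h3 : 2 * (II N (N + 1)).card = (N + 1) * (N + 2) := by omega
      rw [h3]
      exact Nat.mul_le_mul hNs hN2
    obtain ⟨e, he⟩ : ∃ e, e = L * s / n + 1 := ⟨_, rfl⟩
    have hen : L * s ≤ e * n := by
      have h1 := Nat.lt_div_mul_add (a := L * s) (b := n) hn0
      rw [he, Nat.succ_mul]
      omega
    have hcardN : (II N (N + 1)).card ≤ s ^ 2 := (card_all_le N).trans (Nat.pow_le_pow_left hNs 2)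
    have hcore := core (P := Q) (d := n) (cP := cP) (N := N) (e := e) (M := M) (x := x)
      (y := y) (z := z) (x0 := x0) (y0 := y0) (z0 := z0) (p := p) (q := q) (r := r) (T := T)
      (J := J) hprime hQn hn0 hNQ hx hy hz hQroot hsm cxy cyz hy0 hxM hyM hzM hx0M hy0M hz0M
      heq hcP1 hcPQ c01 c02 c03 c04 c05 c06 c07 c08 c09 c10 (by omega)
      (by rw [hJ, hs]) c12 c13 c14 (by omega) hT (by
        rw [← hs, ← hX]
        have h1 : 2 * (II N (N + 1)).card ≤ 2 * (e * (n * X)) := by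
          calc 2 * (II N (N + 1)).card ≤ s * s := h2card
            _ ≤ s * (2 * L * X) := Nat.mul_le_mul_left _ hsX
            _ = 2 * ((L * s) * X) := by ring
            _ ≤ 2 * ((e * n) * X) := Nat.mul_le_mul_left _ (Nat.mul_le_mul_right _ hen)
            _ = 2 * (e * (n * X)) := by ring
        omega)
    rw [← ha, ← hb] at hcore
    obtain ⟨Θ, hΘ⟩ : ∃ Θ, Θ = (2 * (n * cP) * (N + J * n)) ^ J * (T * (T * cP) ^ e) := ⟨_, rfl⟩
    rw [← hΘ] at hcore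
    obtain ⟨Γ, hΓ⟩ : ∃ Γ, Γ = 2 * (D + 1) ^ 2 * s ^ 2 * cP := ⟨_, rfl⟩
    have hs1 : 1 ≤ s := by omega
    have hss : s ≤ s ^ 2 := Nat.le_self_pow (by norm_num) s
    have hTle : T ≤ (D + 1) * s ^ 2 := by
      rw [hT, ← hs, ← hX]
      have h1 : n * X ≤ D * s ^ 2 := Nat.mul_le_mul hnD (hXs.trans hss)
      calc (II N (N + 1)).card + n * X ≤ s ^ 2 + D * s ^ 2 := Nat.add_le_add hcardN h1
        _ = (D + 1) * s ^ 2 := by ring
    have hD1 : D + 1 ≤ 2 * (D + 1) ^ 2 :=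
      (Nat.le_self_pow (by norm_num) (D + 1)).trans (Nat.le_mul_of_pos_left _ (by norm_num))
    have hTcP : T * cP ≤ Γ := by
      rw [hΓ]
      exact Nat.mul_le_mul_right _ (hTle.trans (Nat.mul_le_mul_right _ hD1))
    have hTΓ : T ≤ Γ := le_trans (Nat.le_mul_of_pos_right T hcP1) hTcP
    have hΓ1 : 1 ≤ Γ := by
      rw [hΓ]
      exact Nat.mul_pos (Nat.mul_pos (by positivity) (by positivity)) hcP1
    have hbase : 2 * (n * cP) * (N + J * n) ≤ Γ := by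
      have h1 : N + J * n ≤ (D + 1) * s := by
        have h2 : J * n ≤ s * D := Nat.mul_le_mul (by omega) hnD
        have h3 : (D + 1) * s = s + s * D := by ring
        omega
      calc 2 * (n * cP) * (N + J * n) ≤ 2 * ((D + 1) * cP) * ((D + 1) * s) :=
            Nat.mul_le_mul (Nat.mul_le_mul_left 2 (Nat.mul_le_mul_right _ (by omega))) h1
        _ = 2 * (D + 1) ^ 2 * s * cP := by ring
        _ ≤ 2 * (D + 1) ^ 2 * s ^ 2 * cP := Nat.mul_le_mul_right _ (Nat.mul_le_mul_left _ hss)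
        _ = Γ := hΓ.symm
    have hF3 : Θ ≤ Γ ^ (J + 1 + e) := by
      calc Θ ≤ Γ ^ J * (Γ * Γ ^ e) := by
            rw [hΘ]
            exact Nat.mul_le_mul (Nat.pow_le_pow_left hbase _)
              (Nat.mul_le_mul hTΓ (Nat.pow_le_pow_left hTcP _))
        _ = Γ ^ (J + 1 + e) := by rw [pow_add, pow_add, pow_one]; ring
    have hF6 := expE (D := D) (n := n) (L := L) (K := K2) (s := s) (J := J) (e := e) hD hn0 hnD hε
      hε1 hLu hK2l (by omega) he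
    have hF4 : Γ ^ K2 ≤ M ^ 2 := by
      calc Γ ^ K2 ≤ (((K * s) ^ 2) * B) ^ K2 := by
            refine Nat.pow_le_pow_left ?_ _
            rw [hΓ, hcP]
            have h1 : 2 * (D + 1) ^ 2 * C1 D ≤ K := by omega
            calc 2 * (D + 1) ^ 2 * s ^ 2 * (C1 D * B) = (2 * (D + 1) ^ 2 * C1 D) * (s ^ 2 * B) := by ring
              _ ≤ K * (s ^ 2 * B) := Nat.mul_le_mul_right _ h1
              _ ≤ K ^ 2 * (s ^ 2 * B) := Nat.mul_le_mul_right _ (Nat.le_self_pow (by norm_num) K)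
              _ = ((K * s) ^ 2) * B := by ring
        _ = (K * s) ^ (2 * K2) * B ^ K2 := by rw [mul_pow, ← pow_mul]
        _ ≤ (K * s) ^ K * B ^ K2 :=
            Nat.mul_le_mul_right _ (Nat.pow_le_pow_right (Nat.mul_pos (by omega) hs1) (by omega))
        _ ≤ M * M := Nat.mul_le_mul hKs hBK2
        _ = M ^ 2 := by ring
    have hF7 : (4 : ℝ) < (M : ℝ) ^ (ε * s / 4) := by
      have h1 : (12 : ℝ) ≤ ε * s := by linarith
      have hM2 : (2 : ℝ) ≤ M := by exact_mod_cast hM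
      calc (4 : ℝ) < 2 ^ (3 : ℝ) := by norm_num
        _ ≤ (M : ℝ) ^ (3 : ℝ) := Real.rpow_le_rpow (by norm_num) hM2 (by norm_num)
        _ ≤ (M : ℝ) ^ (ε * s / 4) := Real.rpow_le_rpow_of_exponent_le (by linarith) (by linarith)
    exact num_contra (ε := ε) (a := a) (b := b) (M := M) (s := s) (N := N) (J := J) (d := n)
      (Θ := Θ) (Γ := Γ) (K := K2) (E := J + 1 + e) hM (by omega) hF1 hcore hF3 hF4 hF5 hF6 hF7

end Pool.Agent.Helper4.AR
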