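import Mathlib
import Pool.Agent.Helper4.AR.Large
import Pool.Agent.Helper4.PC.Consts

/-!
# The bases of a solution with large exponents satisfy no small relation of bounded degree
-/

set_option autoImplicit false
set_option linter.unusedSectionVars false

namespace Pool.Agent.Helper4.AR

open MvPolynomial Pool.Agent.Helper4.PC

theorem main {D : ℕ} (hD : 1 ≤ D) {ε : ℝ} (hε : 0 < ε) (hε1 : ε ≤ 1) (H : ℝ) :
    {v : ℕ × ℕ × ℕ | ∃ (x y z p q r i j k M d : ℕ) (P : MvPolynomial (Fin 3) ℤ),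
      Sol x y z p q r ∧ 0 < i ∧ 0 < j ∧ 0 < k ∧ x ^ i ≤ M ∧ y ^ j ≤ M ∧ z ^ k ≤ M ∧
      P.IsHomogeneous d ∧ d ≤ D ∧ (∀ l : Fin 3, eval (Pi.single l (1 : ℤ)) P ≠ 0) ∧
      (∀ m, |((P.coeff m : ℤ) : ℝ)| ≤ max H ((M : ℝ) ^ (ε ^ 2 / (400 * (D + 1 : ℝ))))) ∧
      eval ![(x : ℤ) ^ i, (y : ℤ) ^ j, (z : ℤ) ^ k] P = 0 ∧
      100 * (D + 1 : ℝ) ^ 3 ≤ ε * ((p / i + q / j + r / k : ℕ) : ℝ) ∧
      (M : ℝ) ^ ((1 + ε) * ((p / i + q / j + r / k : ℕ) : ℝ)) ≤ ((x : ℝ) ^ p * (y : ℝ) ^ q) ^ 2 ∧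
      v = (x ^ p, y ^ q, z ^ r)}.Finite := by
  obtain ⟨K, hK, hlarge⟩ := large hD hε hε1
  obtain ⟨T, hT⟩ := exps_small 1 (3 * K)
  obtain ⟨δ, hδ⟩ : ∃ δ : ℝ, δ = ε ^ 2 / (400 * (D + 1 : ℝ)) := ⟨_, rfl⟩
  rw [← hδ]
  have hδ0 : 0 < δ := by rw [hδ]; positivity
  obtain ⟨K3, hK3⟩ := exists_nat_ge (1 / δ)
  have hK3' : 1 ≤ δ * K3 := by
    rw [div_le_iff₀ hδ0] at hK3
    linarith
  obtain ⟨B₀, hB₀⟩ : ∃ B₀ : ℕ, B₀ = ⌈H⌉₊ + 1 := ⟨_, rfl⟩
  obtain ⟨M₀, hM₀⟩ : ∃ M₀ : ℕ, M₀ = T + B₀ ^ K3 + 2 := ⟨_, rfl⟩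
  have hHB : H ≤ (B₀ : ℝ) := by
    have := Nat.le_ceil H
    rw [hB₀]
    push_cast
    linarith
  refine (finite_of_bases M₀).subset ?_
  rintro v ⟨x, y, z, p, q, r, i, j, k, M, d, P, hs, hi, hj, hk, hxM, hyM, hzM, hP, hd, hNV, hco,
    hroot, hR, hF, rfl⟩
  have hcop := hs.coprimes
  obtain ⟨hx, hy, hz, -, hp, hq, hr, -, heq⟩ := id hs
  have hxx : x ≤ M := (Nat.le_self_pow hi.ne' x).trans hxM
  have hyy : y ≤ M := (Nat.le_self_pow hj.ne' y).trans hyM
  have hzz : z ≤ M := (Nat.le_self_pow hk.ne' z).trans hzM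
  by_cases hbig : M₀ ≤ M
  · exfalso
    obtain ⟨s, hs'⟩ : ∃ s, s = p / i + q / j + r / k := ⟨_, rfl⟩
    rw [← hs'] at hR hF
    have hM2 : 2 ≤ M := by omega
    have hMR : (1 : ℝ) ≤ (M : ℝ) := by exact_mod_cast (by omega : 1 ≤ M)
    -- decomposition of the powers
    have hdec : ∀ {w e l : ℕ}, w ^ e = (w ^ l) ^ (e / l) * w ^ (e % l) := by
      intro w e l
      rw [← pow_mul, ← pow_add, Nat.div_add_mod]
    have hmod : ∀ {w e l : ℕ}, 0 < w → 0 < l → w ^ l ≤ M → w ^ (e % l) ≤ M := by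
      intro w e l hw hl h
      exact (Nat.pow_le_pow_right hw (Nat.mod_lt e hl).le).trans h
    have hpowM : ∀ {v w k : ℕ}, v ≤ M → w ≤ M → v ^ k * w ≤ M ^ (k + 1) := by
      intro v w k hv hw
      rw [pow_succ]
      exact Nat.mul_le_mul (Nat.pow_le_pow_left hv k) hw
    have hxp : x ^ p ≤ M ^ (p / i + 1) := by
      rw [hdec (w := x) (e := p) (l := i)]; exact hpowM hxM (hmod hx hi hxM)
    have hyq : y ^ q ≤ M ^ (q / j + 1) := by
      rw [hdec (w := y) (e := q) (l := j)]; exact hpowM hyM (hmod hy hj hyM)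
    have hzr : z ^ r ≤ M ^ (r / k + 1) := by
      rw [hdec (w := z) (e := r) (l := k)]; exact hpowM hzM (hmod hz hk hzM)
    have hFn : (M : ℝ) ^ ((1 + ε) * (s : ℝ)) ≤ (((x ^ p : ℕ) : ℝ) * ((y ^ q : ℕ) : ℝ)) ^ 2 := by
      push_cast
      exact hF
    have hεs : 4 < ε * s := by
      have h1 : (1 : ℝ) ≤ (D + 1 : ℝ) ^ 3 := one_le_pow₀ (by
        have : (0 : ℝ) ≤ D := by positivity
        linarith)
      linarith
    have hs1 : 1 ≤ s := by
      by_contra hcon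
      have h0 : s = 0 := by omega
      rw [h0] at hεs
      simp at hεs
      linarith
    have hs3 : ((p / i : ℕ) : ℝ) + ((q / j : ℕ) : ℝ) + ((r / k : ℕ) : ℝ) = s := by
      rw [hs']; push_cast; ring
    have hone : ∀ {u w e f g : ℕ}, u = 1 → ((M : ℝ) ^ ((1 + ε) * (s : ℝ)) ≤ ((u : ℝ) * (w : ℝ)) ^ 2) →
        w ≤ M ^ (e + 1) → w ≤ M ^ (f + 1) → g + e + f = s → False := by
      intro u w e f g hu hw he hf hefg
      have h1 := exp_le hM2 hw (u := 0) (v := e) (by rw [hu]; simpa using (by omega : 1 ≤ M)) he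
      have h2 := exp_le hM2 hw (u := 0) (v := f) (by rw [hu]; simpa using (by omega : 1 ≤ M)) hf
      have h3 : (g : ℝ) + e + f = s := by exact_mod_cast hefg
      have h4 : (0 : ℝ) ≤ g := by positivity
      push_cast at h1 h2
      nlinarith
    have hyz : y ^ q ≤ z ^ r := by omega
    have hxz : x ^ p ≤ z ^ r := by omega
    have hx2 : 2 ≤ x := by
      by_contra hcon
      have hx1 : x = 1 := by omega
      exact hone (u := x ^ p) (w := y ^ q) (e := q / j) (f := r / k) (g := p / i)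
        (by rw [hx1, one_pow]) hFn hyq (hyz.trans hzr) (by omega)
    have hy2 : 2 ≤ y := by
      by_contra hcon
      have hy1 : y = 1 := by omega
      exact hone (u := y ^ q) (w := x ^ p) (e := p / i) (f := r / k) (g := q / j)
        (by rw [hy1, one_pow]) (by rw [mul_comm ((y ^ q : ℕ) : ℝ)]; exact hFn) hxp (hxz.trans hzr) (by omega)
    have hE := hT M (by omega) x y z p q r hs hx2 hy2 (by rw [pow_one]; exact hxx)
      (by rw [pow_one]; exact hyy) (by rw [pow_one]; exact hzz)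
    have hKs : (K * s) ^ K ≤ M := by
      have h1 : s ≤ 3 * max p (max q r) := by
        have a1 := Nat.div_le_self p i
        have a2 := Nat.div_le_self q j
        have a3 := Nat.div_le_self r k
        omega
      have h2 : (3 * K * max p (max q r)) ^ (3 * K) ≤ M := by
        rcases le_total p (max q r) with h | h
        · rw [max_eq_right h]
          rcases le_total q r with h' | h'
          · rw [max_eq_right h']; exact hE r (Or.inr (Or.inr rfl))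
          · rw [max_eq_left h']; exact hE q (Or.inr (Or.inl rfl))
        · rw [max_eq_left h]; exact hE p (Or.inl rfl)
      have h3 : K * s ≤ 3 * K * max p (max q r) := by
        calc K * s ≤ K * (3 * max p (max q r)) := Nat.mul_le_mul_left _ h1
          _ = 3 * K * max p (max q r) := by ring
      have h4 : 1 ≤ 3 * K * max p (max q r) := Nat.mul_pos (by omega) (by omega)
      exact (Nat.pow_le_pow_left h3 K).trans ((Nat.pow_le_pow_right h4 (by omega)).trans h2)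
    -- the coefficient bound
    obtain ⟨B, hB⟩ : ∃ B : ℕ, B = ⌊(M : ℝ) ^ δ⌋₊ := ⟨_, rfl⟩
    have hB1 : 1 ≤ B := by
      rw [hB, Nat.one_le_floor_iff]
      exact Real.one_le_rpow hMR hδ0.le
    have hBle : (B : ℝ) ≤ (M : ℝ) ^ δ := by
      rw [hB]
      exact Nat.floor_le (by positivity)
    have hHt : max H ((M : ℝ) ^ δ) ≤ (M : ℝ) ^ δ := by
      refine max_le (hHB.trans ?_) le_rfl
      have h1 : ((B₀ : ℝ) ^ K3) ^ δ ≤ (M : ℝ) ^ δ := by
        refine Real.rpow_le_rpow (by positivity) ?_ hδ0.le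
        exact_mod_cast (by omega : B₀ ^ K3 ≤ M)
      refine le_trans ?_ h1
      have hB₀1 : (1 : ℝ) ≤ B₀ := by exact_mod_cast (by omega : 1 ≤ B₀)
      rw [← Real.rpow_natCast (B₀ : ℝ), ← Real.rpow_mul (by positivity)]
      calc (B₀ : ℝ) = (B₀ : ℝ) ^ (1 : ℝ) := (Real.rpow_one _).symm
        _ ≤ (B₀ : ℝ) ^ ((K3 : ℝ) * δ) :=
            Real.rpow_le_rpow_of_exponent_le hB₀1 (by linarith)
    have hcoef : ∀ m, (P.coeff m).natAbs ≤ B := by
      intro m
      rw [hB]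
      apply Nat.le_floor
      have := (hco m).trans hHt
      rwa [Nat.cast_natAbs, Int.cast_abs]
    refine hlarge M B s hM2 hB1 (by rw [dl, ← hδ]; exact hBle) hKs hR P d hP hd hNV hcoef
      (x ^ i) (y ^ j) (z ^ k)
      (x ^ (p % i)) (y ^ (q % j)) (z ^ (r % k)) (p / i) (q / j) (r / k) hs' (pow_pos hx _)
      (pow_pos hy _) (pow_pos hz _) (pow_pos hy _) (Nat.Coprime.pow _ _ hcop.1)
      (Nat.Coprime.pow _ _ hcop.2.1) (Nat.Coprime.pow _ _ hcop.2.2) hxM hyM hzM (hmod hx hi hxM)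
      (hmod hy hj hyM) (hmod hz hk hzM) ?_ ?_ ?_
    · rw [← hdec, ← hdec, ← hdec]
      exact heq
    · rw [← hdec, ← hdec]
      exact hFn
    · push_cast
      exact hroot
  · exact ⟨x, y, z, p, q, r, hs, by omega, by omega, by omega, rfl⟩

end Pool.Agent.Helper4.AR
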